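import Mathlib

/-!
Definitions for Martin's conjecture (reals are functions from the naturals to Bool).
-/

namespace MC92

/-- Reals: elements of Cantor space. -/
abbrev X : Type := ℕ → Bool

/-- The characteristic function of a real, as a partial function on the naturals. -/
def chi (x : X) : ℕ →. ℕ := fun n => Part.some (x n).toNat

/-- Turing reducibility of reals: Mathlib's `TuringReducible` for the characteristic functions. -/
def Red (x y : X) : Prop := TuringReducible (chi x) (chi y)

/-- The Turing join: `x` on the even numbers, `y` on the odd numbers. -/
def join (x y : X) : X := fun n => if n % 2 = 0 then x (n / 2) else y (n / 2)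

/-- The Turing join of `n + 1` reals: the real number `j` on the numbers congruent to `j`. -/
def joinF {n : ℕ} (x : Fin (n + 1) → X) : X :=
  fun l => x (Fin.ofNat (n + 1) l) (l / (n + 1))

/-- The property `P` holds on a cone of Turing degrees. -/
def Cone (P : X → Prop) : Prop := ∃ c : X, ∀ x : X, Red c x → P x

/-- Turing-invariant functions. -/
def Invariant (f : X → X) : Prop := ∀ x y : X, Red x y → Red y x → Red (f x) (f y)

/-- The play in which the first player follows the strategy `s` and the second player plays the
sequence `b`.  The first player makes the moves number `0, 2, 4, ...`, the second player the moves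
number `1, 3, 5, ...`; a strategy answers the list of the previous moves of the opponent. -/
def play1 (s : List ℕ → ℕ) (b : ℕ → ℕ) : ℕ → ℕ :=
  fun n => if n % 2 = 0 then s ((List.range (n / 2)).map b) else b (n / 2)

/-- The play in which the second player follows the strategy `t` and the first player plays the
sequence `a`. -/
def play2 (t : List ℕ → ℕ) (a : ℕ → ℕ) : ℕ → ℕ :=
  fun n => if n % 2 = 0 then a (n / 2) else t ((List.range (n / 2 + 1)).map a)

/-- The game on the naturals with payoff set `A` for the first player is determined. -/
def Determined (A : Set (ℕ → ℕ)) : Prop :=
  (∃ s : List ℕ → ℕ, ∀ b : ℕ → ℕ, play1 s b ∈ A) ∨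
    (∃ t : List ℕ → ℕ, ∀ a : ℕ → ℕ, play2 t a ∉ A)

/-- The determinacy hypothesis for a sigma-algebra `m` of subsets of Baire space: `m` contains the
Borel sets, continuous preimages of sets in `m` are in `m`, and every game with payoff set in `m`
is determined.  Martin's theorem gives it (in ZFC) for the Borel sets, and the axiom of
determinacy is this hypothesis for the sigma-algebra of all sets. -/
structure Determinacy (m : MeasurableSpace (ℕ → ℕ)) : Prop where
  borel_le : borel (ℕ → ℕ) ≤ m
  continuous : ∀ g : (ℕ → ℕ) → (ℕ → ℕ), Continuous g → @Measurable _ _ m m g
  determined : ∀ A : Set (ℕ → ℕ), @MeasurableSet _ m A → Determined A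

/-- The real coded by a sequence of naturals. -/
def bits (a : ℕ → ℕ) : X := fun n => a n != 0

/-- The function `f` on reals is measurable with respect to `m` (read on Baire space through
`bits`). For `m` the sigma-algebra of all sets this holds for every `f`; for `m` the Borel sets it
says that `f` is a Borel function. -/
def Meas (m : MeasurableSpace (ℕ → ℕ)) (f : X → X) : Prop :=
  ∀ n : ℕ, @MeasurableSet _ m {a : ℕ → ℕ | f (bits a) n = true}

end MC92
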