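import Pool.Agent.LibMC92.SplitDefs

/-!
D2: Baire category for the strategies of the first player in game D.
-/

open Encodable

namespace MC92

/-- The bits and strings of the history `H`. -/
def d2_body (s : List ℕ → ℕ) (H : List ℕ) : List Bool :=
  (List.range H.length).flatMap fun j => (s (H.take j) != 0) :: (seg (H.getD j 0)).1

/-- The same with the next bit of the first player. -/
def d2_hL (s : List ℕ → ℕ) (H : List ℕ) : List Bool := d2_body s H ++ [s H != 0]

theorem d2_body_snoc (s : List ℕ → ℕ) (H : List ℕ) (m : ℕ) :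
    d2_body s (H ++ [m]) = d2_body s H ++ ((s H != 0) :: (seg m).1) := by
  unfold d2_body
  rw [List.length_append, List.length_singleton, List.range_succ, List.flatMap_append]
  congr 1
  · refine List.flatMap_congr fun j hj => ?_
    have hj' : j < H.length := List.mem_range.1 hj
    rw [List.take_append_of_le_length hj'.le, List.getD_append _ _ _ _ hj']
  · simp

theorem d2_hL_snoc (s : List ℕ → ℕ) (H : List ℕ) (v : List Bool) (β : Bool) :
    d2_hL s (H ++ [encode (v, β)]) = d2_hL s H ++ v ++ [s (H ++ [encode (v, β)]) != 0] := by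
  unfold d2_hL
  rw [d2_body_snoc, seg_encode]
  simp

theorem d2_set (l : List Bool) : {x : X | pre x l.length = l} =
    ⋂ i ∈ Finset.range l.length, (fun x : X => x i) ⁻¹' {l.getD i false} := by
  ext x
  simp only [Set.mem_ofPred_eq, Set.mem_iInter, Set.mem_preimage, Set.mem_singleton_iff,
    Finset.mem_range]
  constructor
  · intro h i hi
    rw [← pre_getD x hi false, h]
  · intro h
    exact pre_eq_of_getD h

theorem d2_open (l : List Bool) : IsOpen {x : X | pre x l.length = l} := by
  rw [d2_set]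
  exact isOpen_biInter_finset fun i _ => (isOpen_discrete _).preimage (continuous_apply i)

theorem d2_closed (l : List Bool) : IsClosed {x : X | pre x l.length = l} := by
  rw [d2_set]
  exact isClosed_biInter fun i _ => (isClosed_discrete _).preimage (continuous_apply i)

theorem d2_cyl {V : Set X} (hV : IsOpen V) {x0 : X} (hx : x0 ∈ V) :
    ∃ N, ∀ x' : X, pre x' N = pre x0 N → x' ∈ V := by
  have h2 : V ∈ nhds x0 := hV.mem_nhds hx
  rw [nhds_pi, Filter.mem_pi] at h2
  obtain ⟨I, hI, t, ht, hsub⟩ := h2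
  obtain ⟨N, hN⟩ := hI.bddAbove
  refine ⟨N + 1, fun h' hh => hsub ?_⟩
  intro i hi
  have hiN := hN hi
  rw [pre_eq_iff.1 hh i (by omega)]
  exact mem_of_mem_nhds (ht i)

/-- The open dense set for the history `H` and the bit `β`. -/
def d2_U (s : List ℕ → ℕ) (q : List ℕ × Bool) : Set X :=
  {x | pre x (d2_hL s q.1).length = d2_hL s q.1 →
    ∃ v : List Bool, pre x (d2_hL s (q.1 ++ [encode (v, q.2)])).length =
      d2_hL s (q.1 ++ [encode (v, q.2)])}

theorem d2_U_open (s : List ℕ → ℕ) (q : List ℕ × Bool) : IsOpen (d2_U s q) := by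
  have h : d2_U s q = {x : X | pre x (d2_hL s q.1).length = d2_hL s q.1}ᶜ ∪
      ⋃ v : List Bool, {x : X | pre x (d2_hL s (q.1 ++ [encode (v, q.2)])).length =
        d2_hL s (q.1 ++ [encode (v, q.2)])} := by
    ext x
    simp only [d2_U, Set.mem_ofPred_eq, Set.mem_union, Set.mem_compl_iff, Set.mem_iUnion]
    tauto
  rw [h]
  exact (d2_closed _).isOpen_compl.union (isOpen_iUnion fun v => d2_open _)

theorem d2_U_dense (s : List ℕ → ℕ) (q : List ℕ × Bool) : Dense (d2_U s q) := by
  rw [dense_iff_inter_open]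
  rintro V hV ⟨x0, hx0⟩
  obtain ⟨n, hn⟩ := d2_cyl hV hx0
  by_cases h0 : pre x0 (d2_hL s q.1).length = d2_hL s q.1
  · obtain ⟨N, hN1, hN2⟩ : ∃ N, n ≤ N ∧ (d2_hL s q.1).length ≤ N :=
      ⟨max n (d2_hL s q.1).length, le_max_left _ _, le_max_right _ _⟩
    obtain ⟨v, hv⟩ : ∃ v, d2_hL s q.1 ++ v = pre x0 N := by
      refine ⟨(pre x0 N).drop (d2_hL s q.1).length, ?_⟩
      have h1 : (pre x0 N).take (d2_hL s q.1).length = d2_hL s q.1 := by
        rw [pre_take x0 hN2, h0]
      conv_rhs => rw [← List.take_append_drop (d2_hL s q.1).length (pre x0 N)]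
      rw [h1]
    obtain ⟨b, hb⟩ : ∃ b : Bool, d2_hL s (q.1 ++ [encode (v, q.2)]) = pre x0 N ++ [b] := by
      refine ⟨s (q.1 ++ [encode (v, q.2)]) != 0, ?_⟩
      rw [d2_hL_snoc, hv]
    have hpre : pre (Function.update x0 N b) N = pre x0 N := by
      rw [pre_eq_iff]
      intro i hi
      rw [Function.update_of_ne (by omega)]
    refine ⟨Function.update x0 N b, hn _ ?_, fun _ => ⟨v, ?_⟩⟩
    · rw [← pre_take _ hN1, hpre, pre_take _ hN1]
    · rw [hb]
      have : (pre x0 N ++ [b]).length = N + 1 := by simp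
      rw [this, pre_succ, hpre, Function.update_self]
  · exact ⟨x0, hx0, fun h => absurd h h0⟩

theorem baireD (s : List ℕ → ℕ) :
    ∃ x : X, ∀ c : X, ∃ b : ℕ → ℕ, xx (play1 s b) = x ∧ cc (play1 s b) = c := by
  have hD : Dense (⋂ q, d2_U s q) := dense_iInter_of_isOpen (d2_U_open s) (d2_U_dense s)
  obtain ⟨x, hx0, hx⟩ := hD.inter_open_nonempty _ (d2_open (d2_hL s []))
    ⟨ext0 (d2_hL s []), pre_eq_of_getD fun i _ => rfl⟩
  have hx1 : ∀ (H : List ℕ) (β : Bool), pre x (d2_hL s H).length = d2_hL s H →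
      ∃ v : List Bool, pre x (d2_hL s (H ++ [encode (v, β)])).length =
        d2_hL s (H ++ [encode (v, β)]) := fun H β => Set.mem_iInter.1 hx (H, β)
  refine ⟨x, fun c => ?_⟩
  choose v hv using hx1
  let Hs : ℕ → {H : List ℕ // pre x (d2_hL s H).length = d2_hL s H} := fun i =>
    Nat.rec ⟨[], hx0⟩ (fun i p => ⟨p.1 ++ [encode (v p.1 (c i) p.2, c i)], hv _ _ _⟩) i
  let b : ℕ → ℕ := fun i => encode (v (Hs i).1 (c i) (Hs i).2, c i)
  have hH : ∀ i, (Hs i).1 = (List.range i).map b := by
    intro i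
    induction i with
    | zero => rfl
    | succ i ih =>
      have h1 : (Hs (i + 1)).1 = (Hs i).1 ++ [b i] := rfl
      rw [h1, List.range_succ, List.map_append, ih]
      rfl
  have hx2 : ∀ i, xL (play1 s b) i = d2_body s (Hs i).1 := by
    intro i
    induction i with
    | zero => rfl
    | succ i ih =>
      have h1 : (Hs (i + 1)).1 = (Hs i).1 ++ [b i] := rfl
      rw [h1, d2_body_snoc, xL_succ, ih, play1_even, play1_odd, hH i]
  refine ⟨b, ?_, ?_⟩
  · have h3 : ∀ i, pre x (xL (play1 s b) i).length = xL (play1 s b) i := by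
      intro i
      rw [hx2 i]
      exact (pre_append_iff.1 (Hs i).2).1
    exact (lim_unique (xL_length _) h3).symm
  · funext i
    show (seg (play1 s b (2 * i + 1))).2 = c i
    rw [play1_odd, seg_encode]

end MC92
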