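import Pool.Agent.LibMC92.T4

/-!
M1: measurability.
-/

namespace MC92

/-- A map from Baire space to Cantor space is measurable with respect to `m`. -/
def MMap (m : MeasurableSpace (ℕ → ℕ)) (F : (ℕ → ℕ) → X) : Prop :=
  ∀ n, @MeasurableSet _ m {a | F a n = true}

variable {m : MeasurableSpace (ℕ → ℕ)}

theorem m1_compl {F : (ℕ → ℕ) → X} (hF : MMap m F) (n : ℕ) (b : Bool) :
    @MeasurableSet _ m {a | F a n = b} := by
  cases b with
  | true => exact hF n
  | false =>
    have : {a | F a n = false} = {a | F a n = true}ᶜ := by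
      ext a; simp
    rw [this]
    exact @MeasurableSet.compl _ _ m (hF n)

theorem m1_open (hm : Determinacy m) {U : Set (ℕ → ℕ)} (hU : IsOpen U) :
    @MeasurableSet _ m U :=
  hm.borel_le U (MeasurableSpace.measurableSet_generateFrom hU)

theorem mmap_of_continuous (hm : Determinacy m) {F : (ℕ → ℕ) → X} (hF : Continuous F) :
    MMap m F := by
  intro n
  refine m1_open hm ?_
  have h : Continuous fun a => F a n := (continuous_apply n).comp hF
  have : {a | F a n = true} = (fun a => F a n) ⁻¹' {true} := by
    ext a; simp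
  rw [this]
  exact (isOpen_discrete _).preimage h

theorem mmap_comp (hm : Determinacy m) {f : X → X} (hf : Meas m f) {F : (ℕ → ℕ) → X}
    (hF : Continuous F) : MMap m (fun a => f (F a)) := by
  intro n
  let F' : (ℕ → ℕ) → (ℕ → ℕ) := fun a n => (F a n).toNat
  have hF' : Continuous F' := by
    refine continuous_pi fun n => ?_
    have h : Continuous fun a => F a n := (continuous_apply n).comp hF
    exact (continuous_of_discreteTopology (f := Bool.toNat)).comp h
  have h1 : {a | f (F a) n = true} = F' ⁻¹' {a | f (bits a) n = true} := by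
    ext a
    simp only [Set.mem_ofPred_eq, Set.mem_preimage]
    rw [show bits (F' a) = F a from bits_toNat (F a)]
  rw [h1]
  exact hm.continuous F' hF' (hf n)

theorem m1_pre {G : (ℕ → ℕ) → X} (hG : MMap m G) (s : ℕ) (l : List Bool) :
    @MeasurableSet _ m {a | pre (G a) s = l} := by
  induction s generalizing l with
  | zero =>
    by_cases h : l = []
    · have : {a | pre (G a) 0 = l} = Set.univ := by
        ext a; simp [pre_zero, h]
      rw [this]; exact @MeasurableSet.univ _ m
    · have : {a | pre (G a) 0 = l} = ∅ := by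
        ext a
        simp only [pre_zero, Set.mem_ofPred_eq, Set.mem_empty_iff_false, iff_false]
        exact fun h' => h h'.symm
      rw [this]; exact @MeasurableSet.empty _ m
  | succ s ih =>
    rcases List.eq_nil_or_concat l with h | ⟨l', b, h⟩
    · have : {a | pre (G a) (s + 1) = l} = ∅ := by
        ext a; simp [pre_succ, h]
      rw [this]; exact @MeasurableSet.empty _ m
    · have : {a | pre (G a) (s + 1) = l} = {a | pre (G a) s = l'} ∩ {a | G a s = b} := by
        ext a
        simp only [pre_succ, h, Set.mem_ofPred_eq, Set.mem_inter_iff, List.concat_eq_append]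
        constructor
        · intro h'
          have := List.append_inj' h' rfl
          simpa using this
        · rintro ⟨h1, h2⟩
          rw [h1, h2]
      rw [this]
      exact @MeasurableSet.inter _ m _ _ (ih l') (m1_compl hG s b)

theorem m1_W {F G : (ℕ → ℕ) → X} (hF : MMap m F) (hG : MMap m G) (c k s : ℕ) :
    @MeasurableSet _ m {a | W (G a) c k s = some (F a k)} := by
  have : {a | W (G a) c k s = some (F a k)} =
      ⋃ l : List Bool, ⋃ b : Bool, {a | pre (G a) s = l ∧ F a k = b ∧
        W (fun n => l.getD n false) c k s = some b} := by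
    ext a
    simp only [Set.mem_iUnion, Set.mem_ofPred_eq]
    have hloc : ∀ l, pre (G a) s = l → W (fun n => l.getD n false) c k s = W (G a) c k s := by
      intro l hl
      refine W_local (fun i hi => ?_) c k
      rw [← hl, pre_getD _ hi]
    constructor
    · intro h
      exact ⟨pre (G a) s, F a k, rfl, rfl, by rw [hloc _ rfl, h]⟩
    · rintro ⟨l, b, h1, h2, h3⟩
      rw [hloc l h1] at h3
      rw [h3, h2]
  rw [this]
  refine @MeasurableSet.iUnion _ _ m _ _ fun l => @MeasurableSet.iUnion _ _ m _ _ fun b => ?_
  by_cases h : W (fun n => l.getD n false) c k s = some b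
  · have : {a | pre (G a) s = l ∧ F a k = b ∧ W (fun n => l.getD n false) c k s = some b} =
        {a | pre (G a) s = l} ∩ {a | F a k = b} := by
      ext a
      exact ⟨fun h' => ⟨h'.1, h'.2.1⟩, fun h' => ⟨h'.1, h'.2, h⟩⟩
    rw [this]
    exact @MeasurableSet.inter _ m _ _ (m1_pre hG s l) (m1_compl hF k b)
  · have : {a | pre (G a) s = l ∧ F a k = b ∧ W (fun n => l.getD n false) c k s = some b} =
        ∅ := by
      ext a
      exact ⟨fun h' => (h h'.2.2).elim, fun h' => h'.elim⟩
    rw [this]; exact @MeasurableSet.empty _ m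

theorem meas_red {F G : (ℕ → ℕ) → X} (hF : MMap m F) (hG : MMap m G) :
    @MeasurableSet _ m {a | Red (F a) (G a)} := by
  have : {a | Red (F a) (G a)} = ⋃ c, ⋂ k, ⋃ s, {a | W (G a) c k s = some (F a k)} := by
    ext a
    simp only [Set.mem_ofPred_eq, Set.mem_iUnion, Set.mem_iInter]
    exact W_iff
  rw [this]
  exact @MeasurableSet.iUnion _ _ m _ _ fun c => @MeasurableSet.iInter _ _ m _ _ fun k =>
    @MeasurableSet.iUnion _ _ m _ _ fun s => m1_W hF hG c k s

theorem m1_eqn {F G : (ℕ → ℕ) → X} (hF : MMap m F) (hG : MMap m G) (n : ℕ) :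
    @MeasurableSet _ m {a | F a n = G a n} := by
  have : {a | F a n = G a n} = ⋃ b : Bool, {a | F a n = b} ∩ {a | G a n = b} := by
    ext a
    simp only [Set.mem_ofPred_eq, Set.mem_iUnion, Set.mem_inter_iff]
    constructor
    · intro h; exact ⟨F a n, rfl, h.symm⟩
    · rintro ⟨b, h1, h2⟩; rw [h1, h2]
  rw [this]
  exact @MeasurableSet.iUnion _ _ m _ _ fun b =>
    @MeasurableSet.inter _ m _ _ (m1_compl hF n b) (m1_compl hG n b)

theorem meas_eq {F G : (ℕ → ℕ) → X} (hF : MMap m F) (hG : MMap m G) :
    @MeasurableSet _ m {a | F a = G a} := by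
  have : {a | F a = G a} = ⋂ n, {a | F a n = G a n} := by
    ext a
    simp only [Set.mem_ofPred_eq, Set.mem_iInter]
    exact funext_iff
  rw [this]
  exact @MeasurableSet.iInter _ _ m _ _ fun n => m1_eqn hF hG n

theorem mmap_join {F G : (ℕ → ℕ) → X} (hF : MMap m F) (hG : MMap m G) :
    MMap m (fun a => join (F a) (G a)) := by
  intro n
  by_cases h : n % 2 = 0
  · have : {a | join (F a) (G a) n = true} = {a | F a (n / 2) = true} := by
      ext a; simp [join, h]
    rw [this]; exact hF _
  · have : {a | join (F a) (G a) n = true} = {a | G a (n / 2) = true} := by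
      ext a; simp only [join, h, if_false, Set.mem_ofPred_eq]
    rw [this]; exact hG _

theorem continuous_bits : Continuous bits :=
  continuous_of_local fun n => ⟨n + 1, fun a b h => by
    simp only [bits]; rw [h n (Nat.lt_succ_self n)]⟩

theorem meas_join_const (hm : Determinacy m) {f : X → X} (hf : Meas m f) (z : X) :
    Meas m (fun b => f (join z b)) := by
  refine mmap_comp hm hf (F := fun a => join z (bits a)) ?_
  refine continuous_of_local fun n => ⟨n + 1, fun a b h => ?_⟩
  simp only [join, bits]
  split
  · rfl
  · rw [h (n / 2) (by omega)]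

theorem meas_join {f g : X → X} (hf : Meas m f) (hg : Meas m g) :
    Meas m (fun x => join (f x) (g x)) :=
  mmap_join hf hg

theorem mmap_const (x : X) : MMap m (fun _ => x) := by
  intro n
  by_cases h : x n = true
  · have : {a : ℕ → ℕ | x n = true} = Set.univ := by ext a; simp [h]
    rw [this]; exact @MeasurableSet.univ _ m
  · have : {a : ℕ → ℕ | x n = true} = ∅ := by ext a; simp [h]
    rw [this]; exact @MeasurableSet.empty _ m

end MC92
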