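import Pool.Agent.LibMC92.D1
import Pool.Agent.LibMC92.D2
import Pool.Agent.LibMC92.M1

/-!
D3: measure preserving functions are increasing on a cone.
-/

namespace MC92

variable {m : MeasurableSpace (ℕ → ℕ)}

theorem measure_preserving (hm : Determinacy m) {G : X → X} (hGm : Meas m G)
    (h : ∀ z, Cone (fun y => Red z (G y))) : Cone (fun y => Red y (G y)) := by
  have hA : @MeasurableSet _ m {a | Red (cc a) (yy a) ∧ ¬ Red (xx a) (G (yy a))} :=
    @MeasurableSet.inter _ m _ _
      (meas_red (mmap_of_continuous hm continuous_cc) (mmap_of_continuous hm continuous_yy))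
      (@MeasurableSet.compl _ _ m
        (meas_red (F := xx) (G := fun a => G (yy a)) (mmap_of_continuous hm continuous_xx)
          (mmap_comp hm hGm continuous_yy)))
  rcases hm.determined _ hA with ⟨s, hs⟩ | ⟨t, ht⟩
  · exfalso
    obtain ⟨x, hx⟩ := baireD s
    obtain ⟨c, hc⟩ := h x
    obtain ⟨b, hb1, hb2⟩ := hx c
    obtain ⟨h1, h2⟩ := hs b
    rw [hb2] at h1
    rw [hb1] at h2
    exact h2 (hc _ h1)
  · obtain ⟨d, hd⟩ := exists_code t
    refine cone_mono (cone_and (cone_above d) (h d)) ?_
    rintro y ⟨hy1, hy2⟩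
    have ha : ComputableIn {chi y} (play2 t (fun n => (y n).toNat)) :=
      comp_play2 (comp_mono hy1 hd) (comp_nat (comp_self y))
    have hyy : yy (play2 t (fun n => (y n).toNat)) = y := by
      funext n
      simp only [yy, play2_even]
      cases y n <;> rfl
    have hcc : Red (cc (play2 t (fun n => (y n).toNat))) y := red_iff.2 (comp_cc ha)
    have hnot := ht (fun n => (y n).toNat)
    have hxx : Red (xx (play2 t (fun n => (y n).toNat))) (G y) := by
      by_contra hcon
      refine hnot ⟨?_, ?_⟩
      · rw [hyy]; exact hcc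
      · rw [hyy]; exact hcon
    exact red_iff.2 (decodeD (comp_mono hy2 hd) (red_iff.1 hxx))

end MC92
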