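import Pool.Agent.LibMC92.DefsW

/-!
Utilities on prefixes, limits of lists, continuity.
-/

namespace MC92

@[simp] theorem pre_length (x : X) (n : ℕ) : (pre x n).length = n := by simp [pre]

theorem pre_zero (x : X) : pre x 0 = [] := rfl

theorem pre_succ (x : X) (n : ℕ) : pre x (n + 1) = pre x n ++ [x n] := by
  simp [pre, List.range_succ]

theorem pre_getElem? (x : X) {n i : ℕ} (h : i < n) : (pre x n)[i]? = some (x i) := by
  simp [pre, h]

theorem pre_getD (x : X) {n i : ℕ} (h : i < n) (b : Bool) : (pre x n).getD i b = x i := by
  simp [pre, h]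

theorem pre_eq_iff {x y : X} {n : ℕ} : pre x n = pre y n ↔ ∀ i < n, x i = y i := by
  constructor
  · intro h i hi
    rw [← pre_getD x hi false, ← pre_getD y hi false, h]
  · intro h
    refine List.map_congr_left fun i hi => h i (List.mem_range.1 hi)

theorem pre_take (x : X) {m n : ℕ} (h : m ≤ n) : (pre x n).take m = pre x m := by
  induction n with
  | zero => obtain rfl : m = 0 := by omega
            rfl
  | succ n ih =>
    rcases Nat.lt_or_ge n m with h' | h'
    · obtain rfl : m = n + 1 := by omega
      rw [List.take_of_length_le (by simp)]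
    · rw [pre_succ, List.take_append_of_le_length (by simpa using h'), ih h']

/-- `l` is a prefix of `pre x n` for `n` the length of `l`. -/
theorem pre_eq_of_getD {x : X} {l : List Bool} (h : ∀ i < l.length, x i = l.getD i false) :
    pre x l.length = l := by
  refine List.ext_getElem? fun i => ?_
  rcases Nat.lt_or_ge i l.length with hi | hi
  · rw [pre_getElem? x hi, h i hi, List.getD_eq_getElem?_getD]
    simp [List.getElem?_eq_getElem hi]
  · rw [List.getElem?_eq_none (by simpa using hi), List.getElem?_eq_none hi]

theorem pre_append_iff {x : X} {l l' : List Bool} :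
    pre x (l ++ l').length = l ++ l' ↔
      pre x l.length = l ∧ ∀ i < l'.length, x (l.length + i) = l'.getD i false := by
  constructor
  · intro h
    constructor
    · have := congrArg (List.take l.length) h
      rwa [pre_take x (by simp), List.take_left'] at this
      rfl
    · intro i hi
      rw [← pre_getD x (n := (l ++ l').length) (by simp; omega) false, h]
      simp [List.getElem?_append_right]
  · rintro ⟨h1, h2⟩
    refine pre_eq_of_getD fun i hi => ?_
    rcases Nat.lt_or_ge i l.length with h | h
    · rw [← pre_getD x h false, h1]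
      simp [List.getElem?_append_left h]
    · obtain ⟨j, rfl⟩ := Nat.exists_eq_add_of_le h
      rw [h2 j (by simpa using hi)]
      simp [List.getElem?_append_right]

theorem pre_append_singleton {x : X} {l : List Bool} {b : Bool} :
    pre x (l ++ [b]).length = l ++ [b] ↔ pre x l.length = l ∧ x l.length = b := by
  rw [pre_append_iff]
  simp

/-- The limit of an increasing sequence of lists. -/
def lim (T : ℕ → List Bool) : X := fun n => (T (n + 1)).getD n false

theorem prefix_le {T : ℕ → List Bool} (h1 : ∀ k, T k <+: T (k + 1)) {j k : ℕ} (h : j ≤ k) :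
    T j <+: T k := by
  induction k with
  | zero => obtain rfl : j = 0 := by omega
            exact List.prefix_rfl
  | succ k ih =>
    rcases Nat.lt_or_ge k j with h' | h'
    · obtain rfl : j = k + 1 := by omega
      exact List.prefix_rfl
    · exact (ih h').trans (h1 k)

theorem getD_prefix {l l' : List Bool} (h : l <+: l') {n : ℕ} (hn : n < l.length) :
    l.getD n false = l'.getD n false := by
  obtain ⟨s, rfl⟩ := h
  simp [List.getElem?_append_left hn]

theorem lim_get {T : ℕ → List Bool} (h1 : ∀ k, T k <+: T (k + 1)) (h2 : ∀ k, k ≤ (T k).length)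
    {k n : ℕ} (hn : n < (T k).length) : lim T n = (T k).getD n false := by
  unfold lim
  rcases Nat.le_total k (n + 1) with h | h
  · exact (getD_prefix (prefix_le h1 h) hn).symm
  · exact getD_prefix (prefix_le h1 h) (h2 (n + 1))

theorem lim_spec {T : ℕ → List Bool} (h1 : ∀ k, T k <+: T (k + 1))
    (h2 : ∀ k, k ≤ (T k).length) (k : ℕ) : pre (lim T) (T k).length = T k :=
  pre_eq_of_getD fun _ hi => lim_get h1 h2 hi

/-- A real with all the `T k` as prefixes is the limit. -/
theorem lim_unique {T : ℕ → List Bool} (h2 : ∀ k, k ≤ (T k).length) {x : X}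
    (hx : ∀ k, pre x (T k).length = T k) : x = lim T := by
  funext n
  unfold lim
  rw [← pre_getD x (h2 (n + 1)) false, hx (n + 1)]

/-- Continuity of a map into Cantor space each of whose values depends on finitely many
coordinates. -/
theorem continuous_of_local {Y : Type*} [TopologicalSpace Y] [DiscreteTopology Y]
    {F : (ℕ → Y) → X}
    (h : ∀ n, ∃ N, ∀ a b : ℕ → Y, (∀ i < N, a i = b i) → F a n = F b n) : Continuous F := by
  refine continuous_pi fun n => ?_
  obtain ⟨N, hN⟩ := h n
  rw [continuous_discrete_rng]
  intro b
  rw [isOpen_iff_mem_nhds]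
  intro a ha
  have : {c : ℕ → Y | ∀ i < N, c i = a i} ∈ nhds a := by
    have : {c : ℕ → Y | ∀ i < N, c i = a i} = (Set.Iio N).pi fun i => {a i} := by
      ext c; simp [Set.mem_pi]
    rw [this]
    exact (set_pi_mem_nhds_iff (Set.finite_Iio N) _).2 fun i _ => by simp
  filter_upwards [this] with c hc
  simp only [Set.mem_preimage, Set.mem_singleton_iff] at ha ⊢
  rw [← ha]
  exact hN c a hc

/-- a continuous map on Cantor space has each value determined by finitely many bits, locally. -/
theorem local_of_continuous {F : X → X} (hF : Continuous F) (h : X) (n : ℕ) :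
    ∃ N, ∀ h' : X, pre h' N = pre h N → F h' n = F h n := by
  have h1 : Continuous fun x => F x n := (continuous_apply n).comp hF
  have h2 : (fun x => F x n) ⁻¹' {F h n} ∈ nhds h :=
    h1.continuousAt.preimage_mem_nhds (by simp)
  rw [nhds_pi, Filter.mem_pi] at h2
  obtain ⟨I, hI, t, ht, hsub⟩ := h2
  obtain ⟨N, hN⟩ := hI.bddAbove
  refine ⟨N + 1, fun h' hh => ?_⟩
  have : h' ∈ I.pi t := by
    intro i hi
    have hiN := hN hi
    rw [pre_eq_iff.1 hh i (by omega)]
    exact mem_of_mem_nhds (ht i)
  exact hsub this

end MC92
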