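import Pool.Agent.LibMC92.Basic
import Pool.Agent.LibMC92.Util

/-!
Definitions for the splitting scheme, the coding and the games.
-/

open Encodable

namespace MC92

/-- `E` is a perfect tree of reals indexed by `X`: the values of `E h` below the position
`P (h 0, ..., h (n-1))` are determined by `h 0, ..., h (n-1)`, and the value at this position
depends on `h n`. -/
structure Split (E : X → X) (P : List Bool → ℕ) : Prop where
  ne : ∀ h h' n, pre h n = pre h' n → h n ≠ h' n → E h (P (pre h n)) ≠ E h' (P (pre h n))
  agree : ∀ h h' n, pre h n = pre h' n → ∀ i < P (pre h n), E h i = E h' i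

/-- The real `ρ 0 0 0 ...`. -/
def ext0 (ρ : List Bool) : X := fun n => ρ.getD n false

/-- The partial function number `c` of the family `V` agrees with `y` below `k` and disagrees
with `y` at `k`. -/
def Hit (V : ℕ → ℕ → Option Bool) (c : ℕ) (y : X) (k : ℕ) : Prop :=
  (∀ j < k, V c j = some (y j)) ∧ V c k = some (! y k)

/-- What the decoder can see: `p` is the only hit of an index `≤ N` at a position `≥ L`. -/
def Step (V : ℕ → ℕ → Option Bool) (N L : ℕ) (y : X) (p : ℕ) : Prop :=
  L ≤ p ∧ (∃ c ≤ N, Hit V c y p) ∧ ∀ c ≤ N, ∀ k, L ≤ k → Hit V c y k → k = p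

/-- The real `z` is coded in the order of the departures of the two pairs `y0 y1` and `y2 y3`. -/
def Coded (V : ℕ → ℕ → Option Bool) (y0 y1 y2 y3 z : X) : Prop :=
  ∃ N L p q : ℕ → ℕ, ∀ t,
    Step V (N t) (L t) (if t % 2 = 0 then y0 else y2) (p t) ∧
    Step V (N t) (L t) (if t % 2 = 0 then y1 else y3) (q t) ∧
    N (t + 1) = min (p t) (q t) ∧ L (t + 1) = max (p t) (q t) ∧
    z t = decide (p t < q t)

/-- The limit of the computations `W w c k s`. -/
noncomputable def Vlim (w : X) (c k : ℕ) : Option Bool :=
  open Classical in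
  if ∃ s, W w c k s = some true then some true
  else if ∃ s, W w c k s = some false then some false
  else none

/-- The move of a player who plays finite strings with a bit. -/
def seg (n : ℕ) : List Bool × Bool := ((decode n : Option (List Bool × Bool))).getD ([], false)

/-! Game D: the first player plays the bits of `yy a`, the second player finite strings `v_i` and
bits of `cc a`; the real `xx a` is `y_0 v_0 y_1 v_1 ...`. -/

def yy (a : ℕ → ℕ) : X := fun i => a (2 * i) != 0

def cc (a : ℕ → ℕ) : X := fun i => (seg (a (2 * i + 1))).2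

def xL (a : ℕ → ℕ) (k : ℕ) : List Bool :=
  (List.range k).flatMap fun i => (a (2 * i) != 0) :: (seg (a (2 * i + 1))).1

def xx (a : ℕ → ℕ) : X := lim (xL a)

/-! Game Q (perfect set game): the first player plays finite strings and the bits of a witness
`zz a`, the second player bits; the real `oo a` is the concatenation. -/

def zz (a : ℕ → ℕ) : X := fun i => (seg (a (2 * i))).2

def oL (a : ℕ → ℕ) (k : ℕ) : List Bool :=
  (List.range k).flatMap fun i => (seg (a (2 * i))).1 ++ [a (2 * i + 1) != 0]

def oo (a : ℕ → ℕ) : X := lim (oL a)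

theorem xL_succ (a : ℕ → ℕ) (k : ℕ) :
    xL a (k + 1) = xL a k ++ ((a (2 * k) != 0) :: (seg (a (2 * k + 1))).1) := by
  simp [xL, List.range_succ]

theorem oL_succ (a : ℕ → ℕ) (k : ℕ) :
    oL a (k + 1) = oL a k ++ ((seg (a (2 * k))).1 ++ [a (2 * k + 1) != 0]) := by
  simp [oL, List.range_succ]

theorem xL_prefix (a : ℕ → ℕ) (k : ℕ) : xL a k <+: xL a (k + 1) :=
  ⟨_, (xL_succ a k).symm⟩

theorem oL_prefix (a : ℕ → ℕ) (k : ℕ) : oL a k <+: oL a (k + 1) :=
  ⟨_, (oL_succ a k).symm⟩

theorem xL_length (a : ℕ → ℕ) (k : ℕ) : k ≤ (xL a k).length := by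
  induction k with
  | zero => simp
  | succ k ih => rw [xL_succ]; simp only [List.length_append, List.length_cons]; omega

theorem oL_length (a : ℕ → ℕ) (k : ℕ) : k ≤ (oL a k).length := by
  induction k with
  | zero => simp
  | succ k ih => rw [oL_succ]; simp only [List.length_append, List.length_cons]; omega

theorem xx_pre (a : ℕ → ℕ) (k : ℕ) : pre (xx a) (xL a k).length = xL a k :=
  lim_spec (xL_prefix a) (xL_length a) k

theorem oo_pre (a : ℕ → ℕ) (k : ℕ) : pre (oo a) (oL a k).length = oL a k :=
  lim_spec (oL_prefix a) (oL_length a) k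

theorem seg_encode (v : List Bool × Bool) : seg (encode v) = v := by
  simp [seg, encodek]

theorem continuous_yy : Continuous yy :=
  continuous_of_local fun n => ⟨2 * n + 1, fun a b h => by
    simp only [yy]; rw [h (2 * n) (by omega)]⟩

theorem continuous_cc : Continuous cc :=
  continuous_of_local fun n => ⟨2 * n + 2, fun a b h => by
    simp only [cc]; rw [h (2 * n + 1) (by omega)]⟩

theorem continuous_zz : Continuous zz :=
  continuous_of_local fun n => ⟨2 * n + 1, fun a b h => by
    simp only [zz]; rw [h (2 * n) (by omega)]⟩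

theorem xL_local {a b : ℕ → ℕ} {k : ℕ} (h : ∀ i < 2 * k, a i = b i) : xL a k = xL b k := by
  induction k with
  | zero => rfl
  | succ k ih =>
    rw [xL_succ, xL_succ, ih fun i hi => h i (by omega), h (2 * k) (by omega),
      h (2 * k + 1) (by omega)]

theorem oL_local {a b : ℕ → ℕ} {k : ℕ} (h : ∀ i < 2 * k, a i = b i) : oL a k = oL b k := by
  induction k with
  | zero => rfl
  | succ k ih =>
    rw [oL_succ, oL_succ, ih fun i hi => h i (by omega), h (2 * k) (by omega),
      h (2 * k + 1) (by omega)]

theorem continuous_xx : Continuous xx :=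
  continuous_of_local fun n => ⟨2 * (n + 1), fun a b h => by
    simp only [xx, lim]; rw [xL_local h]⟩

theorem continuous_oo : Continuous oo :=
  continuous_of_local fun n => ⟨2 * (n + 1), fun a b h => by
    simp only [oo, lim]; rw [oL_local h]⟩

end MC92
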