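import Pool.Agent.LibMC92.T3
import Pool.Agent.LibMC92.SplitDefs

/-!
G3: the decoder.
-/

namespace MC92

theorem Vlim_iff {w : X} {c k : ℕ} {b : Bool} :
    Vlim w c k = some b ↔ ∃ s, W w c k s = some b := by
  have huniq : ∀ {b b' : Bool} {s s' : ℕ}, W w c k s = some b → W w c k s' = some b' → b = b' := by
    intro b b' s s' h h'
    have h1 := W_mono h (le_max_left s s')
    rw [W_mono h' (le_max_right s s')] at h1
    exact (Option.some_injective _ h1).symm
  unfold Vlim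
  split_ifs with h1 h2
  · constructor
    · intro h
      rw [← h]
      exact h1
    · rintro ⟨s, hs⟩
      obtain ⟨s', hs'⟩ := h1
      rw [huniq hs' hs]
  · constructor
    · intro h
      rw [← h]
      exact h2
    · rintro ⟨s, hs⟩
      obtain ⟨s', hs'⟩ := h2
      rw [huniq hs' hs]
  · constructor
    · intro h
      cases h
    · rintro ⟨s, hs⟩
      cases b
      · exact absurd ⟨s, hs⟩ h2
      · exact absurd ⟨s, hs⟩ h1

/-- equality of lists as a Boolean function. -/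
def g3_eq (a b : List (Option Bool)) : Bool := decide (a = b)

theorem g3_eq_prim : Primrec₂ g3_eq := (Primrec.eq (α := List (Option Bool))).decide

/-- equality as a Boolean function. -/
def g3_eqo (a b : Option Bool) : Bool := decide (a = b)

theorem g3_eqo_prim : Primrec₂ g3_eqo := (Primrec.eq (α := Option Bool)).decide

theorem g3_c : Primrec fun p : (ℕ × ℕ × ℕ) × ℕ => p.2.unpair.1 :=
  Primrec.fst.comp (Primrec.unpair.comp Primrec.snd)

theorem g3_k : Primrec fun p : (ℕ × ℕ × ℕ) × ℕ => p.2.unpair.2.unpair.1 :=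
  Primrec.fst.comp (Primrec.unpair.comp (Primrec.snd.comp (Primrec.unpair.comp Primrec.snd)))

theorem g3_s : Primrec fun p : (ℕ × ℕ × ℕ) × ℕ => p.2.unpair.2.unpair.2 :=
  Primrec.snd.comp (Primrec.unpair.comp (Primrec.snd.comp (Primrec.unpair.comp Primrec.snd)))

/-- the test of the decoder: `n` codes an index `c`, a position `k` and a bound `s`. -/
def g3_test (w : X) (Y : ℕ → X) (a : ℕ × ℕ × ℕ) (n : ℕ) : Bool :=
  (decide (n.unpair.1 ≤ a.2.1) && decide (a.2.2 ≤ n.unpair.2.unpair.1)) &&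
    (g3_eq ((List.range n.unpair.2.unpair.1).map
        (fun j => W w n.unpair.1 j n.unpair.2.unpair.2))
      ((List.range n.unpair.2.unpair.1).map (fun j => some (Y a.1 j))) &&
      g3_eqo (W w n.unpair.1 n.unpair.2.unpair.1 n.unpair.2.unpair.2)
        (some (! Y a.1 n.unpair.2.unpair.1)))

theorem g3_test_comp {O : Set (ℕ →. ℕ)} {w : X} (hw : ComputableIn O w) {Y : ℕ → X}
    (hY : ComputableIn₂ O Y) : ComputableIn₂ O (g3_test w Y) := by
  have hN : Primrec fun p : (ℕ × ℕ × ℕ) × ℕ => p.1.2.1 :=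
    Primrec.fst.comp (Primrec.snd.comp Primrec.fst)
  have hL : Primrec fun p : (ℕ × ℕ × ℕ) × ℕ => p.1.2.2 :=
    Primrec.snd.comp (Primrec.snd.comp Primrec.fst)
  have ht : Primrec fun p : (ℕ × ℕ × ℕ) × ℕ => p.1.1 := Primrec.fst.comp Primrec.fst
  have e1 : ComputableIn O fun p : (ℕ × ℕ × ℕ) × ℕ =>
      (decide (p.2.unpair.1 ≤ p.1.2.1) && decide (p.1.2.2 ≤ p.2.unpair.2.unpair.1)) :=
    (Primrec.and.comp (Primrec.nat_le.decide.comp g3_c hN)
      (Primrec.nat_le.decide.comp hL g3_k)).computableIn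
  have l1 : ComputableIn O fun p : (ℕ × ℕ × ℕ) × ℕ =>
      (List.range p.2.unpair.2.unpair.1).map
        (fun j => W w p.2.unpair.1 j p.2.unpair.2.unpair.2) := by
    refine ComputableIn.list_range_map
      (f := fun (p : (ℕ × ℕ × ℕ) × ℕ) j => W w p.2.unpair.1 j p.2.unpair.2.unpair.2)
      ?_ g3_k.computableIn
    have hg : ComputableIn O fun r : ((ℕ × ℕ × ℕ) × ℕ) × ℕ =>
        (r.1.2.unpair.1, r.2, r.1.2.unpair.2.unpair.2) :=
      ((g3_c.comp Primrec.fst).pair (Primrec.snd.pair (g3_s.comp Primrec.fst))).computableIn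
    exact ComputableIn.comp (f := fun r : ℕ × ℕ × ℕ => W w r.1 r.2.1 r.2.2)
      (g := fun r : ((ℕ × ℕ × ℕ) × ℕ) × ℕ =>
        (r.1.2.unpair.1, r.2, r.1.2.unpair.2.unpair.2)) (W_comp hw) hg
  have l2 : ComputableIn O fun p : (ℕ × ℕ × ℕ) × ℕ =>
      (List.range p.2.unpair.2.unpair.1).map (fun j => some (Y p.1.1 j)) := by
    refine ComputableIn.list_range_map
      (f := fun (p : (ℕ × ℕ × ℕ) × ℕ) j => some (Y p.1.1 j)) ?_ g3_k.computableIn
    exact ComputableIn.option_some_iff.2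
      (ComputableIn₂.comp hY (ht.comp Primrec.fst).computableIn ComputableIn.snd)
  have e3 : ComputableIn O fun p : (ℕ × ℕ × ℕ) × ℕ =>
      g3_eq ((List.range p.2.unpair.2.unpair.1).map
        (fun j => W w p.2.unpair.1 j p.2.unpair.2.unpair.2))
      ((List.range p.2.unpair.2.unpair.1).map (fun j => some (Y p.1.1 j))) :=
    ComputableIn₂.comp g3_eq_prim.computableIn₂ l1 l2
  have e4 : ComputableIn O fun p : (ℕ × ℕ × ℕ) × ℕ =>
      g3_eqo (W w p.2.unpair.1 p.2.unpair.2.unpair.1 p.2.unpair.2.unpair.2)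
        (some (! Y p.1.1 p.2.unpair.2.unpair.1)) := by
    have hg : ComputableIn O fun r : (ℕ × ℕ × ℕ) × ℕ =>
        (r.2.unpair.1, r.2.unpair.2.unpair.1, r.2.unpair.2.unpair.2) :=
      (g3_c.pair (g3_k.pair g3_s)).computableIn
    have h1 := ComputableIn.comp (f := fun r : ℕ × ℕ × ℕ => W w r.1 r.2.1 r.2.2)
      (g := fun r : (ℕ × ℕ × ℕ) × ℕ =>
        (r.2.unpair.1, r.2.unpair.2.unpair.1, r.2.unpair.2.unpair.2)) (W_comp hw) hg
    have h2 : ComputableIn O fun p : (ℕ × ℕ × ℕ) × ℕ =>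
        some (! Y p.1.1 p.2.unpair.2.unpair.1) :=
      ComputableIn.option_some_iff.2 ((Primrec.not.computableIn (O := O)).comp
        (ComputableIn₂.comp hY ht.computableIn g3_k.computableIn))
    exact ComputableIn₂.comp g3_eqo_prim.computableIn₂ h1 h2
  have e34 : ComputableIn O fun p : (ℕ × ℕ × ℕ) × ℕ =>
      (g3_eq ((List.range p.2.unpair.2.unpair.1).map
        (fun j => W w p.2.unpair.1 j p.2.unpair.2.unpair.2))
      ((List.range p.2.unpair.2.unpair.1).map (fun j => some (Y p.1.1 j))) &&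
      g3_eqo (W w p.2.unpair.1 p.2.unpair.2.unpair.1 p.2.unpair.2.unpair.2)
        (some (! Y p.1.1 p.2.unpair.2.unpair.1))) :=
    ComputableIn₂.comp Primrec.and.computableIn₂ e3 e4
  have e5 := ComputableIn₂.comp Primrec.and.computableIn₂ e1 e34
  refine ComputableIn.of_eq e5 fun p => ?_
  rfl

theorem g3_test_iff (w : X) (Y : ℕ → X) (a : ℕ × ℕ × ℕ) (c k s : ℕ) :
    g3_test w Y a (Nat.pair c (Nat.pair k s)) = true ↔
      c ≤ a.2.1 ∧ a.2.2 ≤ k ∧ (∀ j < k, W w c j s = some (Y a.1 j)) ∧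
        W w c k s = some (! Y a.1 k) := by
  unfold g3_test g3_eq g3_eqo
  simp only [Nat.unpair_pair, Bool.and_eq_true, decide_eq_true_eq, List.map_inj_left,
    List.mem_range, and_assoc]

theorem g3_exists {w : X} {c k : ℕ} {y : X} (h : Hit (Vlim w) c y k) :
    ∃ s, (∀ j < k, W w c j s = some (y j)) ∧ W w c k s = some (! y k) := by
  have h1 : ∀ j, ∃ s, j < k → W w c j s = some (y j) := by
    intro j
    by_cases hj : j < k
    · obtain ⟨s, hs⟩ := Vlim_iff.1 (h.1 j hj)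
      exact ⟨s, fun _ => hs⟩
    · exact ⟨0, fun h => absurd h hj⟩
  choose S hS using h1
  obtain ⟨s0, hs0⟩ := Vlim_iff.1 h.2
  refine ⟨max s0 ((Finset.range k).sup S), fun j hj => ?_, W_mono hs0 (le_max_left _ _)⟩
  exact W_mono (hS j hj) ((Finset.le_sup (f := S) (Finset.mem_range.2 hj)).trans
    (le_max_right _ _))

/-- the search. -/
def g3_srch (w : X) (Y : ℕ → X) : (ℕ × ℕ × ℕ) →. ℕ := fun a =>
  (Nat.rfind (fun n => Part.some (g3_test w Y a n))).map fun n => n.unpair.2.unpair.1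

theorem g3_srch_rec {O : Set (ℕ →. ℕ)} {w : X} (hw : ComputableIn O w) {Y : ℕ → X}
    (hY : ComputableIn₂ O Y) : RecursiveIn O (g3_srch w Y) := by
  have h1 : RecursiveIn₂ O (fun (a : ℕ × ℕ × ℕ) (n : ℕ) => Part.some (g3_test w Y a n)) :=
    (g3_test_comp hw hY).recursiveIn₂
  refine RecursiveIn.map (g := fun (_ : ℕ × ℕ × ℕ) (n : ℕ) => n.unpair.2.unpair.1)
    (RecursiveIn.rfind h1) ?_
  exact (Primrec.fst.comp (Primrec.unpair.comp (Primrec.snd.comp
    (Primrec.unpair.comp Primrec.snd)))).computableIn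

theorem g3_srch_eq {w : X} {Y : ℕ → X} {t N L p : ℕ} (h : Step (Vlim w) N L (Y t) p) :
    g3_srch w Y (t, N, L) = Part.some p := by
  obtain ⟨hLp, ⟨c, hc, hhit⟩, huniq⟩ := h
  obtain ⟨s, hs1, hs2⟩ := g3_exists hhit
  have hn : g3_test w Y (t, N, L) (Nat.pair c (Nat.pair p s)) = true :=
    (g3_test_iff _ _ _ _ _ _).2 ⟨hc, hLp, hs1, hs2⟩
  have hex : ∃ n, g3_test w Y (t, N, L) n = true := ⟨_, hn⟩
  have h1 : Nat.rfind (fun n => Part.some (g3_test w Y (t, N, L) n)) =
      Part.some (Nat.find hex) := by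
    refine Part.eq_some_iff.2 ?_
    rw [Nat.mem_rfind]
    refine ⟨?_, fun {m} hm => ?_⟩
    · simpa using Nat.find_spec hex
    · simpa using Nat.find_min hex hm
  unfold g3_srch
  rw [h1, Part.map_some]
  congr 1
  have h2 := Nat.find_spec hex
  set n := Nat.find hex with hn'
  have h3 : n = Nat.pair n.unpair.1 (Nat.pair n.unpair.2.unpair.1 n.unpair.2.unpair.2) := by
    rw [Nat.pair_unpair, Nat.pair_unpair]
  rw [h3, g3_test_iff] at h2
  refine huniq n.unpair.1 h2.1 n.unpair.2.unpair.1 h2.2.1 ⟨fun j hj => ?_, ?_⟩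
  · exact Vlim_iff.2 ⟨_, h2.2.2.1 j hj⟩
  · exact Vlim_iff.2 ⟨_, h2.2.2.2⟩

theorem decoder {w y0 y1 y2 y3 z : X} (h : Coded (Vlim w) y0 y1 y2 y3 z) :
    Red z (join w (join (join y0 y1) (join y2 y3))) := by
  obtain ⟨N, L, p, q, hstep⟩ := h
  set o : X := join w (join (join y0 y1) (join y2 y3)) with ho
  have hw : ComputableIn {chi o} w := red_iff.1 (red_join_left _ _)
  have h0123 : Red (join (join y0 y1) (join y2 y3)) o := red_join_right _ _
  have h01 : Red (join y0 y1) o := red_trans (red_join_left _ _) h0123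
  have h23 : Red (join y2 y3) o := red_trans (red_join_right _ _) h0123
  have hy0 : ComputableIn {chi o} y0 := red_iff.1 (red_trans (red_join_left _ _) h01)
  have hy1 : ComputableIn {chi o} y1 := red_iff.1 (red_trans (red_join_right _ _) h01)
  have hy2 : ComputableIn {chi o} y2 := red_iff.1 (red_trans (red_join_left _ _) h23)
  have hy3 : ComputableIn {chi o} y3 := red_iff.1 (red_trans (red_join_right _ _) h23)
  have hpar : ∀ {x x' : X}, ComputableIn {chi o} x → ComputableIn {chi o} x' →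
      ComputableIn₂ {chi o} (fun (t : ℕ) => if t % 2 = 0 then x else x') := by
    intro x x' hx hx'
    have hc : ComputableIn {chi o} fun a : ℕ × ℕ => decide (a.1 % 2 = 0) :=
      prim_even.decide.computableIn.comp ComputableIn.fst
    refine (ComputableIn.cond hc (hx.comp ComputableIn.snd) (hx'.comp ComputableIn.snd)).of_eq
      fun a => ?_
    by_cases h : a.1 % 2 = 0 <;> simp [h]
  set Y0 : ℕ → X := fun t => if t % 2 = 0 then y0 else y2 with hY0
  set Y1 : ℕ → X := fun t => if t % 2 = 0 then y1 else y3 with hY1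
  have hS0 := g3_srch_rec hw (hpar hy0 hy2)
  have hS1 := g3_srch_rec hw (hpar hy1 hy3)
  -- the two searches
  obtain ⟨sr, hsr, hsr_eq⟩ : ∃ sr : (ℕ × ℕ × ℕ) →. ℕ × ℕ, RecursiveIn {chi o} sr ∧
      ∀ t, sr (t, N t, L t) = Part.some (p t, q t) := by
    refine ⟨fun a => (g3_srch w Y0 a).bind fun p => (g3_srch w Y1 a).map fun q => (p, q),
      ?_, ?_⟩
    · refine RecursiveIn.bind (f := g3_srch w Y0) (g := fun (a : ℕ × ℕ × ℕ) (p : ℕ) =>
        (g3_srch w Y1 a).map fun q => (p, q)) hS0 ?_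
      refine RecursiveIn.map (f := fun b : (ℕ × ℕ × ℕ) × ℕ => g3_srch w Y1 b.1)
        (g := fun (b : (ℕ × ℕ × ℕ) × ℕ) (q : ℕ) => (b.2, q))
        (RecursiveIn.comp (f := g3_srch w Y1) (g := fun b : (ℕ × ℕ × ℕ) × ℕ => b.1) hS1
          ComputableIn.fst) ?_
      exact ((Primrec.snd.comp Primrec.fst).pair Primrec.snd).computableIn
    · intro t
      show (g3_srch w Y0 (t, N t, L t)).bind
        (fun p => (g3_srch w Y1 (t, N t, L t)).map fun q => (p, q)) = _
      rw [g3_srch_eq (Y := Y0) (hstep t).1, g3_srch_eq (Y := Y1) (hstep t).2.1, Part.bind_some,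
        Part.map_some]
  -- the states
  obtain ⟨nx, hnx, hnx_eq⟩ : ∃ nx : (ℕ × ℕ × ℕ) →. ℕ × ℕ, RecursiveIn {chi o} nx ∧
      ∀ t, nx (t, N t, L t) = Part.some (N (t + 1), L (t + 1)) := by
    refine ⟨fun a => (sr a).map fun pq => (min pq.1 pq.2, max pq.1 pq.2), ?_, fun t => ?_⟩
    · refine RecursiveIn.map (f := sr)
        (g := fun (_ : ℕ × ℕ × ℕ) (pq : ℕ × ℕ) => (min pq.1 pq.2, max pq.1 pq.2)) hsr ?_
      exact ((Primrec.nat_min.comp (Primrec.fst.comp Primrec.snd)
        (Primrec.snd.comp Primrec.snd)).pair (Primrec.nat_max.comp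
        (Primrec.fst.comp Primrec.snd) (Primrec.snd.comp Primrec.snd))).computableIn
    · show (sr (t, N t, L t)).map (fun pq => (min pq.1 pq.2, max pq.1 pq.2)) = _
      rw [hsr_eq, Part.map_some, (hstep t).2.2.1, (hstep t).2.2.2.1]
  obtain ⟨st, hst, hst_eq⟩ : ∃ st : ℕ →. ℕ × ℕ, RecursiveIn {chi o} st ∧
      ∀ t, st t = Part.some (N t, L t) := by
    refine ⟨_, RecursiveIn.nat_rec (f := fun t : ℕ => t)
      (g := fun _ : ℕ => Part.some (N 0, L 0))
      (h := fun (_ : ℕ) (b : ℕ × (ℕ × ℕ)) => nx b) ComputableIn.id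
      (ComputableIn.const (N 0, L 0)) ?_, fun t => ?_⟩
    · exact RecursiveIn.comp (f := nx) (g := fun b : ℕ × (ℕ × (ℕ × ℕ)) => b.2) hnx
        ComputableIn.snd
    · show Nat.rec (motive := fun _ => Part (ℕ × ℕ)) (Part.some (N 0, L 0))
        (fun y IH => IH.bind fun i => nx (y, i)) t = Part.some (N t, L t)
      induction t with
      | zero => rfl
      | succ t ih =>
        show (Nat.rec (motive := fun _ => Part (ℕ × ℕ)) (Part.some (N 0, L 0))
          (fun y IH => IH.bind fun i => nx (y, i)) t : Part (ℕ × ℕ)).bind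
            (fun i => nx (t, i)) = _
        rw [ih, Part.bind_some, hnx_eq]
  rw [red_iff]
  obtain ⟨dc, hdc, hdc_eq⟩ : ∃ dc : (ℕ × ℕ × ℕ) →. Bool, RecursiveIn {chi o} dc ∧
      ∀ t, dc (t, N t, L t) = Part.some (z t) := by
    refine ⟨fun a => (sr a).map fun pq => decide (pq.1 < pq.2), ?_, fun t => ?_⟩
    · refine RecursiveIn.map (f := sr)
        (g := fun (_ : ℕ × ℕ × ℕ) (pq : ℕ × ℕ) => decide (pq.1 < pq.2)) hsr ?_
      exact (Primrec.nat_lt.decide.comp (Primrec.fst.comp Primrec.snd)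
        (Primrec.snd.comp Primrec.snd)).computableIn
    · show (sr (t, N t, L t)).map (fun pq => decide (pq.1 < pq.2)) = _
      rw [hsr_eq, Part.map_some, (hstep t).2.2.2.2]
  have hfin : RecursiveIn {chi o} fun t : ℕ => (st t).bind fun i => dc (t, i) :=
    RecursiveIn.bind (f := st) (g := fun (t : ℕ) (i : ℕ × ℕ) => dc (t, i)) hst hdc
  refine RecursiveIn.of_eq hfin fun t => ?_
  show (st t).bind (fun i => dc (t, i)) = Part.some (z t)
  rw [hst_eq, Part.bind_some, hdc_eq]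

end MC92
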