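import Pool.Agent.LibMC92.Basic
import Pool.Agent.LibMC92.Util

/-!
T3: first properties of the enumeration `W`.
-/

open Encodable

namespace MC92

/-- one step of the search of `W`. -/
def t3_g (w : X) (c k m : ℕ) : Option Bool :=
  (Nat.Partrec.Code.evaln m.unpair.2 (Denumerable.ofNat Nat.Partrec.Code c)
      (Nat.pair (Encodable.encode (pre w m.unpair.1)) k)).bind dec

theorem t3_W_succ (w : X) (c k s : ℕ) : W w c k (s + 1) = (W w c k s).or (t3_g w c k s) := by
  simp only [W, List.range_succ, List.findSome?_append]
  congr 1
  change (List.findSome? (fun m => t3_g w c k m) [s]) = _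
  rw [List.findSome?_cons]
  cases t3_g w c k s <;> rfl

theorem W_mono {w : X} {c k s s' : ℕ} {b : Bool} (h : W w c k s = some b) (hs : s ≤ s') :
    W w c k s' = some b := by
  induction s', hs using Nat.le_induction with
  | base => exact h
  | succ n _ ih => rw [t3_W_succ, ih]; rfl

theorem W_local {w w' : X} {s : ℕ} (h : ∀ i < s, w i = w' i) (c k : ℕ) :
    W w c k s = W w' c k s := by
  induction s with
  | zero => rfl
  | succ n ih =>
    rw [t3_W_succ, t3_W_succ, ih fun i hi => h i (by omega)]
    have : pre w n.unpair.1 = pre w' n.unpair.1 :=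
      pre_eq_iff.2 fun i hi => h i (by have := Nat.unpair_left_le n; omega)
    simp only [t3_g, this]

theorem t3_primrec_dec : Primrec dec := by
  have : Primrec fun n : ℕ => if n = 0 then none else some (decide (n ≠ 1)) :=
    Primrec.ite (Primrec.eq.comp Primrec.id (Primrec.const 0)) (Primrec.const none)
      (Primrec.option_some.comp
        (PrimrecPred.not (Primrec.eq.comp Primrec.id (Primrec.const 1))).decide)
  refine this.of_eq fun n => ?_
  match n with
  | 0 => rfl
  | 1 => rfl
  | n + 2 => simp [dec]

theorem W_comp {O : Set (ℕ →. ℕ)} {w : X} (hw : ComputableIn O w) :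
    ComputableIn O (fun p : ℕ × ℕ × ℕ => W w p.1 p.2.1 p.2.2) := by
  have hg : ComputableIn O (fun p : (ℕ × ℕ × ℕ) × ℕ => t3_g w p.1.1 p.1.2.1 p.2) := by
    unfold t3_g
    refine ComputableIn.option_bind ?_ ?_
    · refine ComputableIn.comp (f := fun a : (ℕ × Nat.Partrec.Code) × ℕ =>
        Nat.Partrec.Code.evaln a.1.1 a.1.2 a.2)
        (g := fun p : (ℕ × ℕ × ℕ) × ℕ => ((p.2.unpair.2,
          Denumerable.ofNat Nat.Partrec.Code p.1.1),
          Nat.pair (Encodable.encode (pre w p.2.unpair.1)) p.1.2.1))
        Nat.Partrec.Code.primrec_evaln.computableIn ?_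
      refine ComputableIn.pair (ComputableIn.pair ?_ ?_) ?_
      · exact (Primrec.snd.comp (Primrec.unpair.comp Primrec.snd)).computableIn
      · exact ((Primrec.ofNat Nat.Partrec.Code).comp
          (Primrec.fst.comp Primrec.fst)).computableIn
      · refine (Primrec₂.natPair.computableIn₂ (O := O)).comp ?_ ?_
        · refine ComputableIn.comp (f := fun l : List Bool => Encodable.encode l)
            Primrec.encode.computableIn ?_
          exact (comp_pre hw).comp
            (Primrec.fst.comp (Primrec.unpair.comp Primrec.snd)).computableIn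
        · exact (Primrec.fst.comp (Primrec.snd.comp Primrec.fst)).computableIn
    · exact (t3_primrec_dec.comp Primrec.snd).computableIn
  have hr := ComputableIn.nat_rec (α := ℕ × ℕ × ℕ) (σ := Option Bool) (O := O)
    (f := fun p => p.2.2) (g := fun _ => none)
    (h := fun p q => q.2.or (t3_g w p.1 p.2.1 q.1))
    (Primrec.snd.comp Primrec.snd).computableIn (ComputableIn.const none) (by
      have hor : Primrec₂ fun (a b : Option Bool) => a.or b := by
        refine (Primrec.option_casesOn (o := fun p : Option Bool × Option Bool => p.1)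
          (f := fun p => p.2) (g := fun _ b => some b) Primrec.fst Primrec.snd
          (Primrec.option_some.comp Primrec.snd).to₂).of_eq fun p => ?_
        rcases p with ⟨a | a, b⟩ <;> rfl
      refine (hor.computableIn₂ (O := O)).comp ?_ ?_
      · exact (Primrec.snd.comp Primrec.snd).computableIn
      · exact ComputableIn.comp (g := fun p : (ℕ × ℕ × ℕ) × (ℕ × Option Bool) => (p.1, p.2.1)) hg
          (Primrec.fst.pair (Primrec.fst.comp Primrec.snd)).computableIn)
  refine hr.of_eq fun p => ?_
  rcases p with ⟨c, k, s⟩
  simp only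
  induction s with
  | zero => rfl
  | succ n ih => rw [t3_W_succ, ← ih]

theorem W_sound {x w : X} {c : ℕ} (h : ∀ k, ∃ s, W w c k s = some (x k)) : Red x w := by
  rw [red_iff]
  refine ComputableIn.findOpt (f := fun k s => W w c k s) ?_ (fun k => ?_) (fun k s b hb => ?_)
  · exact ComputableIn.comp (g := fun p : ℕ × ℕ => (c, p.1, p.2)) (W_comp (comp_self w))
      ((Primrec.const c).pair (Primrec.fst.pair Primrec.snd)).computableIn
  · obtain ⟨s, hs⟩ := h k
    exact ⟨s, by rw [hs]; rfl⟩
  · obtain ⟨s', hs'⟩ := h k
    have h1 := W_mono hb (le_max_left s s')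
    have h2 := W_mono hs' (le_max_right s s')
    rw [h1] at h2
    exact Option.some_injective _ h2

end MC92
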