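import Pool.Agent.LibMC92.T2
import Pool.Agent.LibMC92.T3

/-!
T4: completeness of the enumeration `W`.
-/

open Encodable

namespace MC92

theorem t4_code {F : List Bool × ℕ → Option ℕ} (hF : Computable F) :
    ∃ e : Nat.Partrec.Code, ∀ p k, encode (F (p, k)) ∈ e.eval (Nat.pair (encode p) k) := by
  let G : ℕ → ℕ := fun n =>
    ((decode n.unpair.1 : Option (List Bool)).map fun p => encode (F (p, n.unpair.2))).getD 0
  have hG : Computable G := by
    refine Computable.option_getD ?_ (Computable.const 0)
    refine Computable.option_map ?_ ?_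
    · exact (Primrec.decode.comp (Primrec.fst.comp Primrec.unpair)).to_comp
    · refine Computable.encode.comp (hF.comp (Computable.snd.pair ?_))
      exact (Primrec.snd.comp (Primrec.unpair.comp Primrec.fst)).to_comp
  obtain ⟨e, he⟩ := Nat.Partrec.Code.exists_code.1 (Partrec.nat_iff.1 hG.partrec)
  refine ⟨e, fun p k => ?_⟩
  rw [he]
  simp [G, encodek]

theorem W_complete {x w : X} (h : Red x w) : ∃ c, ∀ k, ∃ s, W w c k s = some (x k) := by
  unfold Red TuringReducible at h
  rw [RecursiveIn.iff_nat] at h
  obtain ⟨F, F1, F2, F3⟩ := use_principle h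
  obtain ⟨e, he⟩ := t4_code F1
  have sound : ∀ (k m : ℕ) (b : Bool), (Nat.Partrec.Code.evaln m.unpair.2
      (Denumerable.ofNat Nat.Partrec.Code (encode e))
      (Nat.pair (encode (pre w m.unpair.1)) k)).bind dec = some b → b = x k := by
    intro k m b hb
    rw [Denumerable.ofNat_encode, Option.bind_eq_some_iff] at hb
    obtain ⟨v, hv, hb⟩ := hb
    have h1 := Part.mem_unique (Nat.Partrec.Code.evaln_sound hv) (he _ _)
    rcases hFv : F (pre w m.unpair.1, k) with _ | v'
    · rw [hFv, encode_none] at h1
      subst h1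
      cases hb
    · rw [hFv, encode_some] at h1
      subst h1
      have h2 := (F3 k v').2 ⟨_, hFv⟩
      simp only [chi, Part.mem_some_iff] at h2
      subst h2
      rcases hx : x k with _ | _
      · rw [hx] at hb
        exact (Option.some_injective _ hb).symm
      · rw [hx] at hb
        exact (Option.some_injective _ hb).symm
  refine ⟨encode e, fun k => ?_⟩
  obtain ⟨s, hs⟩ := (F3 k (x k).toNat).1 (by simp [chi])
  obtain ⟨t, ht⟩ := Nat.Partrec.Code.evaln_complete.1 (he (pre w s) k)
  have hd : ((Nat.Partrec.Code.evaln (Nat.pair s t).unpair.2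
      (Denumerable.ofNat Nat.Partrec.Code (encode e))
      (Nat.pair (encode (pre w (Nat.pair s t).unpair.1)) k)).bind dec).isSome = true := by
    rw [Denumerable.ofNat_encode, Nat.unpair_pair, Option.mem_def.1 ht, hs, encode_some]
    cases x k <;> rfl
  have hsome : (W w (encode e) k (Nat.pair s t + 1)).isSome = true := by
    unfold W
    rw [List.findSome?_isSome_iff]
    exact ⟨Nat.pair s t, List.mem_range.2 (Nat.lt_succ_self _), hd⟩
  obtain ⟨b, hb⟩ := Option.isSome_iff_exists.1 hsome
  refine ⟨_, hb.trans ?_⟩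
  unfold W at hb
  obtain ⟨m, _, hm⟩ := List.exists_of_findSome?_eq_some hb
  rw [sound k m b hm]

theorem W_iff {x w : X} : Red x w ↔ ∃ c, ∀ k, ∃ s, W w c k s = some (x k) :=
  ⟨W_complete, fun ⟨_, h⟩ => W_sound h⟩

end MC92
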