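import Pool.Agent.LibMC92.G2
import Pool.Agent.LibMC92.G3
import Pool.Agent.LibMC92.T4

/-!
G4: the Groszek-Slaman type coding into any perfect tree of reals, assembly.
-/

namespace MC92

theorem gs_coding {E : X → X} {P : List Bool → ℕ} (hS : Split E P) {w : X}
    (hw : ∀ ρ : List Bool, Red (E (ext0 ρ)) w) (z : X) :
    ∃ h0 h1 h2 h3 : X, Red z (join w (join (join (E h0) (E h1)) (join (E h2) (E h3)))) := by
  obtain ⟨h0, h1, h2, h3, h⟩ := encoder (V := Vlim w) hS (fun ρ => by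
    obtain ⟨c, hc⟩ := W_complete (hw ρ)
    exact ⟨c, fun k => Vlim_iff.2 (hc k)⟩) z
  exact ⟨h0, h1, h2, h3, decoder h⟩

end MC92
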