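import Pool.Agent.LibMC92.P1

/-!
P2: a splitting scheme in the closure of a set without isolated points.
-/

namespace MC92

theorem p2_other {D : Set X} (hD : Preperfect D) {d : X} (hd : d ∈ D) (n : ℕ) :
    ∃ d' ∈ D, d' ≠ d ∧ pre d' n = pre d n := by
  have hU : {x : X | pre x n = pre d n} ∈ nhds d := by
    have : {x : X | pre x n = pre d n} = (Set.Iio n).pi fun i => {d i} := by
      ext x
      simp only [Set.mem_ofPred_eq, pre_eq_iff, Set.mem_pi, Set.mem_Iio, Set.mem_singleton_iff]
    rw [this]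
    exact (set_pi_mem_nhds_iff (Set.finite_Iio n) _).2 fun i _ => by simp
  obtain ⟨d', ⟨h1, h2⟩, h3⟩ := (accPt_iff_nhds.1 (hD d hd)) _ hU
  exact ⟨d', h2, h3, h1⟩

theorem p2_pos {D : Set X} (hD : Preperfect D) (d : X) (n : ℕ) :
    ∃ q : ℕ × X, d ∈ D → q.2 ∈ D ∧ n ≤ q.1 ∧ (∀ i < q.1, q.2 i = d i) ∧ q.2 q.1 ≠ d q.1 := by
  classical
  by_cases hd : d ∈ D
  · obtain ⟨d', h1, h2, h3⟩ := p2_other hD hd n
    have hex : ∃ i, d' i ≠ d i := Function.ne_iff.1 h2
    refine ⟨(Nat.find hex, d'), fun _ => ⟨h1, ?_, fun i hi => ?_, Nat.find_spec hex⟩⟩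
    · by_contra hcon
      exact Nat.find_spec hex (pre_eq_iff.1 h3 _ (by simpa using hcon))
    · by_contra hne
      exact Nat.find_min hex hi hne
  · exact ⟨(0, d), fun h => absurd h hd⟩

theorem exists_split_pre {D : Set X} (hD : Preperfect D) (hne : D.Nonempty) :
    ∃ E P, Split E P ∧ (∀ h, E h ∈ closure D) ∧ ∀ ρ, E (ext0 ρ) ∈ D := by
  obtain ⟨d0, hd0⟩ := hne
  choose Q hQ using fun (d : X) (n : ℕ) => p2_pos hD d n
  let nxt : ℕ × X → Bool → ℕ × X := fun s b =>
    ((Q s.2 s.1).1 + 1, if b then (Q s.2 s.1).2 else s.2)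
  let T : List Bool → ℕ × X := fun ρ => ρ.foldl nxt (0, d0)
  have hT : ∀ ρ b, T (ρ ++ [b]) = nxt (T ρ) b := fun ρ b => by
    simp [T, List.foldl_append]
  have hTD : ∀ ρ, (T ρ).2 ∈ D := by
    intro ρ
    induction ρ using List.reverseRecOn with
    | nil => exact hd0
    | append_singleton ρ b ih =>
      rw [hT]
      simp only [nxt]
      cases b
      · exact ih
      · exact (hQ _ _ ih).1
  -- the child agrees with the father below the splitting position
  have hagr : ∀ ρ b, ∀ i < (Q (T ρ).2 (T ρ).1).1, (T (ρ ++ [b])).2 i = (T ρ).2 i := by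
    intro ρ b i hi
    rw [hT]
    simp only [nxt]
    cases b
    · rfl
    · exact (hQ _ _ (hTD ρ)).2.2.1 i hi
  have hlt : ∀ ρ b, (T (ρ ++ [b])).1 = (Q (T ρ).2 (T ρ).1).1 + 1 := fun ρ b => by rw [hT]
  have hle : ∀ ρ, (T ρ).1 ≤ (Q (T ρ).2 (T ρ).1).1 := fun ρ => (hQ _ _ (hTD ρ)).2.1
  let L : X → ℕ → List Bool := fun h k => pre (T (pre h k)).2 (T (pre h k)).1
  have hL1 : ∀ h k, L h k <+: L h (k + 1) := by
    intro h k
    have h1 : pre (T (pre h k)).2 (T (pre h k)).1 =
        (pre (T (pre h (k + 1))).2 (T (pre h (k + 1))).1).take (T (pre h k)).1 := by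
      rw [pre_take]
      · refine pre_eq_iff.2 fun i hi => ?_
        rw [pre_succ]
        exact (hagr _ _ i (lt_of_lt_of_le hi (hle _))).symm
      · rw [pre_succ, hlt]
        have := hle (pre h k)
        omega
    simp only [L]
    rw [h1]
    exact List.take_prefix _ _
  have hL2 : ∀ h k, k ≤ (L h k).length := by
    intro h k
    simp only [L, pre_length]
    induction k with
    | zero => omega
    | succ k ih =>
      rw [pre_succ, hlt]
      have := hle (pre h k)
      omega
  have hval : ∀ h k, ∀ i < (T (pre h k)).1, lim (L h) i = (T (pre h k)).2 i := by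
    intro h k i hi
    rw [lim_get (hL1 h) (hL2 h) (k := k) (by simpa [L] using hi)]
    exact pre_getD _ hi _
  refine ⟨fun h => lim (L h), fun ρ => (Q (T ρ).2 (T ρ).1).1, ⟨?_, ?_⟩, ?_, ?_⟩
  · intro h h' n hpre hne
    have h1 : ∀ k : X, pre k n = pre h n → lim (L k) (Q (T (pre h n)).2 (T (pre h n)).1).1 =
        (if k n then (Q (T (pre h n)).2 (T (pre h n)).1).2 else (T (pre h n)).2)
          (Q (T (pre h n)).2 (T (pre h n)).1).1 := by
      intro k hk
      rw [hval k (n + 1) _ (by rw [pre_succ, hlt, hk]; omega), pre_succ, hk, hT]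
    rw [h1 h rfl, h1 h' hpre.symm]
    have h2 := (hQ (T (pre h n)).2 (T (pre h n)).1 (hTD (pre h n))).2.2.2
    cases hn : h n <;> cases hn' : h' n
    · rw [hn, hn'] at hne; exact absurd rfl hne
    · simpa using h2.symm
    · simpa using h2
    · rw [hn, hn'] at hne; exact absurd rfl hne
  · intro h h' n hpre i hi
    have h1 : ∀ k : X, pre k n = pre h n → lim (L k) i = (T (pre h n)).2 i := by
      intro k hk
      rw [hval k (n + 1) i (by rw [pre_succ, hlt, hk]; omega), pre_succ, hk]
      exact hagr _ _ i hi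
    rw [h1 h rfl, h1 h' hpre.symm]
  · intro h
    simp only
    rw [mem_closure_iff_nhds]
    intro U hU
    rw [nhds_pi, Filter.mem_pi] at hU
    obtain ⟨I, hI, t, ht, hsub⟩ := hU
    obtain ⟨N, hN⟩ := hI.bddAbove
    refine ⟨(T (pre h (N + 1))).2, hsub ?_, hTD _⟩
    intro i hi
    have hiN := hN hi
    have h2 := hL2 h (N + 1)
    simp only [L, pre_length] at h2
    rw [← hval h (N + 1) i (by omega)]
    exact mem_of_mem_nhds (ht i)
  · intro ρ
    have h1 : ∀ k, (T (pre (ext0 ρ) (ρ.length + k))).2 = (T ρ).2 := by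
      intro k
      induction k with
      | zero =>
        have : pre (ext0 ρ) ρ.length = ρ := pre_eq_of_getD fun i _ => rfl
        rw [Nat.add_zero, this]
      | succ k ih =>
        rw [← Nat.add_assoc, pre_succ, hT]
        have : ext0 ρ (ρ.length + k) = false := by
          unfold ext0
          rw [List.getD_eq_getElem?_getD, List.getElem?_eq_none (by omega)]
          rfl
        simp only [nxt, this]
        exact ih
    have h2 : lim (L (ext0 ρ)) = (T ρ).2 := by
      funext i
      have h3 := hL2 (ext0 ρ) (ρ.length + (i + 1))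
      simp only [L, pre_length] at h3
      rw [hval (ext0 ρ) (ρ.length + (i + 1)) i (by omega), h1]
    simp only
    rw [h2]
    exact hTD ρ

end MC92
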