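import Pool.Agent.LibMC92.SplitDefs

/-!
Q2: perfect set game, the second player wins, so the range of `g` is countable.
-/

open Encodable

namespace MC92

/-- The output of a history. -/
def q2_o (t : List ℕ → ℕ) (H : List ℕ) : List Bool :=
  (List.range H.length).flatMap fun j => (seg (H.getD j 0)).1 ++ [t (H.take (j + 1)) != 0]

theorem q2_getD_lt (H : List ℕ) (x : ℕ) {j : ℕ} (hj : j < H.length) :
    (H ++ [x]).getD j 0 = H.getD j 0 := by
  simp [List.getElem?_append_left hj]

theorem q2_getD_eq (H : List ℕ) (x : ℕ) : (H ++ [x]).getD H.length 0 = x := by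
  simp

theorem q2_o_snoc (t : List ℕ → ℕ) (H : List ℕ) (x : ℕ) :
    q2_o t (H ++ [x]) = q2_o t H ++ ((seg x).1 ++ [t (H ++ [x]) != 0]) := by
  unfold q2_o
  have h1 : (H ++ [x]).length = H.length + 1 := by simp
  rw [h1, List.range_succ, List.flatMap_append, List.flatMap_singleton, q2_getD_eq,
    List.take_of_length_le (by rw [h1])]
  congr 1
  rw [List.flatMap_def, List.flatMap_def]
  congr 1
  refine List.map_congr_left fun j hj => ?_
  have hj' := List.mem_range.1 hj
  rw [q2_getD_lt H x hj', List.take_append_of_le_length (by omega)]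

/-- Good histories. -/
def q2_good (t : List ℕ → ℕ) (y z : X) (H : List ℕ) : Prop :=
  (∀ j < H.length, (seg (H.getD j 0)).2 = z j) ∧ pre y (q2_o t H).length = q2_o t H

theorem q2_part {z : X} {H : List ℕ} (h : ∀ j < H.length, (seg (H.getD j 0)).2 = z j)
    (σ : List Bool) : ∀ j < (H ++ [encode (σ, z H.length)]).length,
      (seg ((H ++ [encode (σ, z H.length)]).getD j 0)).2 = z j := by
  intro j hj
  have h1 : (H ++ [encode (σ, z H.length)]).length = H.length + 1 := by simp
  rw [h1] at hj
  rcases Nat.lt_succ_iff_lt_or_eq.1 hj with h2 | h2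
  · rw [q2_getD_lt _ _ h2]
    exact h j h2
  · subst h2
    rw [q2_getD_eq, seg_encode]

/-- The histories chosen by `f`. -/
def q2_H (z : X) (f : List ℕ → List Bool) : ℕ → List ℕ
  | 0 => []
  | n + 1 => q2_H z f n ++ [encode (f (q2_H z f n), z (q2_H z f n).length)]

theorem q2_H_length (z : X) (f : List ℕ → List Bool) (n : ℕ) : (q2_H z f n).length = n := by
  induction n with
  | zero => rfl
  | succ n ih => rw [q2_H, List.length_append, ih]; rfl

theorem q2_step1 {g : X → X} {t : List ℕ → ℕ}
    (h : ∀ a, g (zz (play2 t a)) ≠ oo (play2 t a)) (z : X) :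
    ∃ H, q2_good t (g z) z H ∧ ∀ σ : List Bool, ¬ q2_good t (g z) z (H ++ [encode (σ, z H.length)]) := by
  by_contra hcon
  push Not at hcon
  have hcon' : ∀ H : List ℕ, ∃ σ : List Bool, q2_good t (g z) z H →
      q2_good t (g z) z (H ++ [encode (σ, z H.length)]) := by
    intro H
    by_cases hH : q2_good t (g z) z H
    · obtain ⟨σ, hσ⟩ := hcon H hH
      exact ⟨σ, fun _ => hσ⟩
    · exact ⟨[], fun h => absurd h hH⟩
  choose f hf using hcon'
  have hgood : ∀ n, q2_good t (g z) z (q2_H z f n) := by
    intro n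
    induction n with
    | zero => exact ⟨fun j hj => absurd hj (Nat.not_lt_zero j), rfl⟩
    | succ n ih => exact hf _ ih
  set a : ℕ → ℕ := fun n => encode (f (q2_H z f n), z (q2_H z f n).length) with ha
  have hmap : ∀ n, q2_H z f n = (List.range n).map a := by
    intro n
    induction n with
    | zero => rfl
    | succ n ih =>
      rw [List.range_succ, List.map_append, ← ih]
      rfl
  have hzz : zz (play2 t a) = z := by
    funext i
    show (seg (play2 t a (2 * i))).2 = z i
    rw [play2_even, ha]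
    show (seg (encode (f (q2_H z f i), z (q2_H z f i).length))).2 = z i
    rw [seg_encode, q2_H_length]
  have hoL : ∀ i, oL (play2 t a) i = q2_o t (q2_H z f i) := by
    intro i
    induction i with
    | zero => rfl
    | succ i ih =>
      rw [oL_succ, ih, play2_even, play2_odd, ← hmap, q2_H, q2_o_snoc]
  have hy : g z = oo (play2 t a) := by
    refine lim_unique (oL_length (play2 t a)) fun k => ?_
    rw [hoL]
    exact (hgood k).2
  refine h a ?_
  rw [hzz]
  exact hy

/-- The reals which diagonalize. -/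
def q2_L (t : List ℕ → ℕ) (H : List ℕ) (β : Bool) : ℕ → List Bool
  | 0 => q2_o t H
  | k + 1 => q2_L t H β k ++
      [! (t (H ++ [encode ((q2_L t H β k).drop (q2_o t H).length, β)]) != 0)]

theorem q2_L_prefix (t : List ℕ → ℕ) (H : List ℕ) (β : Bool) (k : ℕ) :
    q2_L t H β k <+: q2_L t H β (k + 1) :=
  ⟨_, rfl⟩

theorem q2_L_length (t : List ℕ → ℕ) (H : List ℕ) (β : Bool) (k : ℕ) :
    k ≤ (q2_L t H β k).length := by
  induction k with
  | zero => exact Nat.zero_le _
  | succ k ih =>
    rw [q2_L, List.length_append, List.length_singleton]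
    omega

theorem q2_L_eq (t : List ℕ → ℕ) (H : List ℕ) (β : Bool) (k : ℕ) :
    q2_L t H β k = q2_o t H ++ (q2_L t H β k).drop (q2_o t H).length := by
  obtain ⟨s, hs⟩ := prefix_le (q2_L_prefix t H β) (Nat.zero_le k)
  have h0 : q2_L t H β 0 = q2_o t H := rfl
  rw [h0] at hs
  rw [← hs, List.drop_left]

theorem q2_step2 {t : List ℕ → ℕ} {y z : X} {H : List ℕ} (hH : q2_good t y z H)
    (hn : ∀ σ : List Bool, ¬ q2_good t y z (H ++ [encode (σ, z H.length)])) :
    y = lim (q2_L t H (z H.length)) := by
  refine lim_unique (q2_L_length t H (z H.length)) fun k => ?_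
  induction k with
  | zero => exact hH.2
  | succ k ih =>
    set β := z H.length with hβ
    set σ := (q2_L t H β k).drop (q2_o t H).length with hσ
    have h1 := hn σ
    have h2 : ¬ pre y (q2_o t (H ++ [encode (σ, β)])).length = q2_o t (H ++ [encode (σ, β)]) :=
      fun h3 => h1 ⟨q2_part hH.1 σ, h3⟩
    have h3 : q2_o t (H ++ [encode (σ, β)]) =
        q2_L t H β k ++ [t (H ++ [encode (σ, β)]) != 0] := by
      rw [q2_o_snoc, seg_encode, ← List.append_assoc, hσ, ← q2_L_eq]
    rw [h3, pre_append_singleton] at h2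
    have h4 : y (q2_L t H β k).length ≠ (t (H ++ [encode (σ, β)]) != 0) := fun h5 => h2 ⟨ih, h5⟩
    have h5 : q2_L t H β (k + 1) = q2_L t H β k ++ [! (t (H ++ [encode (σ, β)]) != 0)] := rfl
    rw [h5, pre_append_singleton]
    refine ⟨ih, ?_⟩
    revert h4
    cases y (q2_L t H β k).length <;> cases (t (H ++ [encode (σ, β)]) != 0) <;> simp

theorem psp_II {g : X → X} {t : List ℕ → ℕ}
    (h : ∀ a, g (zz (play2 t a)) ≠ oo (play2 t a)) :
    ∃ R : ℕ → X, ∀ z, ∃ i, g z = R i := by
  refine ⟨fun i => match (decode i : Option (List ℕ × Bool)) with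
    | some v => lim (q2_L t v.1 v.2)
    | none => fun _ => false, fun z => ?_⟩
  obtain ⟨H, hH, hn⟩ := q2_step1 h z
  refine ⟨encode (H, z H.length), ?_⟩
  show g z = match (decode (encode (H, z H.length)) : Option (List ℕ × Bool)) with
    | some v => lim (q2_L t v.1 v.2)
    | none => fun _ => false
  rw [encodek]
  exact q2_step2 hH hn

end MC92
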