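import Pool.Agent.LibMC92.Q1
import Pool.Agent.LibMC92.Q2
import Pool.Agent.LibMC92.D3
import Pool.Agent.LibMC92.G4
import Pool.Agent.LibMC92.P2

/-!
A1: assembly: perfect set property of the range, the core theorem.
-/

namespace MC92

variable {m : MeasurableSpace (ℕ → ℕ)}

theorem psp (hm : Determinacy m) {g : X → X} (hg : Meas m g) :
    (∃ R : ℕ → X, ∀ z, ∃ i, g z = R i) ∨
      ∃ e : X → X, Continuous e ∧ Function.Injective e ∧ ∀ x, ∃ z, e x = g z := by
  have hA : @MeasurableSet _ m {a | g (zz a) = oo a} :=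
    meas_eq (F := fun a => g (zz a)) (G := oo) (mmap_comp hm hg continuous_zz)
      (mmap_of_continuous hm continuous_oo)
  rcases hm.determined _ hA with ⟨s, hs⟩ | ⟨t, ht⟩
  · exact Or.inr (psp_I hs)
  · exact Or.inl (psp_II ht)

theorem core_w (hm : Determinacy m) {g : X → X} (hgm : Meas m g) {E : X → X}
    {P : List Bool → ℕ} (hS : Split E P) {w : X} (hw : ∀ ρ : List Bool, Red (E (ext0 ρ)) w)
    (h : ∀ x, Cone (fun y => Red (E x) (g y))) : Cone (fun y => Red y (join w (g y))) := by
  refine measure_preserving hm (G := fun y => join w (g y))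
    (meas_join (f := fun _ => w) (mmap_const _) hgm) fun z => ?_
  obtain ⟨h0, h1, h2, h3, hz⟩ := gs_coding hS hw z
  refine cone_mono (cone_and (cone_and (h h0) (h h1)) (cone_and (h h2) (h h3))) ?_
  rintro y ⟨⟨hy0, hy1⟩, hy2, hy3⟩
  exact red_trans hz (join_mono (red_refl _) (join_red (join_red hy0 hy1) (join_red hy2 hy3)))

theorem core (hm : Determinacy m) {g : X → X} (hgm : Meas m g) {e : X → X} (he : Continuous e)
    (hi : Function.Injective e) (h : ∀ x, Cone (fun y => Red (e x) (g y))) :
    Cone (fun x => Cone (fun y => Red y (join (g x) (g y)))) := by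
  obtain ⟨E, P, hS, hE⟩ := exists_split he hi
  have hE' : ∀ x, Cone (fun y => Red (E x) (g y)) := by
    intro x
    obtain ⟨x', hx'⟩ := hE x
    rw [hx']
    exact h x'
  have h1 : Cone (fun x => ∀ i : ℕ, ∀ ρ : List Bool, Encodable.decode i = some ρ →
      Red (E (ext0 ρ)) (g x)) := by
    refine cone_forall fun i => ?_
    rcases hd : (Encodable.decode i : Option (List Bool)) with _ | ρ
    · exact cone_of fun x ρ hρ => by cases hρ
    · refine cone_mono (hE' (ext0 ρ)) fun x hx ρ' hρ' => ?_
      rw [← Option.some_injective _ hρ']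
      exact hx
  refine cone_mono h1 fun x hx => ?_
  exact core_w hm hgm hS (fun ρ => hx (Encodable.encode ρ) ρ (Encodable.encodek ρ)) hE'

theorem core_pre (hm : Determinacy m) {g : X → X} (hgm : Meas m g) {D : Set X}
    (hD : Preperfect D) (hne : D.Nonempty) {w : X} (hw : ∀ z ∈ D, Red z w)
    (h : ∀ z ∈ closure D, Cone (fun y => Red z (g y))) :
    Cone (fun y => Red y (join w (g y))) := by
  obtain ⟨E, P, hS, hE, hE0⟩ := exists_split_pre hD hne
  exact core_w hm hgm hS (fun ρ => hw _ (hE0 ρ)) fun x => h _ (hE x)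

theorem core_perfect (hm : Determinacy m) {g : X → X} (hgm : Meas m g) {A : Set X}
    (hA : Perfect A) (hne : A.Nonempty) (h : ∀ x ∈ A, Cone (fun y => Red x (g y))) :
    Cone (fun x => Cone (fun y => Red y (join (g x) (g y)))) := by
  letI := TopologicalSpace.upgradeIsCompletelyMetrizable X
  obtain ⟨e, he1, he2, he3⟩ := hA.exists_nat_bool_injection hne
  exact core hm hgm he2 he3 fun x => h _ (he1 ⟨x, rfl⟩)

end MC92
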