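import Pool.Agent.LibMC92.M1

/-!
C1: Martin's cone theorem and the countable case.
-/

namespace MC92

variable {m : MeasurableSpace (ℕ → ℕ)}

theorem c1_red_of_odd {x y : X} (h : ∀ n, y (2 * n + 1) = x n) : Red x y := by
  rw [red_iff]
  have h1 : ComputableIn {chi y} fun n : ℕ => 2 * n + 1 :=
    (Primrec.succ.comp (Primrec.nat_mul.comp (Primrec.const 2) Primrec.id)).computableIn
  exact ((comp_self y).comp h1).of_eq h

theorem c1_red_of_even {x y : X} (h : ∀ n, y (2 * n) = x n) : Red x y := by
  rw [red_iff]
  have h1 : ComputableIn {chi y} fun n : ℕ => 2 * n :=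
    (Primrec.nat_mul.comp (Primrec.const 2) Primrec.id).computableIn
  exact ((comp_self y).comp h1).of_eq h

theorem cone_dichotomy (hm : Determinacy m) {P : X → Prop}
    (hP : ∀ x y, Red x y → Red y x → P x → P y) (hMeas : @MeasurableSet _ m {a | P (bits a)}) :
    Cone P ∨ Cone (fun x => ¬ P x) := by
  rcases hm.determined _ hMeas with ⟨s, hs⟩ | ⟨t, ht⟩
  · left
    obtain ⟨c, hc⟩ := exists_code s
    refine ⟨c, fun x hx => ?_⟩
    let a := play1 s (fun n => (x n).toNat)
    have ha : ComputableIn {chi x} a :=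
      comp_play1 (comp_mono hx hc) (comp_nat (comp_self x))
    have h1 : Red (bits a) x := red_iff.2 (comp_bits ha)
    have h2 : Red x (bits a) := c1_red_of_odd fun n => by
      simp only [bits, a, play1_odd]
      cases x n <;> rfl
    exact hP _ _ h1 h2 (hs _)
  · right
    obtain ⟨c, hc⟩ := exists_code t
    refine ⟨c, fun x hx hPx => ?_⟩
    let a := play2 t (fun n => (x n).toNat)
    have ha : ComputableIn {chi x} a :=
      comp_play2 (comp_mono hx hc) (comp_nat (comp_self x))
    have h1 : Red (bits a) x := red_iff.2 (comp_bits ha)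
    have h2 : Red x (bits a) := c1_red_of_even fun n => by
      simp only [bits, a, play2_even]
      cases x n <;> rfl
    exact ht _ (hP _ _ h2 h1 hPx)

theorem count_const (hm : Determinacy m) {f : X → X} (hf : Invariant f) (hfm : Meas m f)
    (R : ℕ → X) (h : Cone (fun x => ∃ i, Red (f x) (R i) ∧ Red (R i) (f x))) :
    ∃ d, Cone (fun x => Red (f x) d ∧ Red d (f x)) := by
  by_contra hcon
  have hno : ∀ i, Cone (fun x => ¬ (Red (f x) (R i) ∧ Red (R i) (f x))) := by
    intro i
    have hd := cone_dichotomy hm (P := fun x => Red (f x) (R i) ∧ Red (R i) (f x)) ?_ ?_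
    · rcases hd with hd | hd
      · exact absurd ⟨R i, hd⟩ hcon
      · exact hd
    · intro x y hxy hyx ⟨h1, h2⟩
      exact ⟨red_trans (hf y x hyx hxy) h1, red_trans h2 (hf x y hxy hyx)⟩
    · exact @MeasurableSet.inter _ m _ _
        (meas_red (F := fun a => f (bits a)) (G := fun _ => R i) hfm (mmap_const _))
        (meas_red (G := fun a => f (bits a)) (F := fun _ => R i) (mmap_const _) hfm)
  obtain ⟨x, _, ⟨i, hi⟩, hx⟩ := cone_exists (cone_and h (cone_forall hno)) (fun _ => false)
  exact hx i hi

end MC92
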