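import Pool.Agent.LibMC92.A1
import Pool.Agent.LibMC92.C1

/-!
A2: assembly: the trichotomy.
-/

namespace MC92

variable {m : MeasurableSpace (ℕ → ℕ)}

/-- the real computed by the index `c` from `w`, if there is one -/
noncomputable def a2_R (w : X) (c : ℕ) : X := by
  classical
  exact if h : ∃ y : X, ∀ k, ∃ s, W w c k s = some (y k) then h.choose else fun _ => false

theorem a2_R_eq {w y : X} {c : ℕ} (h : ∀ k, ∃ s, W w c k s = some (y k)) : a2_R w c = y := by
  have hex : ∃ y : X, ∀ k, ∃ s, W w c k s = some (y k) := ⟨y, h⟩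
  unfold a2_R
  rw [dif_pos hex]
  funext k
  obtain ⟨s, hs⟩ := hex.choose_spec k
  obtain ⟨s', hs'⟩ := h k
  have h1 := W_mono hs (le_max_left s s')
  have h2 := W_mono hs' (le_max_right s s')
  rw [h1] at h2
  exact Option.some_injective _ h2

theorem a2_const (x : X) : MMap m (fun _ => x) := by
  intro n
  exact @MeasurableSet.const _ m (x n = true)

/-- comparability dichotomy with a fixed real -/
theorem a2_comparable (hm : Determinacy m) {f : X → X} (hf : Invariant f) (hfm : Meas m f) (x : X)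
    (h : ¬ Cone (fun y => ¬ Red (f x) (f y) ∧ ¬ Red (f y) (f x))) :
    Cone (fun y => Red (f x) (f y)) ∨ Cone (fun y => Red (f y) (f x)) := by
  have hfm' : MMap m (fun a => f (bits a)) := hfm
  have d1 := cone_dichotomy hm (P := fun y => Red (f x) (f y))
    (fun y y' h1 h2 h3 => red_trans h3 (hf y y' h1 h2)) (meas_red (a2_const (f x)) hfm')
  have d2 := cone_dichotomy hm (P := fun y => Red (f y) (f x))
    (fun y y' h1 h2 h3 => red_trans (hf y' y h2 h1) h3) (meas_red hfm' (a2_const (f x)))
  rcases d1 with d1 | d1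
  · exact Or.inl d1
  · rcases d2 with d2 | d2
    · exact Or.inr d2
    · exact absurd (cone_and d1 d2) h

theorem trichotomy (hm : Determinacy m) {f : X → X} (hf : Invariant f) (hfm : Meas m f) :
    (∃ d, Cone (fun x => Red (f x) d ∧ Red d (f x))) ∨ Cone (fun x => Red x (f x)) ∨
      ∀ b, ∃ x, Red b x ∧ Cone (fun y => ¬ Red (f x) (f y) ∧ ¬ Red (f y) (f x)) := by
  by_cases h3 : ∀ b, ∃ x, Red b x ∧ Cone (fun y => ¬ Red (f x) (f y) ∧ ¬ Red (f y) (f x))
  · exact Or.inr (Or.inr h3)
  push Not at h3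
  obtain ⟨b, hb⟩ := h3
  have hb' : ∀ x, Red b x → Cone (fun y => Red (f x) (f y)) ∨ Cone (fun y => Red (f y) (f x)) := by
    intro x hx
    refine a2_comparable hm hf hfm x fun hc => hb x hx ?_
    exact cone_mono hc fun y hy => hy
  by_cases h1 : ∃ x, Red b x ∧ Cone (fun y => Red (f y) (f x))
  · obtain ⟨x, -, hx⟩ := h1
    refine Or.inl (count_const hm hf hfm (a2_R (f x)) (cone_mono hx fun y hy => ?_))
    obtain ⟨c, hc⟩ := W_complete hy
    refine ⟨c, ?_⟩
    rw [a2_R_eq hc]
    exact ⟨red_refl _, red_refl _⟩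
  · have h2 : ∀ x, Red b x → Cone (fun y => Red (f x) (f y)) := by
      intro x hx
      rcases hb' x hx with h | h
      · exact h
      · exact absurd ⟨x, hx, h⟩ h1
    rcases psp hm (meas_join_const hm hfm b) with ⟨R, hR⟩ | ⟨e, he, hi, hez⟩
    · refine Or.inl (count_const hm hf hfm R (cone_mono (cone_above b) fun y hy => ?_))
      obtain ⟨i, hi⟩ := hR y
      have e1 : Red (join b y) y := join_red hy (red_refl y)
      have e2 : Red y (join b y) := red_join_right b y
      refine ⟨i, ?_⟩
      rw [← hi]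
      exact ⟨hf _ _ e2 e1, hf _ _ e1 e2⟩
    · have hcore := core hm hfm he hi (fun x => by
        obtain ⟨z, hz⟩ := hez x
        rw [hz]
        exact h2 (join b z) (red_join_left b z))
      obtain ⟨x, hx, hc⟩ := cone_exists hcore b
      refine Or.inr (Or.inl (cone_mono (cone_and hc (h2 x hx)) fun y hy => ?_))
      exact red_trans hy.1 (join_red hy.2 (red_refl _))

theorem trichotomy_cone (hm : Determinacy m) {f : X → X} (hf : Invariant f) (hfm : Meas m f)
    (hQ : @MeasurableSet _ m
      {a | Cone (fun y => ¬ Red (f (bits a)) (f y) ∧ ¬ Red (f y) (f (bits a)))}) :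
    (∃ d, Cone (fun x => Red (f x) d ∧ Red d (f x))) ∨ Cone (fun x => Red x (f x)) ∨
      Cone (fun x => Cone (fun y => ¬ Red (f x) (f y) ∧ ¬ Red (f y) (f x))) := by
  rcases trichotomy hm hf hfm with h | h | h
  · exact Or.inl h
  · exact Or.inr (Or.inl h)
  · refine Or.inr (Or.inr ?_)
    rcases cone_dichotomy hm
      (P := fun x => Cone (fun y => ¬ Red (f x) (f y) ∧ ¬ Red (f y) (f x)))
      (fun x x' h1 h2 hx => cone_mono hx fun y hy =>
        ⟨fun h3 => hy.1 (red_trans (hf x x' h1 h2) h3),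
          fun h3 => hy.2 (red_trans h3 (hf x' x h2 h1))⟩) hQ with hc | hc
    · exact hc
    · obtain ⟨c, hc⟩ := hc
      obtain ⟨x, hx, hx'⟩ := h c
      exact absurd hx' (hc x hx)

end MC92
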