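import Pool.Agent.LibMC92.A2

/-!
A3: the trichotomy with a closure function `K`.
-/

namespace MC92

variable {m : MeasurableSpace (ℕ → ℕ)}

/-- comparability dichotomy with a fixed real -/
theorem a3_comparable (hm : Determinacy m) {f K : X → X} (hf : Invariant f) (hfm : Meas m f)
    (hKm : Meas m (fun x => K (f x))) (hK : ∀ z z', Red z z' → Red (K z) (K z')) (x : X)
    (h : ¬ Cone (fun y => ¬ Red (f x) (K (f y)) ∧ ¬ Red (f y) (K (f x)))) :
    Cone (fun y => Red (f x) (K (f y))) ∨ Cone (fun y => Red (f y) (K (f x))) := by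
  have hfm' : MMap m (fun a => f (bits a)) := hfm
  have hKm' : MMap m (fun a => K (f (bits a))) := hKm
  have d1 := cone_dichotomy hm (P := fun y => Red (f x) (K (f y)))
    (fun y y' h1 h2 h3 => red_trans h3 (hK _ _ (hf y y' h1 h2)))
    (meas_red (a2_const (f x)) hKm')
  have d2 := cone_dichotomy hm (P := fun y => Red (f y) (K (f x)))
    (fun y y' h1 h2 h3 => red_trans (hf y' y h2 h1) h3) (meas_red hfm' (a2_const (K (f x))))
  rcases d1 with d1 | d1
  · exact Or.inl d1
  · rcases d2 with d2 | d2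
    · exact Or.inr d2
    · exact absurd (cone_and d1 d2) h

theorem trichotomyK (hm : Determinacy m) {f K : X → X} (hf : Invariant f) (hfm : Meas m f)
    (hKm : Meas m (fun x => K (f x))) (hK1 : ∀ z, Red z (K z))
    (hK : ∀ z z', Red z z' → Red (K z) (K z')) :
    (∃ d, Cone (fun x => Red (f x) d ∧ Red d (f x))) ∨ Cone (fun x => Red x (K (K (f x)))) ∨
      ∀ b, ∃ x, Red b x ∧ Cone (fun y => ¬ Red (f x) (K (f y)) ∧ ¬ Red (f y) (K (f x))) := by
  by_cases h3 : ∀ b, ∃ x, Red b x ∧
      Cone (fun y => ¬ Red (f x) (K (f y)) ∧ ¬ Red (f y) (K (f x)))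
  · exact Or.inr (Or.inr h3)
  rw [not_forall] at h3
  obtain ⟨b, hb⟩ := h3
  have hb' : ∀ x, Red b x →
      Cone (fun y => Red (f x) (K (f y))) ∨ Cone (fun y => Red (f y) (K (f x))) :=
    fun x hx => a3_comparable hm hf hfm hKm hK x fun hc => hb ⟨x, hx, hc⟩
  by_cases h1 : ∃ x, Red b x ∧ Cone (fun y => Red (f y) (K (f x)))
  · obtain ⟨x, -, hx⟩ := h1
    refine Or.inl (count_const hm hf hfm (a2_R (K (f x))) (cone_mono hx fun y hy => ?_))
    obtain ⟨c, hc⟩ := W_complete hy
    refine ⟨c, ?_⟩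
    rw [a2_R_eq hc]
    exact ⟨red_refl _, red_refl _⟩
  · have h2 : ∀ x, Red b x → Cone (fun y => Red (f x) (K (f y))) := by
      intro x hx
      rcases hb' x hx with h | h
      · exact h
      · exact absurd ⟨x, hx, h⟩ h1
    rcases psp hm (meas_join_const hm hfm b) with ⟨R, hR⟩ | ⟨e, he, hi, hez⟩
    · refine Or.inl (count_const hm hf hfm R (cone_mono (cone_above b) fun y hy => ?_))
      obtain ⟨i, hi⟩ := hR y
      have e1 : Red (join b y) y := join_red hy (red_refl y)
      have e2 : Red y (join b y) := red_join_right b y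
      refine ⟨i, ?_⟩
      rw [← hi]
      exact ⟨hf _ _ e2 e1, hf _ _ e1 e2⟩
    · have hcore := core hm (g := fun x => K (f x)) hKm he hi (fun x => by
        obtain ⟨z, hz⟩ := hez x
        rw [hz]
        exact h2 (join b z) (red_join_left b z))
      obtain ⟨x, hx, hc⟩ := cone_exists hcore b
      refine Or.inr (Or.inl (cone_mono (cone_and hc (h2 x hx)) fun y hy => ?_))
      exact red_trans hy.1 (join_red (hK _ _ hy.2) (hK1 _))

theorem trichotomyK_cone (hm : Determinacy m) {f K : X → X} (hf : Invariant f) (hfm : Meas m f)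
    (hKm : Meas m (fun x => K (f x))) (hK1 : ∀ z, Red z (K z))
    (hK : ∀ z z', Red z z' → Red (K z) (K z'))
    (hQ : @MeasurableSet _ m
      {a | Cone (fun y => ¬ Red (f (bits a)) (K (f y)) ∧ ¬ Red (f y) (K (f (bits a))))}) :
    (∃ d, Cone (fun x => Red (f x) d ∧ Red d (f x))) ∨ Cone (fun x => Red x (K (K (f x)))) ∨
      Cone (fun x => Cone (fun y => ¬ Red (f x) (K (f y)) ∧ ¬ Red (f y) (K (f x)))) := by
  rcases trichotomyK hm hf hfm hKm hK1 hK with h | h | h
  · exact Or.inl h
  · exact Or.inr (Or.inl h)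
  · refine Or.inr (Or.inr ?_)
    rcases cone_dichotomy hm
      (P := fun x => Cone (fun y => ¬ Red (f x) (K (f y)) ∧ ¬ Red (f y) (K (f x))))
      (fun x x' h1 h2 hx => cone_mono hx fun y hy =>
        ⟨fun h3 => hy.1 (red_trans (hf x x' h1 h2) h3),
          fun h3 => hy.2 (red_trans h3 (hK _ _ (hf x' x h2 h1)))⟩) hQ with hc | hc
    · exact hc
    · obtain ⟨c, hc⟩ := hc
      obtain ⟨x, hx, hx'⟩ := h c
      exact absurd hx' (hc x hx)

end MC92
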