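import Pool.Agent.LibMC92.BU

/-!
B1: the first player has no winning strategy in a Banach-Mazur game with witness bits.
-/

open Encodable

namespace MC92

variable {A : Type*} [Inhabited A] [Primcodable A]

/-- what has been played after the moves `H` of the second player and the answer of `s`. -/
def b1_L (A : Type*) [Inhabited A] [Primcodable A] (s : List ℕ → ℕ) (H : List ℕ) : List A :=
  ((List.range H.length).flatMap fun j => mvI A (s (H.take j)) ++ (mvII A (H.getD j 0)).1) ++
    mvI A (s H)

theorem b1_L_snoc (s : List ℕ → ℕ) (H : List ℕ) (v : List A) (β : Bool) :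
    b1_L A s (H ++ [encode (v, β)]) =
      b1_L A s H ++ v ++ mvI A (s (H ++ [encode (v, β)])) := by
  unfold b1_L
  rw [List.length_append, List.length_singleton, List.range_succ, List.flatMap_append]
  have h1 : ((List.range H.length).flatMap fun j =>
      mvI A (s ((H ++ [encode (v, β)]).take j)) ++
        (mvII A ((H ++ [encode (v, β)]).getD j 0)).1) =
      ((List.range H.length).flatMap fun j =>
        mvI A (s (H.take j)) ++ (mvII A (H.getD j 0)).1) := by
    refine List.flatMap_congr fun j hj => ?_
    have hj' := List.mem_range.1 hj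
    rw [List.take_append_of_le_length hj'.le, List.getD_append _ _ _ _ hj']
  rw [h1]
  have h2 : (H ++ [encode (v, β)]).take H.length = H := by simp
  have h3 : (H ++ [encode (v, β)]).getD H.length 0 = encode (v, β) := by simp
  simp only [List.flatMap_cons, List.flatMap_nil, List.append_nil, h2, h3, mvII_encode,
    List.append_assoc]

open Classical in
/-- one step of the construction of a generic sequence. -/
noncomputable def b1_ext (s : List ℕ → ℕ) (n : ℕ) (l : List A) : List A :=
  match (decode n.unpair.1 : Option (List ℕ × Bool)) with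
  | some (H, β) =>
    if b1_L A s H <+: l then
      b1_L A s (H ++ [encode (l.drop (b1_L A s H).length, β)])
    else l ++ [default]
  | none => l ++ [default]

theorem b1_ext_pfx (s : List ℕ → ℕ) (n : ℕ) (l : List A) :
    l <+: b1_ext s n l ∧ l.length < (b1_ext s n l).length := by
  unfold b1_ext
  rcases hd : (decode n.unpair.1 : Option (List ℕ × Bool)) with _ | ⟨H, β⟩
  · simp
  · simp only
    by_cases h : b1_L A s H <+: l
    · rw [if_pos h, b1_L_snoc]
      have h1 : b1_L A s H ++ l.drop (b1_L A s H).length = l := by
        obtain ⟨r, rfl⟩ := h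
        simp
      rw [h1]
      refine ⟨List.prefix_append _ _, ?_⟩
      have := mvI_length (A := A) (s (H ++ [encode (l.drop (b1_L A s H).length, β)]))
      rw [List.length_append]
      omega
    · rw [if_neg h]
      simp

theorem baireB (s : List ℕ → ℕ) :
    ∃ x : ℕ → A, ∀ c : X, ∃ b : ℕ → ℕ, gg A (play1 s b) = x ∧ vv A (play1 s b) = c := by
  let u : ℕ → List A := fun n =>
    Nat.rec (motive := fun _ => List A) (b1_L A s []) (fun n l => b1_ext s n l) n
  have hu : ∀ n, u (n + 1) = b1_ext s n (u n) := fun n => rfl
  have hu1 : ∀ n, u n <+: u (n + 1) := fun n => by rw [hu]; exact (b1_ext_pfx s n _).1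
  have hu2 : ∀ n, n ≤ (u n).length := by
    intro n
    induction n with
    | zero => omega
    | succ n ih =>
      rw [hu]
      have := (b1_ext_pfx s n (u n)).2
      omega
  have hx := lm_spec hu1 hu2
  set x : ℕ → A := lm u with hxdef
  have hreq : ∀ (H : List ℕ) (β : Bool), pr x (b1_L A s H).length = b1_L A s H →
      ∃ v : List A, pr x (b1_L A s (H ++ [encode (v, β)])).length =
        b1_L A s (H ++ [encode (v, β)]) := by
    intro H β hH
    let n := Nat.pair (encode (H, β)) (b1_L A s H).length
    have hn : (b1_L A s H).length ≤ (u n).length :=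
      (Nat.right_le_pair _ _).trans (hu2 n)
    have hpfx : b1_L A s H <+: u n := by
      rw [List.prefix_iff_eq_take]
      conv_lhs => rw [← hH]
      rw [← hx n, pr_take x hn]
    refine ⟨(u n).drop (b1_L A s H).length, ?_⟩
    have h1 : u (n + 1) = b1_L A s (H ++ [encode ((u n).drop (b1_L A s H).length, β)]) := by
      rw [hu]
      unfold b1_ext
      have hd : (decode n.unpair.1 : Option (List ℕ × Bool)) = some (H, β) := by
        simp only [n, Nat.unpair_pair]
        exact encodek _
      rw [hd]
      simp only
      rw [if_pos hpfx]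
    rw [← h1]
    exact hx (n + 1)
  refine ⟨x, fun c => ?_⟩
  choose! v hv using fun (H : List ℕ) (β : Bool) => hreq H β
  let Hs : ℕ → List ℕ := fun n =>
    Nat.rec (motive := fun _ => List ℕ) [] (fun n H => H ++ [encode (v H (c n), c n)]) n
  have hHs : ∀ n, Hs (n + 1) = Hs n ++ [encode (v (Hs n) (c n), c n)] := fun n => rfl
  have hgood : ∀ n, pr x (b1_L A s (Hs n)).length = b1_L A s (Hs n) := by
    intro n
    induction n with
    | zero => exact hx 0
    | succ n ih => rw [hHs]; exact hv (Hs n) (c n) ih
  let b : ℕ → ℕ := fun n => encode (v (Hs n) (c n), c n)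
  have hb : ∀ n, (List.range n).map b = Hs n := by
    intro n
    induction n with
    | zero => rfl
    | succ n ih => rw [List.range_succ, List.map_append, ih, hHs]; rfl
  have hgL : ∀ n, gL A (play1 s b) n ++ mvI A (s (Hs n)) = b1_L A s (Hs n) := by
    intro n
    induction n with
    | zero => simp [gL, b1_L, Hs]
    | succ n ih =>
      rw [hHs, b1_L_snoc, ← ih, gL_succ, play1_even, play1_odd, hb]
      simp only [b, mvII_encode, List.append_assoc]
  refine ⟨b, ?_, ?_⟩
  · refine (lm_unique (gL_length (A := A) (play1 s b)) fun k => ?_).symm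
    refine pr_of_pfx (l' := b1_L A s (Hs k)) ?_ (hgood k)
    rw [← hgL]
    exact List.prefix_append _ _
  · funext n
    simp only [vv, play1_odd, b, mvII_encode]

end MC92
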