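import Pool.Agent.LibMC92.B1
import Pool.Agent.LibMC92.A3

/-!
B2: columns, parity, the decoding of the marked positions, the strategy of the second player.
-/

open Encodable

namespace MC92

/-! ### columns -/

/-- The parity of a column. -/
def xr {n : ℕ} (c : Fin n → Bool) : Bool := decide ((∑ j, (c j).toNat) % 2 = 1)

/-- Add an entry number `i` to a column such that the new parity is even. -/
def lft {k : ℕ} (i : Fin (k + 2)) (a : Fin (k + 1) → Bool) : Fin (k + 2) → Bool :=
  i.insertNth (α := fun _ => Bool) (xr a) a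

/-- Remove the entry number `i` of a column. -/
def prj {k : ℕ} (i : Fin (k + 2)) (c : Fin (k + 2) → Bool) : Fin (k + 1) → Bool :=
  fun j => c (i.succAbove j)

/-- The column with the first entry `b` and all other entries false. -/
def mrk {k : ℕ} (b : Bool) : Fin (k + 2) → Bool := fun j => if j = 0 then b else false

theorem prj_lft {k : ℕ} (i : Fin (k + 2)) (a : Fin (k + 1) → Bool) : prj i (lft i a) = a := by
  funext j
  simp [prj, lft]

theorem xr_lft {k : ℕ} (i : Fin (k + 2)) (a : Fin (k + 1) → Bool) : xr (lft i a) = false := by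
  unfold xr
  rw [Fin.sum_univ_succAbove _ i]
  have h1 : lft i a i = xr a := by simp [lft]
  have h2 : ∀ j, lft i a (i.succAbove j) = a j := fun j => by simp [lft]
  simp only [h1, h2]
  unfold xr
  rcases Nat.mod_two_eq_zero_or_one (∑ j, (a j).toNat) with h | h
  · rw [h]
    simp only [zero_ne_one, decide_false, Bool.toNat_false, zero_add, h]
  · rw [h]
    simp only [decide_true, Bool.toNat_true]
    rw [decide_eq_false_iff_not]
    omega

theorem xr_mrk {k : ℕ} (b : Bool) : xr (mrk (k := k) b) = b := by
  unfold xr mrk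
  rw [Finset.sum_eq_single (0 : Fin (k + 2))]
  · cases b <;> simp
  · intro j _ hj
    simp [hj]
  · intro h
    exact absurd (Finset.mem_univ _) h

/-! ### joins of finitely many reals -/

theorem joinF_apply {n : ℕ} (x : Fin (n + 1) → X) (j : Fin (n + 1)) (l : ℕ) :
    joinF x ((n + 1) * l + j) = x j l := by
  unfold joinF
  have h1 : Fin.ofNat (n + 1) ((n + 1) * l + j) = j := by
    ext
    simp [Fin.ofNat, Nat.mod_eq_of_lt j.2]
  have h2 : ((n + 1) * l + j) / (n + 1) = l := by
    rw [Nat.mul_add_div (Nat.succ_pos n), Nat.div_eq_of_lt j.2, Nat.add_zero]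
  rw [h1, h2]

theorem red_joinF {n : ℕ} (x : Fin (n + 1) → X) (j : Fin (n + 1)) : Red (x j) (joinF x) := by
  rw [red_iff]
  have h : ComputableIn {chi (joinF x)} fun l : ℕ => (n + 1) * l + (j : ℕ) :=
    (Primrec.nat_add.comp (Primrec.nat_mul.comp (Primrec.const (n + 1)) Primrec.id)
      (Primrec.const (j : ℕ))).computableIn
  exact ((comp_self (joinF x)).comp h).of_eq fun l => joinF_apply x j l

theorem comp_joinF {O : Set (ℕ →. ℕ)} {n : ℕ} {x : Fin (n + 1) → X}
    (h : ∀ j, ComputableIn O (x j)) : ComputableIn O (joinF x) := by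
  -- by cases on the residue, with finitely many cases
  have key : ∀ m : ℕ, ComputableIn O fun l : ℕ =>
      if l % (n + 1) < m then x (Fin.ofNat (n + 1) l) (l / (n + 1)) else false := by
    intro m
    induction m with
    | zero =>
      refine (ComputableIn.const (α := ℕ) (O := O) false).of_eq fun l => ?_
      simp
    | succ m ih =>
      have h1 : ComputableIn O fun l : ℕ => x (Fin.ofNat (n + 1) m) (l / (n + 1)) :=
        (h _).comp (Primrec.nat_div.comp Primrec.id (Primrec.const (n + 1))).computableIn
      have h2 : ComputableIn O fun l : ℕ => decide (l % (n + 1) = m) :=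
        (PrimrecPred.decide (Primrec.eq.comp
          (Primrec.nat_mod.comp Primrec.id (Primrec.const (n + 1)))
          (Primrec.const m))).computableIn
      refine (ComputableIn.cond h2 h1 ih).of_eq fun l => ?_
      by_cases hl : l % (n + 1) = m
      · have h3 : Fin.ofNat (n + 1) m = Fin.ofNat (n + 1) l := by
          ext
          simp [Fin.ofNat, ← hl]
        simp only [hl, decide_true, cond_true, h3, Nat.lt_succ_self, if_true]
      · simp only [hl, decide_false, cond_false]
        by_cases hl' : l % (n + 1) < m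
        · rw [if_pos hl', if_pos (by omega)]
        · rw [if_neg hl', if_neg (by omega)]
  refine (key (n + 1)).of_eq fun l => ?_
  rw [if_pos (Nat.mod_lt _ (Nat.succ_pos n))]
  rfl

theorem joinF_red {n : ℕ} {x : Fin (n + 1) → X} {z : X} (h : ∀ j, Red (x j) z) :
    Red (joinF x) z :=
  red_iff.2 (comp_joinF fun j => red_iff.1 (h j))

/-! ### decoding -/

theorem decode_marks {O : Set (ℕ →. ℕ)} {z x : X} {q : ℕ → ℕ} (hz : ComputableIn O z)
    (h0 : q 0 = 0) (h1 : ∀ T, q T + 2 ≤ q (T + 1)) (h2 : ∀ T, z (q T) = true)
    (h3 : ∀ T, z (q T + 1) = x T)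
    (h4 : ∀ T n, q T + 2 ≤ n → n < q (T + 1) → z n = false) : ComputableIn O x := by
  have hle : ∀ T, T ≤ q T := by
    intro T
    induction T with
    | zero => omega
    | succ T ih => have := h1 T; omega
  have hex : ∀ p : ℕ, ∃ n, (decide (p + 2 ≤ n) && z n) = true := fun p => by
    refine ⟨q (p + 2), ?_⟩
    rw [Bool.and_eq_true, decide_eq_true_eq]
    exact ⟨hle _, h2 _⟩
  have hp : ComputableIn₂ O fun (p n : ℕ) => (decide (p + 2 ≤ n) && z n) := by
    have ha : ComputableIn O fun r : ℕ × ℕ => decide (r.1 + 2 ≤ r.2) :=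
      (PrimrecPred.decide (Primrec.nat_le.comp
        (Primrec.nat_add.comp Primrec.fst (Primrec.const 2)) Primrec.snd)).computableIn
    exact ((Primrec.and.computableIn₂ (O := O))).comp ha (hz.comp ComputableIn.snd)
  have hf := ComputableIn.find hp hex
  have hq : ComputableIn O q := by
    refine (ComputableIn.nat_rec (σ := ℕ) (f := fun T : ℕ => T) (g := fun _ => 0)
      (h := fun (_ : ℕ) (r : ℕ × ℕ) => Nat.find (hex r.2)) ComputableIn.id
      (ComputableIn.const _) ?_).of_eq fun T => ?_
    · exact hf.comp (ComputableIn.snd.comp ComputableIn.snd)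
    · induction T with
      | zero => exact h0.symm
      | succ T ih =>
        simp only at ih ⊢
        rw [ih, Nat.find_eq_iff]
        constructor
        · rw [Bool.and_eq_true, decide_eq_true_eq]
          exact ⟨h1 T, h2 _⟩
        · intro n hn hcon
          rw [Bool.and_eq_true, decide_eq_true_eq] at hcon
          rw [h4 T n hcon.1 hn] at hcon
          exact absurd hcon.2 (by simp)
  refine (hz.comp ((Primrec.succ.computableIn (O := O)).comp hq)).of_eq fun T => ?_
  exact h3 T

theorem comp_xr {O : Set (ℕ →. ℕ)} {n : ℕ} {g : Fin n → X} (h : ∀ j, ComputableIn O (g j)) :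
    ComputableIn O fun l : ℕ => xr (fun j => g j l) := by
  have key : ∀ S : Finset (Fin n), ComputableIn O fun l : ℕ => ∑ j ∈ S, (g j l).toNat := by
    intro S
    induction S using Finset.induction_on with
    | empty => exact (ComputableIn.const 0).of_eq fun l => by simp
    | insert j S hj ih =>
      refine ((Primrec.nat_add.computableIn₂ (O := O)).comp (comp_nat (h j)) ih).of_eq
        fun l => ?_
      rw [Finset.sum_insert hj]
  have hd : Primrec fun s : ℕ => decide (s % 2 = 1) :=
    PrimrecPred.decide (Primrec.eq.comp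
      (Primrec.nat_mod.comp Primrec.id (Primrec.const 2)) (Primrec.const 1))
  exact (hd.computableIn (O := O)).comp (key Finset.univ)

/-! ### the strategy -/

variable {A : Type*} [Inhabited A] [Primcodable A] {m : MeasurableSpace (ℕ → ℕ)}

theorem continuous_vv : Continuous (vv A) :=
  continuous_of_local fun n => ⟨2 * n + 2, fun a b h => by
    simp only [vv]; rw [h (2 * n + 1) (by omega)]⟩

theorem b2_strategy (hm : Determinacy m) {F : (ℕ → A) → X}
    (hF : MMap m (fun a => F (gg A a))) :
    ∃ t : List ℕ → ℕ, ∀ a, F (gg A (play2 t a)) = vv A (play2 t a) := by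
  have hA : @MeasurableSet _ m {a | ¬ F (gg A a) = vv A a} :=
    @MeasurableSet.compl _ _ m (meas_eq hF (mmap_of_continuous hm continuous_vv))
  rcases hm.determined _ hA with ⟨s, hs⟩ | ⟨t, ht⟩
  · exfalso
    obtain ⟨x, hx⟩ := baireB (A := A) s
    obtain ⟨b, hb1, hb2⟩ := hx (F x)
    exact hs b (by rw [hb1, hb2])
  · exact ⟨t, fun a => by
      by_contra hcon
      exact ht a hcon⟩

end MC92
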