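import Pool.Agent.LibMC92.B2

/-!
B3: `k + 2` simultaneous plays against one strategy; the sum of the `k + 2` reals codes a given real.
-/

open Encodable

namespace MC92

/-- the code of a move of the first player. -/
def encI {A : Type*} [Inhabited A] [Primcodable A] (l : List A) : ℕ :=
  encode (l.dropLast, l.getLastD default)

theorem mvI_encI {A : Type*} [Inhabited A] [Primcodable A] {l : List A} (h : l ≠ []) :
    mvI A (encI l) = l := by
  have : l.getLastD default = l.getLast h := by
    cases l with
    | nil => exact absurd rfl h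
    | cons a l => rfl
  unfold mvI encI
  rw [encodek, Option.getD_some, this]
  exact List.dropLast_append_getLast h

/-- the string played against the strategy `t` when the moves of the first player are `H`. -/
def pL (A : Type*) [Inhabited A] [Primcodable A] (t : List ℕ → ℕ) (H : List ℕ) : List A :=
  (List.range H.length).flatMap fun j => mvI A (H.getD j 0) ++ (mvII A (t (H.take (j + 1)))).1

theorem pL_snoc {A : Type*} [Inhabited A] [Primcodable A] (t : List ℕ → ℕ) (H : List ℕ)
    (c : ℕ) : pL A t (H ++ [c]) = pL A t H ++ (mvI A c ++ (mvII A (t (H ++ [c]))).1) := by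
  unfold pL
  rw [List.length_append, List.length_singleton, List.range_succ, List.flatMap_append]
  have h1 : ((List.range H.length).flatMap fun j =>
      mvI A ((H ++ [c]).getD j 0) ++ (mvII A (t ((H ++ [c]).take (j + 1)))).1) =
      ((List.range H.length).flatMap fun j =>
        mvI A (H.getD j 0) ++ (mvII A (t (H.take (j + 1)))).1) := by
    refine List.flatMap_congr fun j hj => ?_
    have hj' := List.mem_range.1 hj
    rw [List.take_append_of_le_length (by omega), List.getD_append _ _ _ _ hj']
  rw [h1]
  have h2 : (H ++ [c]).take (H.length + 1) = H ++ [c] := by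
    rw [List.take_of_length_le (by simp)]
  have h3 : (H ++ [c]).getD H.length 0 = c := by simp
  simp only [List.flatMap_cons, List.flatMap_nil, List.append_nil, h2, h3]

theorem pL_play2 {A : Type*} [Inhabited A] [Primcodable A] (t : List ℕ → ℕ) (a : ℕ → ℕ)
    (n : ℕ) : gL A (play2 t a) n = pL A t ((List.range n).map a) := by
  induction n with
  | zero => rfl
  | succ n ih =>
    rw [gL_succ, ih, List.range_succ, List.map_append, List.map_singleton, pL_snoc,
      play2_even, play2_odd, List.range_succ, List.map_append, List.map_singleton]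

variable {k : ℕ}

/-- the states. -/
structure b3_St (k : ℕ) where
  G : List (Fin (k + 2) → Bool)
  H : Fin (k + 2) → List ℕ
  p : Fin (k + 2) → ℕ

/-- one turn of the play number `i`, with the bit `b` coded. -/
def b3_step (t : List ℕ → ℕ) (s : b3_St k) (i : Fin (k + 2)) (b : Bool) : b3_St k :=
  let G1 := s.G ++ [mrk true, mrk b]
  let c := encI ((G1.drop (s.p i)).map (prj i))
  let r := mvII (Fin (k + 1) → Bool) (t (s.H i ++ [c]))
  let G2 := G1 ++ r.1.map (lft i)
  ⟨G2, Function.update s.H i (s.H i ++ [c]), Function.update s.p i G2.length⟩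

/-- the sequence of states. -/
def b3_seq (k : ℕ) (t : List ℕ → ℕ) (x : X) : ℕ → b3_St k
  | 0 => ⟨[], fun _ => [], fun _ => 0⟩
  | T + 1 => b3_step t (b3_seq k t x T) (Fin.ofNat (k + 2) T) (x T)

theorem b3_seq_local (t : List ℕ → ℕ) {x x' : X} {T : ℕ} (h : ∀ i < T, x i = x' i) :
    b3_seq k t x T = b3_seq k t x' T := by
  induction T with
  | zero => rfl
  | succ T ih =>
    simp only [b3_seq]
    rw [ih fun i hi => h i (by omega), h T (by omega)]

/-- the invariant. -/
def b3_Inv (t : List ℕ → ℕ) (s : b3_St k) : Prop :=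
  ∀ i, s.p i ≤ s.G.length ∧
    pL (Fin (k + 1) → Bool) t (s.H i) = (s.G.take (s.p i)).map (prj i)

theorem b3_inv_step (t : List ℕ → ℕ) {s : b3_St k} (h : b3_Inv t s) (i : Fin (k + 2))
    (b : Bool) : b3_Inv t (b3_step t s i b) := by
  intro j
  by_cases hj : j = i
  · subst hj
    obtain ⟨h1, h2⟩ := h j
    have hp : (b3_step t s j b).p j = (b3_step t s j b).G.length := by
      simp [b3_step]
    refine ⟨hp.le, ?_⟩
    rw [hp, List.take_length]
    have hne : ((s.G ++ [mrk true, mrk b]).drop (s.p j)).map (prj j) ≠ [] := by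
      intro hcon
      have := congrArg List.length hcon
      simp only [List.length_map, List.length_drop, List.length_append, List.length_cons,
        List.length_nil] at this
      omega
    have hH : (b3_step t s j b).H j = s.H j ++
        [encI (((s.G ++ [mrk true, mrk b]).drop (s.p j)).map (prj j))] := by
      simp [b3_step]
    rw [hH, pL_snoc, mvI_encI hne, h2]
    have hG : (b3_step t s j b).G = s.G ++ [mrk true, mrk b] ++
        ((mvII (Fin (k + 1) → Bool) (t (s.H j ++
          [encI (((s.G ++ [mrk true, mrk b]).drop (s.p j)).map (prj j))]))).1).map (lft j) := rfl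
    rw [hG, List.map_append, List.map_map]
    have hid : (prj j ∘ lft j) = (id : (Fin (k + 1) → Bool) → _) := by
      funext a; exact prj_lft j a
    rw [hid, List.map_id, ← List.append_assoc, ← List.map_append]
    congr 2
    have : s.G.take (s.p j) = (s.G ++ [mrk true, mrk b]).take (s.p j) := by
      rw [List.take_append_of_le_length h1]
    rw [this, List.take_append_drop]
  · obtain ⟨h1, h2⟩ := h j
    have hp : (b3_step t s i b).p j = s.p j := by
      simp [b3_step, Function.update_of_ne hj]
    have hH : (b3_step t s i b).H j = s.H j := by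
      simp [b3_step, Function.update_of_ne hj]
    have hG : ∃ r, (b3_step t s i b).G = s.G ++ r := ⟨_, List.append_assoc _ _ _⟩
    obtain ⟨r, hr⟩ := hG
    rw [hp, hH, hr]
    refine ⟨by simp only [List.length_append]; omega, ?_⟩
    rw [h2, List.take_append_of_le_length h1]

/-- the final columns. -/
def b3_G (k : ℕ) (t : List ℕ → ℕ) (x : X) : ℕ → (Fin (k + 2) → Bool) :=
  lm fun T => (b3_seq k t x T).G

/-- the final moves of the first player in the play number `i`. -/
def b3_a (k : ℕ) (t : List ℕ → ℕ) (x : X) (i : Fin (k + 2)) : ℕ → ℕ :=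
  lm fun T => (b3_seq k t x ((k + 2) * T)).H i

theorem b3_G_pfx (t : List ℕ → ℕ) (x : X) (T : ℕ) :
    (b3_seq k t x T).G <+: (b3_seq k t x (T + 1)).G :=
  ⟨_, (List.append_assoc _ _ _).symm⟩

theorem b3_G_len (t : List ℕ → ℕ) (x : X) (T : ℕ) :
    (b3_seq k t x T).G.length + 2 ≤ (b3_seq k t x (T + 1)).G.length := by
  change _ ≤ ((b3_seq k t x T).G ++ [mrk true, mrk (x T)] ++ _).length
  simp only [List.length_append, List.length_cons, List.length_nil]
  omega

theorem b3_G_le (t : List ℕ → ℕ) (x : X) (T : ℕ) : T ≤ (b3_seq k t x T).G.length := by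
  induction T with
  | zero => omega
  | succ T ih => have := b3_G_len (k := k) t x T; omega

theorem b3_H_pfx (t : List ℕ → ℕ) (x : X) (i : Fin (k + 2)) (T : ℕ) :
    (b3_seq k t x T).H i <+: (b3_seq k t x (T + 1)).H i := by
  change _ <+: (Function.update (b3_seq k t x T).H _ _) i
  by_cases h : i = Fin.ofNat (k + 2) T
  · subst h
    rw [Function.update_self]
    exact List.prefix_append _ _
  · rw [Function.update_of_ne h]

theorem b3_H_len (t : List ℕ → ℕ) (x : X) (i : Fin (k + 2)) (T : ℕ) :
    T ≤ ((b3_seq k t x ((k + 2) * T)).H i).length := by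
  induction T with
  | zero => omega
  | succ T ih =>
    have h1 : ((b3_seq k t x ((k + 2) * T + i)).H i).length + 1 =
        ((b3_seq k t x ((k + 2) * T + i + 1)).H i).length := by
      change _ = ((Function.update (b3_seq k t x ((k + 2) * T + i)).H
        (Fin.ofNat (k + 2) ((k + 2) * T + i)) _) i).length
      have : Fin.ofNat (k + 2) ((k + 2) * T + i) = i := by
        ext
        simp [Fin.ofNat, Nat.mod_eq_of_lt i.2]
      rw [this, Function.update_self]
      simp
    have h2 := (pfx_le (T := fun T => (b3_seq k t x T).H i) (b3_H_pfx t x i)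
      (show (k + 2) * T ≤ (k + 2) * T + i by omega)).length_le
    have h3 := (pfx_le (T := fun T => (b3_seq k t x T).H i) (b3_H_pfx t x i)
      (show (k + 2) * T + i + 1 ≤ (k + 2) * (T + 1) by have := i.2; rw [Nat.mul_succ]; omega)).length_le
    omega

theorem b3_inv (t : List ℕ → ℕ) (x : X) (T : ℕ) : b3_Inv t (b3_seq k t x T) := by
  induction T with
  | zero =>
    intro i
    simp [b3_seq, pL]
  | succ T ih => exact b3_inv_step t ih _ _

theorem b3_G_spec (t : List ℕ → ℕ) (x : X) (T : ℕ) :
    pr (b3_G k t x) (b3_seq k t x T).G.length = (b3_seq k t x T).G :=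
  lm_spec (T := fun T => (b3_seq k t x T).G) (b3_G_pfx t x) (b3_G_le t x) T

theorem b3_a_spec (t : List ℕ → ℕ) (x : X) (i : Fin (k + 2)) (T : ℕ) :
    pr (b3_a k t x i) ((b3_seq k t x T).H i).length = (b3_seq k t x T).H i := by
  have h1 : ∀ T, (b3_seq k t x ((k + 2) * T)).H i <+: (b3_seq k t x ((k + 2) * (T + 1))).H i :=
    fun T => pfx_le (T := fun T => (b3_seq k t x T).H i) (b3_H_pfx t x i)
      (Nat.mul_le_mul_left _ (Nat.le_succ T))
  refine pr_of_pfx (l' := (b3_seq k t x ((k + 2) * T)).H i)
    (pfx_le (T := fun T => (b3_seq k t x T).H i) (b3_H_pfx t x i)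
      (Nat.le_mul_of_pos_left T (by omega))) ?_
  exact lm_spec (T := fun T => (b3_seq k t x ((k + 2) * T)).H i) h1 (b3_H_len t x i) T

/-- the sequence of the play number `i`. -/
theorem b3_play (t : List ℕ → ℕ) (x : X) (i : Fin (k + 2)) :
    gg (Fin (k + 1) → Bool) (play2 t (b3_a k t x i)) = fun n => prj i (b3_G k t x n) := by
  refine (lm_unique (gL_length (A := Fin (k + 1) → Bool) (play2 t (b3_a k t x i)))
    fun n => ?_).symm
  -- choose a large time
  obtain ⟨T, hT⟩ : ∃ T, n ≤ ((b3_seq k t x T).H i).length :=
    ⟨(k + 2) * n, b3_H_len t x i n⟩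
  have h1 : gL (Fin (k + 1) → Bool) (play2 t (b3_a k t x i)) n <+:
      gL (Fin (k + 1) → Bool) (play2 t (b3_a k t x i)) ((b3_seq k t x T).H i).length :=
    pfx_le (gL_pfx _) hT
  refine pr_of_pfx h1 ?_
  have h2 : gL (Fin (k + 1) → Bool) (play2 t (b3_a k t x i)) ((b3_seq k t x T).H i).length =
      ((b3_seq k t x T).G.take ((b3_seq k t x T).p i)).map (prj i) := by
    rw [pL_play2]
    have := b3_a_spec t x i T
    unfold pr at this
    rw [this]
    exact (b3_inv t x T i).2
  rw [h2]
  have h3 : (b3_seq k t x T).G.take ((b3_seq k t x T).p i) =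
      pr (b3_G k t x) ((b3_seq k t x T).p i) := by
    conv_lhs => rw [← b3_G_spec t x T]
    exact pr_take _ (b3_inv t x T i).1
  rw [h3, pr_map, pr_length]

/-! ### the marks -/

theorem b3_marks (t : List ℕ → ℕ) (x : X) (T : ℕ) :
    b3_G k t x (b3_seq k t x T).G.length = mrk true ∧
    b3_G k t x ((b3_seq k t x T).G.length + 1) = mrk (x T) ∧
    ∀ n, (b3_seq k t x T).G.length + 2 ≤ n → n < (b3_seq k t x (T + 1)).G.length →
      xr (b3_G k t x n) = false := by
  obtain ⟨r, hr⟩ : ∃ r : List (Fin (k + 1) → Bool), (b3_seq k t x (T + 1)).G =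
      (b3_seq k t x T).G ++ [mrk true, mrk (x T)] ++ r.map (lft (Fin.ofNat (k + 2) T)) :=
    ⟨_, rfl⟩
  have hspec := b3_G_spec (k := k) t x (T + 1)
  have hget : ∀ n, n < (b3_seq k t x (T + 1)).G.length →
      (b3_seq k t x (T + 1)).G[n]? = some (b3_G k t x n) := by
    intro n hn
    rw [← hspec, pr_getElem? _ hn]
  have hlen := b3_G_len (k := k) t x T
  refine ⟨?_, ?_, fun n hn hn' => ?_⟩
  · have h1 := hget (b3_seq k t x T).G.length (by omega)
    rw [hr, List.append_assoc, List.getElem?_append_right (le_refl _)] at h1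
    simpa using h1.symm
  · have h1 := hget ((b3_seq k t x T).G.length + 1) (by omega)
    rw [hr, List.append_assoc, List.getElem?_append_right (by omega)] at h1
    simpa using h1.symm
  · have h1 := hget n hn'
    rw [hr, List.getElem?_append_right (by simp; omega)] at h1
    rw [List.getElem?_map, Option.map_eq_some_iff] at h1
    obtain ⟨a, _, ha⟩ := h1
    rw [← ha, xr_lft]

/-! ### computability -/

theorem b3_comp (k : ℕ) (t : List ℕ → ℕ) : ∃ c : X, ∀ x : X,
    (∀ j, Red (fun n => b3_G k t x n j) (join c x)) ∧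
    ∀ i, ComputableIn {chi (join c x)} (play2 t (b3_a k t x i)) := by
  obtain ⟨c1, hc1⟩ := exists_code (fun p : (Fin (k + 2) × ℕ) × List Bool =>
    (((b3_seq k t (fun n => p.2.getD n false) p.2.length).G).getD p.1.2 default) p.1.1)
  obtain ⟨c2, hc2⟩ := exists_code (fun p : (Fin (k + 2) × ℕ) × List Bool =>
    (((b3_seq k t (fun n => p.2.getD n false) p.2.length).H p.1.1).getD p.1.2 default))
  obtain ⟨c3, hc3⟩ := exists_code t
  refine ⟨join c1 (join c2 c3), fun x => ?_⟩
  have hloc : ∀ T, b3_seq k t (fun n => (pre x T).getD n false) (pre x T).length =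
      b3_seq k t x T := by
    intro T
    rw [pre_length]
    exact b3_seq_local t fun i hi => pre_getD x hi false
  have r1 : Red c1 (join (join c1 (join c2 c3)) x) :=
    red_trans (red_join_left _ _) (red_join_left _ _)
  have r2 : Red c2 (join (join c1 (join c2 c3)) x) :=
    red_trans (red_join_left _ _) (red_trans (red_join_right _ _) (red_join_left _ _))
  have r3 : Red c3 (join (join c1 (join c2 c3)) x) :=
    red_trans (red_join_right _ _) (red_trans (red_join_right _ _) (red_join_left _ _))
  have hx : ComputableIn {chi (join (join c1 (join c2 c3)) x)} x :=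
    red_iff.1 (red_join_right _ _)
  refine ⟨fun j => ?_, fun i => ?_⟩
  · rw [red_iff]
    have h1 : ComputableIn {chi (join (join c1 (join c2 c3)) x)}
        (fun n : ℕ => ((j, n), pre x (n + 1))) :=
      ((Primrec.const j).pair Primrec.id).computableIn.pair
        ((comp_pre hx).comp Primrec.succ.computableIn)
    refine ((comp_mono r1 hc1).comp h1).of_eq fun n => ?_
    simp only
    rw [hloc]
    rfl
  · refine comp_play2 (comp_mono r3 hc3) ?_
    have h1 : ComputableIn {chi (join (join c1 (join c2 c3)) x)}
        (fun n : ℕ => ((i, n), pre x ((k + 2) * (n + 1)))) :=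
      ((Primrec.const i).pair Primrec.id).computableIn.pair
        ((comp_pre hx).comp (Primrec.nat_mul.comp (Primrec.const (k + 2))
          Primrec.succ).computableIn)
    refine ((comp_mono r2 hc2).comp h1).of_eq fun n => ?_
    simp only
    rw [hloc]
    rfl

end MC92
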