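import Pool.Agent.LibMC92.B3

/-!
B4: decomposition of every real on a cone; from local to global.
-/

open Encodable

namespace MC92

variable {m : MeasurableSpace (ℕ → ℕ)}

theorem comp_vv {A : Type*} [Inhabited A] [Primcodable A] {O : Set (ℕ →. ℕ)} {a : ℕ → ℕ}
    (ha : ComputableIn O a) : ComputableIn O (vv A a) := by
  have h1 : ComputableIn O fun n : ℕ => a (2 * n + 1) :=
    ha.comp (Primrec.succ.comp (Primrec.nat_mul.comp (Primrec.const 2) Primrec.id)).computableIn
  have h2 : Primrec (mvII A) :=
    Primrec.option_getD.comp (Primrec.decode (α := List A × Bool)) (Primrec.const ([], false))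
  exact ((Primrec.snd.comp h2).computableIn (O := O)).comp h1

theorem b4_cont (k : ℕ) (b : X) :
    Continuous fun a : ℕ → ℕ => join b (joinF fun (j : Fin (k + 1)) n =>
      gg (Fin (k + 1) → Bool) a n j) := by
  refine continuous_of_local fun n => ⟨2 * (n / 2 / (k + 1) + 1), fun a a' h => ?_⟩
  simp only [join]
  split
  · rfl
  · simp only [joinF, gg, lm]
    rw [gL_local (A := Fin (k + 1) → Bool) h]

/-- Every real on a cone is the join of `k + 2` reals above `b` such that `f` maps the joins of
`k + 1` of them below the given real. -/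
theorem decomposition (hm : Determinacy m) {f : X → X} (hf : Invariant f) (hfm : Meas m f)
    (k : ℕ) (b : X) : Cone fun x => ∃ y : Fin (k + 2) → X,
      (∀ j, Red b (y j) ∧ Red (y j) x) ∧ Red x (joinF y) ∧
      ∀ i : Fin (k + 2), Red (f (joinF fun j : Fin (k + 1) => y (i.succAbove j))) x := by
  obtain ⟨t, ht⟩ := b2_strategy (A := Fin (k + 1) → Bool) hm
    (F := fun g => f (join b (joinF fun (j : Fin (k + 1)) n => g n j)))
    (mmap_comp hm hfm (b4_cont k b))
  obtain ⟨c, hc⟩ := b3_comp k t
  refine ⟨join b c, fun x hx => ?_⟩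
  have hb : Red b x := red_trans (red_join_left _ _) hx
  have hcx : Red (join c x) x := join_red (red_trans (red_join_right _ _) hx) (red_refl x)
  obtain ⟨hG, hplay⟩ := hc x
  have hGx : ∀ j, Red (fun n => b3_G k t x n j) x := fun j => red_trans (hG j) hcx
  refine ⟨fun j => join b (fun n => b3_G k t x n j),
    fun j => ⟨red_join_left _ _, join_red hb (hGx j)⟩, ?_, fun i => ?_⟩
  · rw [red_iff]
    refine decode_marks (z := fun n => xr (b3_G k t x n))
      (q := fun T => (b3_seq k t x T).G.length) ?_ rfl (b3_G_len t x) (fun T => ?_)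
      (fun T => ?_) (fun T n h1 h2 => ?_)
    · refine comp_xr (g := fun j n => b3_G k t x n j) fun j => ?_
      rw [← red_iff]
      exact red_trans (red_join_right b _)
        (red_joinF (fun j => join b (fun n => b3_G k t x n j)) j)
    · rw [(b3_marks t x T).1, xr_mrk]
    · rw [(b3_marks t x T).2.1, xr_mrk]
    · exact (b3_marks t x T).2.2 n h1 h2
  · have h1 := ht (b3_a k t x i)
    rw [b3_play] at h1
    have h2 : Red (f (join b (joinF fun (j : Fin (k + 1)) n => prj i (b3_G k t x n) j))) x := by
      rw [h1]
      exact red_trans (red_iff.2 (comp_vv (hplay i))) hcx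
    refine red_trans (hf _ _ ?_ ?_) h2
    · refine joinF_red fun j => join_red (red_join_left _ _) ?_
      exact red_trans (red_joinF (fun (j : Fin (k + 1)) n => prj i (b3_G k t x n) j) j)
        (red_join_right _ _)
    · refine join_red ?_ (joinF_red fun j => ?_)
      · exact red_trans (red_join_left b (fun n => b3_G k t x n (i.succAbove 0)))
          (red_joinF (fun j : Fin (k + 1) => join b (fun n => b3_G k t x n (i.succAbove j))) 0)
      · exact red_trans (red_join_right b (fun n => b3_G k t x n (i.succAbove j)))
          (red_joinF (fun j : Fin (k + 1) => join b (fun n => b3_G k t x n (i.succAbove j))) j)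

/-- From local to global. -/
theorem local_to_global (hm : Determinacy m) {f J : X → X} (hf : Invariant f)
    (hfm : Meas m f) (hJ : ∀ z z', Red z z' → Red (J z) (J z')) (k : ℕ) (b : X)
    (h : ∀ y : Fin (k + 2) → X, (∀ j, Red b (y j)) →
      Red (f (joinF y)) (J (join (joinF y)
        (joinF fun i : Fin (k + 2) => f (joinF fun j : Fin (k + 1) => y (i.succAbove j)))))) :
    Cone fun x => Red (f x) (J x) := by
  refine cone_mono (decomposition hm hf hfm k b) fun x ⟨y, hy1, hy2, hy3⟩ => ?_
  have hyx : Red (joinF y) x := joinF_red fun j => (hy1 j).2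
  exact red_trans (hf _ _ hy2 hyx) (red_trans (h y fun j => (hy1 j).1)
    (hJ _ _ (join_red hyx (joinF_red hy3))))

end MC92
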