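import Pool.Agent.LibMC92.Basic

/-!
Prefixes and limits of lists over an arbitrary alphabet.
-/

namespace MC92

variable {A : Type*}

/-- The first `n` letters of `x`. -/
def pr (x : ℕ → A) (n : ℕ) : List A := (List.range n).map x

@[simp] theorem pr_length (x : ℕ → A) (n : ℕ) : (pr x n).length = n := by simp [pr]

theorem pr_succ (x : ℕ → A) (n : ℕ) : pr x (n + 1) = pr x n ++ [x n] := by
  simp [pr, List.range_succ]

theorem pr_getElem? (x : ℕ → A) {n i : ℕ} (h : i < n) : (pr x n)[i]? = some (x i) := by
  simp [pr, h]

theorem pr_take (x : ℕ → A) {m n : ℕ} (h : m ≤ n) : (pr x n).take m = pr x m := by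
  induction n with
  | zero => obtain rfl : m = 0 := by omega
            rfl
  | succ n ih =>
    rcases Nat.lt_or_ge n m with h' | h'
    · obtain rfl : m = n + 1 := by omega
      rw [List.take_of_length_le (by simp)]
    · rw [pr_succ, List.take_append_of_le_length (by simpa using h'), ih h']

theorem pr_map {B : Type*} (φ : A → B) (x : ℕ → A) (n : ℕ) :
    (pr x n).map φ = pr (fun i => φ (x i)) n := by
  simp [pr]

variable [Inhabited A]

theorem pr_getD (x : ℕ → A) {n i : ℕ} (h : i < n) (b : A) : (pr x n).getD i b = x i := by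
  simp [pr, h]

theorem pr_eq_of_getD {x : ℕ → A} {l : List A} (h : ∀ i < l.length, x i = l.getD i default) :
    pr x l.length = l := by
  refine List.ext_getElem? fun i => ?_
  rcases Nat.lt_or_ge i l.length with hi | hi
  · rw [pr_getElem? x hi, h i hi, List.getD_eq_getElem?_getD]
    simp [List.getElem?_eq_getElem hi]
  · rw [List.getElem?_eq_none (by simpa using hi), List.getElem?_eq_none hi]

/-- The limit of an increasing sequence of lists. -/
def lm (T : ℕ → List A) : ℕ → A := fun n => (T (n + 1)).getD n default

omit [Inhabited A] in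
theorem pfx_le {T : ℕ → List A} (h1 : ∀ k, T k <+: T (k + 1)) {j k : ℕ} (h : j ≤ k) :
    T j <+: T k := by
  induction k with
  | zero => obtain rfl : j = 0 := by omega
            exact List.prefix_rfl
  | succ k ih =>
    rcases Nat.lt_or_ge k j with h' | h'
    · obtain rfl : j = k + 1 := by omega
      exact List.prefix_rfl
    · exact (ih h').trans (h1 k)

theorem getD_pfx {l l' : List A} (h : l <+: l') {n : ℕ} (hn : n < l.length) :
    l.getD n default = l'.getD n default := by
  obtain ⟨s, rfl⟩ := h
  simp [List.getElem?_append_left hn]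

theorem lm_get {T : ℕ → List A} (h1 : ∀ k, T k <+: T (k + 1)) (h2 : ∀ k, k ≤ (T k).length)
    {k n : ℕ} (hn : n < (T k).length) : lm T n = (T k).getD n default := by
  unfold lm
  rcases Nat.le_total k (n + 1) with h | h
  · exact (getD_pfx (pfx_le h1 h) hn).symm
  · exact getD_pfx (pfx_le h1 h) (h2 (n + 1))

theorem lm_spec {T : ℕ → List A} (h1 : ∀ k, T k <+: T (k + 1))
    (h2 : ∀ k, k ≤ (T k).length) (k : ℕ) : pr (lm T) (T k).length = T k :=
  pr_eq_of_getD fun _ hi => lm_get h1 h2 hi

/-- A sequence with all the `T k` as initial segments is the limit. -/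
theorem lm_unique {T : ℕ → List A} (h2 : ∀ k, k ≤ (T k).length) {x : ℕ → A}
    (hx : ∀ k, pr x (T k).length = T k) : x = lm T := by
  funext n
  unfold lm
  rw [← pr_getD x (h2 (n + 1)) default, hx (n + 1)]

omit [Inhabited A] in
theorem pr_of_pfx {h : ℕ → A} {l l' : List A} (hl : l <+: l') (h' : pr h l'.length = l') :
    pr h l.length = l := by
  have h1 := List.prefix_iff_eq_take.1 hl
  rw [← pr_take h hl.length_le, h']
  exact h1.symm

/-! ### the Banach-Mazur game with witness bits -/

variable [Primcodable A]

/-- a move of the first player: a nonempty string. -/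
def mvI (A : Type*) [Primcodable A] [Inhabited A] (n : ℕ) : List A :=
  (((Encodable.decode n : Option (List A × A))).getD ([], default)).1 ++
    [(((Encodable.decode n : Option (List A × A))).getD ([], default)).2]

/-- a move of the second player: a string and a bit. -/
def mvII (A : Type*) [Primcodable A] [Inhabited A] (n : ℕ) : List A × Bool :=
  ((Encodable.decode n : Option (List A × Bool))).getD ([], false)

theorem mvI_ne (n : ℕ) : mvI A n ≠ [] := by simp [mvI]

theorem mvI_length (n : ℕ) : 1 ≤ (mvI A n).length := by simp [mvI]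

theorem exists_mvI {l : List A} (h : l ≠ []) : ∃ n, mvI A n = l := by
  refine ⟨Encodable.encode (l.dropLast, l.getLast h), ?_⟩
  simp [mvI, Encodable.encodek, List.dropLast_append_getLast]

theorem mvII_encode (v : List A × Bool) : mvII A (Encodable.encode v) = v := by
  simp [mvII, Encodable.encodek]

/-- the strings played in `k` rounds. -/
def gL (A : Type*) [Primcodable A] [Inhabited A] (a : ℕ → ℕ) (k : ℕ) : List A :=
  (List.range k).flatMap fun i => mvI A (a (2 * i)) ++ (mvII A (a (2 * i + 1))).1

/-- the sequence played. -/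
def gg (A : Type*) [Primcodable A] [Inhabited A] (a : ℕ → ℕ) : ℕ → A := lm (gL A a)

/-- the bits of the second player. -/
def vv (A : Type*) [Primcodable A] [Inhabited A] (a : ℕ → ℕ) : X :=
  fun i => (mvII A (a (2 * i + 1))).2

theorem gL_succ (a : ℕ → ℕ) (k : ℕ) :
    gL A a (k + 1) = gL A a k ++ (mvI A (a (2 * k)) ++ (mvII A (a (2 * k + 1))).1) := by
  simp [gL, List.range_succ]

theorem gL_pfx (a : ℕ → ℕ) (k : ℕ) : gL A a k <+: gL A a (k + 1) :=
  ⟨_, (gL_succ a k).symm⟩

theorem gL_length (a : ℕ → ℕ) (k : ℕ) : k ≤ (gL A a k).length := by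
  induction k with
  | zero => simp
  | succ k ih =>
    rw [gL_succ]
    have := mvI_length (A := A) (a (2 * k))
    simp only [List.length_append]
    omega

theorem gL_local {a b : ℕ → ℕ} {k : ℕ} (h : ∀ i < 2 * k, a i = b i) : gL A a k = gL A b k := by
  induction k with
  | zero => rfl
  | succ k ih =>
    rw [gL_succ, gL_succ, ih fun i hi => h i (by omega), h (2 * k) (by omega),
      h (2 * k + 1) (by omega)]

theorem gg_spec (a : ℕ → ℕ) (k : ℕ) : pr (gg A a) (gL A a k).length = gL A a k :=
  lm_spec (gL_pfx a) (gL_length a) k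

end MC92
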