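import Mathlib

/-!
Relativized computability: closure properties of `RecursiveIn O` and `ComputableIn O`,
the relativized versions of the lemmas of Mathlib's `Computability/Partrec.lean`.
-/

open Encodable Denumerable Primrec Nat.Partrec Part

namespace Nat.RecursiveIn

variable {O : Set (ℕ →. ℕ)}

protected theorem some : Nat.RecursiveIn O some :=
  Nat.Partrec.some.recursiveIn

theorem prec' {f g h : ℕ →. ℕ} (hf : Nat.RecursiveIn O f) (hg : Nat.RecursiveIn O g)
    (hh : Nat.RecursiveIn O h) :
    Nat.RecursiveIn O fun a => (f a).bind fun n => n.rec (g a)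
      fun y IH => do {let i ← IH; h (Nat.pair a (Nat.pair y i))} :=
  ((prec hg hh).comp (pair Nat.RecursiveIn.some hf)).of_eq fun a =>
    ext fun s => by simp [Seq.seq]

theorem ppred : Nat.RecursiveIn O fun n => Nat.ppred n :=
  Nat.Partrec.ppred.recursiveIn

end Nat.RecursiveIn

namespace ComputableIn

variable {α : Type*} {β : Type*} {γ : Type*} {σ : Type*}
variable [Primcodable α] [Primcodable β] [Primcodable γ] [Primcodable σ]
variable {O : Set (ℕ →. ℕ)}

theorem of_eq {f g : α → σ} (hf : ComputableIn O f) (H : ∀ n, f n = g n) : ComputableIn O g :=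
  (funext H : f = g) ▸ hf

theorem ofOption {f : α → Option β} (hf : ComputableIn O f) :
    RecursiveIn O fun a => (f a : Part β) :=
  (Nat.RecursiveIn.ppred.comp hf).of_eq fun n => by
    rcases decode (α := α) n with - | a <;> simp
    cases f a <;> simp

theorem to₂ {f : α × β → σ} (hf : ComputableIn O f) : ComputableIn₂ O fun a b => f (a, b) :=
  hf.of_eq fun ⟨_, _⟩ => rfl

nonrec theorem pair {f : α → β} {g : α → γ} (hf : ComputableIn O f) (hg : ComputableIn O g) :
    ComputableIn O fun a => (f a, g a) :=
  (hf.pair hg).of_eq fun n => by cases decode (α := α) n <;> simp [Seq.seq]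

theorem encode_iff {f : α → σ} : (ComputableIn O fun a => encode (f a)) ↔ ComputableIn O f :=
  Iff.rfl

end ComputableIn

namespace RecursiveIn

variable {α : Type*} {β : Type*} {σ : Type*} [Primcodable α] [Primcodable β] [Primcodable σ]
variable {O : Set (ℕ →. ℕ)}

open ComputableIn

protected theorem bind {f : α →. β} {g : α → β →. σ} (hf : RecursiveIn O f)
    (hg : RecursiveIn₂ O g) :
    RecursiveIn O fun a => (f a).bind (g a) :=
  (hg.comp (Nat.RecursiveIn.some.pair hf)).of_eq fun n => by
    rcases e : decode (α := α) n with - | a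
    · simp [Seq.seq, e]
    · simp [Seq.seq, e, encodek]
      try exact (Part.map_bind _ _ _).symm

theorem map {f : α →. β} {g : α → β → σ} (hf : RecursiveIn O f) (hg : ComputableIn₂ O g) :
    RecursiveIn O fun a => (f a).map (g a) := by
  simpa [bind_some_eq_map] using RecursiveIn.bind (g := fun a x => some (g a x)) hf hg

theorem to₂ {f : α × β →. σ} (hf : RecursiveIn O f) : RecursiveIn₂ O fun a b => f (a, b) :=
  hf.of_eq fun ⟨_, _⟩ => rfl

theorem nat_rec {f : α → ℕ} {g : α →. σ} {h : α → ℕ × σ →. σ} (hf : ComputableIn O f)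
    (hg : RecursiveIn O g) (hh : RecursiveIn₂ O h) :
    RecursiveIn O fun a => (f a).rec (g a) fun y IH => IH.bind fun i => h a (y, i) :=
  (Nat.RecursiveIn.prec' hf hg hh).of_eq fun n => by
    rcases e : decode (α := α) n with - | a
    · simp
    · simp only [coe_some, PFun.coe_val, bind_some]
      induction f a <;> simp_all

nonrec theorem comp {f : β →. σ} {g : α → β} (hf : RecursiveIn O f) (hg : ComputableIn O g) :
    RecursiveIn O fun a => f (g a) :=
  (hf.comp hg).of_eq fun n => by
    simp only [PFun.coe_val, map_some, bind_eq_bind]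
    rcases e : decode (α := α) n with - | a <;> simp [encodek]

theorem map_encode_iff {f : α →. σ} : (RecursiveIn O fun a => (f a).map encode) ↔ RecursiveIn O f :=
  Iff.rfl

end RecursiveIn

namespace RecursiveIn₂

variable {α : Type*} {β : Type*} {γ : Type*} {δ : Type*} {σ : Type*}
variable [Primcodable α] [Primcodable β] [Primcodable γ] [Primcodable δ] [Primcodable σ]
variable {O : Set (ℕ →. ℕ)}

nonrec theorem comp {f : β → γ →. σ} {g : α → β} {h : α → γ} (hf : RecursiveIn₂ O f)
    (hg : ComputableIn O g) (hh : ComputableIn O h) : RecursiveIn O fun a => f (g a) (h a) :=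
  hf.comp (hg.pair hh)

theorem comp₂ {f : γ → δ →. σ} {g : α → β → γ} {h : α → β → δ} (hf : RecursiveIn₂ O f)
    (hg : ComputableIn₂ O g) (hh : ComputableIn₂ O h) :
    RecursiveIn₂ O fun a b => f (g a b) (h a b) :=
  hf.comp hg hh

end RecursiveIn₂

namespace ComputableIn

variable {α : Type*} {β : Type*} {γ : Type*} {σ : Type*}
variable [Primcodable α] [Primcodable β] [Primcodable γ] [Primcodable σ]
variable {O : Set (ℕ →. ℕ)}

nonrec theorem comp {f : β → σ} {g : α → β} (hf : ComputableIn O f) (hg : ComputableIn O g) :
    ComputableIn O fun a => f (g a) :=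
  hf.comp hg

theorem comp₂ {f : γ → σ} {g : α → β → γ} (hf : ComputableIn O f) (hg : ComputableIn₂ O g) :
    ComputableIn₂ O fun a b => f (g a b) :=
  hf.comp hg

end ComputableIn

namespace ComputableIn₂

variable {α : Type*} {β : Type*} {γ : Type*} {δ : Type*} {σ : Type*}
variable [Primcodable α] [Primcodable β] [Primcodable γ] [Primcodable δ] [Primcodable σ]
variable {O : Set (ℕ →. ℕ)}

nonrec theorem comp {f : β → γ → σ} {g : α → β} {h : α → γ} (hf : ComputableIn₂ O f)
    (hg : ComputableIn O g) (hh : ComputableIn O h) : ComputableIn O fun a => f (g a) (h a) :=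
  hf.comp (hg.pair hh)

theorem comp₂ {f : γ → δ → σ} {g : α → β → γ} {h : α → β → δ} (hf : ComputableIn₂ O f)
    (hg : ComputableIn₂ O g) (hh : ComputableIn₂ O h) :
    ComputableIn₂ O fun a b => f (g a b) (h a b) :=
  hf.comp hg hh

end ComputableIn₂

theorem Computable₂.computableIn₂ {α β σ : Type*} [Primcodable α] [Primcodable β] [Primcodable σ]
    {O : Set (ℕ →. ℕ)} {f : α → β → σ} (hf : Computable₂ f) : ComputableIn₂ O f :=
  Computable.computableIn hf

namespace RecursiveIn

variable {α : Type*} {σ : Type*} [Primcodable α] [Primcodable σ]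
variable {O : Set (ℕ →. ℕ)}

open ComputableIn

theorem rfind {p : α → ℕ →. Bool} (hp : RecursiveIn₂ O p) :
    RecursiveIn O fun a => Nat.rfind (p a) :=
  (Nat.RecursiveIn.rfind <|
        RecursiveIn.map hp ((Primrec.dom_bool fun b => cond b 0 1).comp
          Primrec.snd).to₂.computableIn₂).of_eq
    fun n => by
    rcases e : decode (α := α) n with - | a
    · simp [e]
      try exact Nat.rfind_zero_none _ rfl
    · simp [e, map_map, map_id']

theorem rfindOpt {f : α → ℕ → Option σ} (hf : ComputableIn₂ O f) :
    RecursiveIn O fun a => Nat.rfindOpt (f a) :=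
  (rfind (ComputableIn.comp Primrec.option_isSome.computableIn hf).to₂.recursiveIn₂).bind
    (ofOption hf)

theorem nat_casesOn_right {f : α → ℕ} {g : α → σ} {h : α → ℕ →. σ} (hf : ComputableIn O f)
    (hg : ComputableIn O g) (hh : RecursiveIn₂ O h) :
    RecursiveIn O fun a => (f a).casesOn (some (g a)) (h a) :=
  (nat_rec hf hg (RecursiveIn₂.comp hh ComputableIn.fst
    (Primrec.pred.computableIn.comp <| hf.comp ComputableIn.fst)).to₂).of_eq fun a => by
    simp only [PFun.coe_val, Nat.pred_eq_sub_one]
    rcases f a with - | n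
    · simp
    · refine ext fun b => ⟨fun H => ?_, fun H => ?_⟩
      · rcases mem_bind_iff.1 H with ⟨c, _, h₂⟩
        exact h₂
      · have : ∀ m, (Nat.rec (motive := fun _ => Part σ)
            (Part.some (g a)) (fun y IH => IH.bind fun _ => h a n) m).Dom := by
          intro m
          induction m <;> simp [*, H.fst]
        exact ⟨⟨this n, H.fst⟩, H.snd⟩

end RecursiveIn

namespace ComputableIn

variable {α : Type*} {β : Type*} {γ : Type*} {σ : Type*}
variable [Primcodable α] [Primcodable β] [Primcodable γ] [Primcodable σ]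
variable {O : Set (ℕ →. ℕ)}

theorem option_some_iff {f : α → σ} :
    (ComputableIn O fun a => Option.some (f a)) ↔ ComputableIn O f :=
  ⟨fun h => encode_iff.1 <| Primrec.pred.computableIn.comp <| encode_iff.2 h,
    Primrec.option_some.computableIn.comp⟩

theorem nat_rec {f : α → ℕ} {g : α → σ} {h : α → ℕ × σ → σ} (hf : ComputableIn O f)
    (hg : ComputableIn O g) (hh : ComputableIn₂ O h) :
    ComputableIn O fun a => Nat.rec (motive := fun _ => σ) (g a) (fun y IH => h a (y, IH)) (f a) :=
  (RecursiveIn.nat_rec hf hg hh.recursiveIn₂).of_eq fun a => by simp; induction f a <;> simp [*]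

theorem nat_casesOn {f : α → ℕ} {g : α → σ} {h : α → ℕ → σ} (hf : ComputableIn O f)
    (hg : ComputableIn O g) (hh : ComputableIn₂ O h) :
    ComputableIn O fun a => Nat.casesOn (motive := fun _ => σ) (f a) (g a) (h a) :=
  nat_rec hf hg (ComputableIn₂.comp hh ComputableIn.fst
    (ComputableIn.fst.comp ComputableIn.snd)).to₂

theorem cond {c : α → Bool} {f : α → σ} {g : α → σ} (hc : ComputableIn O c)
    (hf : ComputableIn O f) (hg : ComputableIn O g) :
    ComputableIn O fun a => cond (c a) (f a) (g a) :=
  (nat_casesOn (encode_iff.2 hc) hg (hf.comp ComputableIn.fst).to₂).of_eq fun a => by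
    cases c a <;> rfl

end ComputableIn

namespace ComputableIn

variable {α : Type*} {β : Type*} {γ : Type*} {σ : Type*}
variable [Primcodable α] [Primcodable β] [Primcodable γ] [Primcodable σ]
variable {O : Set (ℕ →. ℕ)}

theorem map_decode_of {f : α → β → σ} (hf : ComputableIn₂ O f) :
    ComputableIn₂ O fun a n => (decode (α := β) n).map (f a) := by
  have :
    RecursiveIn O fun a : α × ℕ =>
      (encode (decode (α := β) a.2)).casesOn (some Option.none)
        fun n => Part.map (fun b => Option.some (f a.1 b)) (decode (α := β) n) :=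
    RecursiveIn.nat_casesOn_right
      (h := fun (a : α × ℕ) (n : ℕ) ↦
        map (fun b ↦ Option.some (f a.1 b)) (Part.ofOption (decode n)))
      ((Primrec.encdec (α := β)).computableIn.comp ComputableIn.snd)
      (ComputableIn.const Option.none)
      (RecursiveIn.map (g := fun (p : (α × ℕ) × ℕ) b => Option.some (f p.1.1 b))
        (ofOption ((Primrec.decode (α := β)).computableIn.comp ComputableIn.snd))
        (Primrec.option_some.computableIn.comp
          (ComputableIn₂.comp hf
            (ComputableIn.fst.comp <| ComputableIn.fst.comp ComputableIn.fst)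
            ComputableIn.snd)).to₂)
  refine RecursiveIn.of_eq this fun a => ?_
  simp; cases decode (α := β) a.2 <;> simp [encodek]

theorem option_casesOn {o : α → Option β} {f : α → σ} {g : α → β → σ} (ho : ComputableIn O o)
    (hf : ComputableIn O f) (hg : ComputableIn₂ O g) :
    @ComputableIn _ σ _ _ O fun a => Option.casesOn (o a) (f a) (g a) :=
  option_some_iff.1 <|
    (nat_casesOn (encode_iff.2 ho) (option_some_iff.2 hf) (map_decode_of hg)).of_eq fun a => by
      cases o a <;> simp [encodek]

theorem option_bind {f : α → Option β} {g : α → β → Option σ} (hf : ComputableIn O f)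
    (hg : ComputableIn₂ O g) : ComputableIn O fun a => (f a).bind (g a) :=
  (option_casesOn hf (ComputableIn.const Option.none) hg).of_eq fun a => by cases f a <;> rfl

theorem option_map {f : α → Option β} {g : α → β → σ} (hf : ComputableIn O f)
    (hg : ComputableIn₂ O g) : ComputableIn O fun a => (f a).map (g a) :=
  (option_bind (g := fun a b => Option.some (g a b)) hf
    (Primrec.option_some.computableIn.comp hg)).of_eq fun a => by
    cases f a <;> rfl

theorem option_getD {f : α → Option β} {g : α → β} (hf : ComputableIn O f)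
    (hg : ComputableIn O g) : ComputableIn O fun a => (f a).getD (g a) :=
  (option_casesOn hf hg (show ComputableIn₂ O fun _ b => b from ComputableIn.snd)).of_eq
    fun a => by cases f a <;> rfl

/-- `n ↦ (List.range n).map (f a)` is computable relative to `O` if `f` is. -/
theorem list_range_map {f : α → ℕ → σ} {n : α → ℕ} (hf : ComputableIn₂ O f)
    (hn : ComputableIn O n) : ComputableIn O fun a => (List.range (n a)).map (f a) :=
  (nat_rec (h := fun a (p : ℕ × List σ) => p.2 ++ [f a p.1]) hn (ComputableIn.const [])
    ((Primrec.list_concat.computableIn₂ (O := O)).comp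
      (ComputableIn.snd.comp ComputableIn.snd)
      (ComputableIn₂.comp hf ComputableIn.fst (ComputableIn.fst.comp ComputableIn.snd))).to₂).of_eq
    fun a => by
      induction n a with
      | zero => rfl
      | succ n ih => simp [List.range_succ, ih]

/-- unbounded search with a total answer is computable relative to `O`. -/
theorem find {p : α → ℕ → Bool} (hp : ComputableIn₂ O p) (h : ∀ a, ∃ n, p a n = true) :
    ComputableIn O fun a => Nat.find (h a) :=
  RecursiveIn.of_eq (RecursiveIn.rfind hp.recursiveIn₂) fun a => by
    refine Part.eq_some_iff.2 ?_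
    rw [Nat.mem_rfind]
    refine ⟨?_, fun {m} hm => ?_⟩
    · simpa using Nat.find_spec (h a)
    · simpa using Nat.find_min (h a) hm

/-- search through a total option-valued function. -/
theorem findOpt {f : α → ℕ → Option σ} {g : α → σ} (hf : ComputableIn₂ O f)
    (h1 : ∀ a, ∃ n, (f a n).isSome = true) (h2 : ∀ a n b, f a n = Option.some b → b = g a) :
    ComputableIn O g :=
  RecursiveIn.of_eq (RecursiveIn.rfindOpt hf) fun a => by
    refine Part.eq_some_iff.2 ?_
    obtain ⟨n, hn⟩ := h1 a
    obtain ⟨b, hb⟩ := Option.isSome_iff_exists.1 hn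
    have hd : (Nat.rfindOpt (f a)).Dom := Nat.rfindOpt_dom.2 ⟨n, b, hb⟩
    obtain ⟨m, hm⟩ := Nat.rfindOpt_spec (Part.get_mem hd)
    have := h2 a m _ hm
    rw [← this]
    exact Part.get_mem hd

end ComputableIn
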