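import Pool.Agent.LibMC92.DefsW
import Pool.Agent.LibMC92.Rel

/-!
Basic facts on `Red`, `join`, `Cone`, codes of strategies.
-/

open Encodable

namespace MC92

theorem chi_eq (x : X) :
    (fun n => Part.bind ((decode (α := ℕ) n : Option ℕ) : Part ℕ)
      fun a => (Part.some (x a)).map encode) = chi x := by
  funext n
  simp only [decode_nat, Part.coe_some, Part.bind_some, Part.map_some, chi]
  cases x n <;> rfl

theorem red_iff {x y : X} : Red x y ↔ ComputableIn {chi y} x := by
  unfold Red TuringReducible
  rw [RecursiveIn.iff_nat]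
  unfold ComputableIn RecursiveIn
  rw [chi_eq]

theorem red_refl (x : X) : Red x x := TuringReducible.refl _

theorem red_trans {x y z : X} (h : Red x y) (h' : Red y z) : Red x z :=
  TuringReducible.trans h h'

theorem comp_self (x : X) : ComputableIn {chi x} x := red_iff.1 (red_refl x)

variable {α : Type*} {σ : Type*} [Primcodable α] [Primcodable σ]

theorem comp_mono {x y : X} {f : α → σ} (h : Red x y) (hf : ComputableIn {chi x} f) :
    ComputableIn {chi y} f :=
  RecursiveIn.subst hf (by
    intro g hg
    rw [Set.mem_singleton_iff.1 hg]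
    exact h)

theorem comp_pre {x : X} {O : Set (ℕ →. ℕ)} (hx : ComputableIn O x) : ComputableIn O (pre x) :=
  ComputableIn.list_range_map (f := fun (_ : ℕ) n => x n) (n := fun n => n)
    (ComputableIn.comp hx ComputableIn.snd) ComputableIn.id

theorem comp_bits {O : Set (ℕ →. ℕ)} {a : ℕ → ℕ} (ha : ComputableIn O a) :
    ComputableIn O (bits a) := by
  have h : Primrec fun n : ℕ => (n != 0) := by
    have : Primrec fun n : ℕ => decide (n ≠ 0) :=
      (PrimrecPred.not (Primrec.eq.comp Primrec.id (Primrec.const 0))).decide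
    refine this.of_eq fun n => ?_
    by_cases h : n = 0 <;> simp [h]
  exact ComputableIn.comp (f := fun n : ℕ => (n != 0)) (g := a) h.computableIn ha

theorem comp_nat {O : Set (ℕ →. ℕ)} {x : X} (hx : ComputableIn O x) :
    ComputableIn O (fun n => (x n).toNat) :=
  ((Primrec.encode (α := Bool)).computableIn.comp hx).of_eq fun n => by cases x n <;> rfl

theorem prim_even : PrimrecPred fun n : ℕ => n % 2 = 0 :=
  Primrec.eq.comp (Primrec.nat_mod.comp Primrec.id (Primrec.const 2)) (Primrec.const 0)

theorem comp_even {O : Set (ℕ →. ℕ)} {f g : ℕ → σ} (hf : ComputableIn O f)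
    (hg : ComputableIn O g) :
    ComputableIn O fun n => if n % 2 = 0 then f (n / 2) else g (n / 2) := by
  have h2 : ComputableIn O fun n : ℕ => n / 2 :=
    (Primrec.nat_div.comp Primrec.id (Primrec.const 2)).computableIn
  have hc : ComputableIn O fun n : ℕ => decide (n % 2 = 0) := prim_even.decide.computableIn
  refine (ComputableIn.cond hc (hf.comp h2) (hg.comp h2)).of_eq fun n => ?_
  by_cases h : n % 2 = 0 <;> simp [h]

theorem join_red {x y z : X} (hx : Red x z) (hy : Red y z) : Red (join x y) z :=
  red_iff.2 (comp_even (red_iff.1 hx) (red_iff.1 hy))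

theorem red_join_left (x y : X) : Red x (join x y) := by
  rw [red_iff]
  have h : ComputableIn {chi (join x y)} fun n : ℕ => 2 * n :=
    (Primrec.nat_mul.comp (Primrec.const 2) Primrec.id).computableIn
  refine ((comp_self (join x y)).comp h).of_eq fun n => ?_
  simp [join]

theorem red_join_right (x y : X) : Red y (join x y) := by
  rw [red_iff]
  have h : ComputableIn {chi (join x y)} fun n : ℕ => 2 * n + 1 :=
    (Primrec.succ.comp (Primrec.nat_mul.comp (Primrec.const 2) Primrec.id)).computableIn
  refine ((comp_self (join x y)).comp h).of_eq fun n => ?_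
  have h1 : (2 * n + 1) % 2 ≠ 0 := by omega
  have h2 : (2 * n + 1) / 2 = n := by omega
  simp only [join, h1, if_false, h2]

theorem join_mono {x y x' y' : X} (hx : Red x x') (hy : Red y y') :
    Red (join x y) (join x' y') :=
  join_red (red_trans hx (red_join_left _ _)) (red_trans hy (red_join_right _ _))

theorem join_even (x y : X) (n : ℕ) : join x y (2 * n) = x n := by simp [join]

theorem join_odd (x y : X) (n : ℕ) : join x y (2 * n + 1) = y n := by
  have h1 : (2 * n + 1) % 2 ≠ 0 := by omega
  have h2 : (2 * n + 1) / 2 = n := by omega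
  simp only [join, h1, if_false, h2]

/-- countable sets of reals are bounded. -/
theorem exists_bound (x : ℕ → X) : ∃ c : X, ∀ i, Red (x i) c := by
  refine ⟨fun n => x n.unpair.1 n.unpair.2, fun i => ?_⟩
  rw [red_iff]
  have h : ComputableIn {chi (fun n => x n.unpair.1 n.unpair.2)} fun n : ℕ => Nat.pair i n :=
    (Primrec₂.natPair.comp (Primrec.const i) Primrec.id).computableIn
  refine ((comp_self _).comp h).of_eq fun n => ?_
  simp

/-- every total function between codable types is computable from a real. -/
theorem exists_code (s : α → σ) : ∃ c : X, ComputableIn {chi c} s := by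
  classical
  refine ⟨fun n => decide (∃ a, n.unpair.1 = encode a ∧ n.unpair.2 = encode (s a)), ?_⟩
  set c : X := fun n => decide (∃ a, n.unpair.1 = encode a ∧ n.unpair.2 = encode (s a)) with hc
  let f : α → ℕ → Option σ := fun a m => cond (c (Nat.pair (encode a) m)) (decode m) none
  have hf : ComputableIn₂ {chi c} f := by
    refine ComputableIn.cond ((comp_self c).comp ?_) ?_ (ComputableIn.const none)
    · exact (Primrec₂.natPair.comp (Primrec.encode.comp Primrec.fst) Primrec.snd).computableIn
    · exact (Primrec.decode.comp Primrec.snd).computableIn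
  refine ComputableIn.findOpt hf (fun a => ⟨encode (s a), ?_⟩) (fun a n b hb => ?_)
  · have : c (Nat.pair (encode a) (encode (s a))) = true := by
      simp only [hc, Nat.unpair_pair, decide_eq_true_eq]
      exact ⟨a, rfl, rfl⟩
    simp [f, this]
  · by_cases h : c (Nat.pair (encode a) n) = true
    · have h' : f a n = decode n := by simp only [f, h, cond_true]
      rw [h'] at hb
      simp only [hc, Nat.unpair_pair, decide_eq_true_eq] at h
      obtain ⟨a', ha', hn⟩ := h
      have := encode_injective ha'
      subst this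
      rw [hn, encodek] at hb
      exact (Option.some_injective _ hb).symm
    · have h' : f a n = none := by
        simp only [f, Bool.not_eq_true] at h ⊢
        simp [h]
      rw [h'] at hb
      cases hb

theorem comp_play1 {O : Set (ℕ →. ℕ)} {s : List ℕ → ℕ} {b : ℕ → ℕ} (hs : ComputableIn O s)
    (hb : ComputableIn O b) : ComputableIn O (play1 s b) :=
  comp_even (f := fun k => s ((List.range k).map b)) (g := b)
    (hs.comp (ComputableIn.list_range_map (f := fun (_ : ℕ) n => b n) (n := fun n => n)
      (ComputableIn.comp hb ComputableIn.snd) ComputableIn.id)) hb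

theorem comp_play2 {O : Set (ℕ →. ℕ)} {t : List ℕ → ℕ} {a : ℕ → ℕ} (ht : ComputableIn O t)
    (ha : ComputableIn O a) : ComputableIn O (play2 t a) :=
  comp_even (f := a) (g := fun k => t ((List.range (k + 1)).map a))
    ha (ht.comp (ComputableIn.list_range_map (f := fun (_ : ℕ) n => a n) (n := fun n => n + 1)
      (ComputableIn.comp ha ComputableIn.snd) ComputableIn.succ))

theorem play1_even (s : List ℕ → ℕ) (b : ℕ → ℕ) (n : ℕ) :
    play1 s b (2 * n) = s ((List.range n).map b) := by simp [play1]

theorem play1_odd (s : List ℕ → ℕ) (b : ℕ → ℕ) (n : ℕ) : play1 s b (2 * n + 1) = b n := by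
  have h1 : (2 * n + 1) % 2 ≠ 0 := by omega
  have h2 : (2 * n + 1) / 2 = n := by omega
  simp only [play1, h1, if_false, h2]

theorem play2_even (t : List ℕ → ℕ) (a : ℕ → ℕ) (n : ℕ) : play2 t a (2 * n) = a n := by
  simp [play2]

theorem play2_odd (t : List ℕ → ℕ) (a : ℕ → ℕ) (n : ℕ) :
    play2 t a (2 * n + 1) = t ((List.range (n + 1)).map a) := by
  have h1 : (2 * n + 1) % 2 ≠ 0 := by omega
  have h2 : (2 * n + 1) / 2 = n := by omega
  simp only [play2, h1, if_false, h2]

theorem bits_toNat (x : X) : bits (fun n => (x n).toNat) = x := by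
  funext n; simp only [bits]; cases x n <;> rfl

theorem cone_mono {P Q : X → Prop} (h : Cone P) (hPQ : ∀ x, P x → Q x) : Cone Q :=
  h.imp fun _ hc x hx => hPQ x (hc x hx)

theorem cone_of {P : X → Prop} (h : ∀ x, P x) : Cone P := ⟨fun _ => false, fun x _ => h x⟩

theorem cone_above (c : X) : Cone (fun x => Red c x) := ⟨c, fun _ h => h⟩

theorem cone_forall {P : ℕ → X → Prop} (h : ∀ i, Cone (P i)) : Cone (fun x => ∀ i, P i x) := by
  choose c hc using h
  obtain ⟨d, hd⟩ := exists_bound c
  exact ⟨d, fun x hx i => hc i x (red_trans (hd i) hx)⟩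

theorem cone_and {P Q : X → Prop} (hP : Cone P) (hQ : Cone Q) : Cone (fun x => P x ∧ Q x) := by
  obtain ⟨c, hc⟩ := hP
  obtain ⟨d, hd⟩ := hQ
  exact ⟨join c d, fun x hx =>
    ⟨hc x (red_trans (red_join_left _ _) hx), hd x (red_trans (red_join_right _ _) hx)⟩⟩

theorem cone_exists {P : X → Prop} (h : Cone P) (b : X) : ∃ x, Red b x ∧ P x := by
  obtain ⟨c, hc⟩ := h
  exact ⟨join b c, red_join_left _ _, hc _ (red_join_right _ _)⟩

end MC92
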