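import Pool.Agent.LibMC92.SplitDefs

/-!
D1: the first player's moves can be decoded from `xx` and the strategy of the second player.
-/

open Encodable

namespace MC92

theorem primrec_seg : Primrec seg :=
  (Primrec.option_getD.comp
    (Primrec.decode (α := List Bool × Bool)) (Primrec.const ([], false)))

/-- the moves and the position, decoded step by step. -/
def d1_S (t : List ℕ → ℕ) (x : X) (k : ℕ) : List ℕ × ℕ :=
  Nat.rec (motive := fun _ => List ℕ × ℕ) ([], 0)
    (fun _ q => (q.1 ++ [(x q.2).toNat],
      q.2 + 1 + (seg (t (q.1 ++ [(x q.2).toNat]))).1.length)) k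

theorem d1_comp {O : Set (ℕ →. ℕ)} {t : List ℕ → ℕ} {x : X} (ht : ComputableIn O t)
    (hx : ComputableIn O x) : ComputableIn O (d1_S t x) := by
  refine ComputableIn.nat_rec (σ := List ℕ × ℕ) (f := fun k : ℕ => k) (g := fun _ => ([], 0))
    (h := fun (_ : ℕ) (r : ℕ × (List ℕ × ℕ)) => (r.2.1 ++ [(x r.2.2).toNat],
      r.2.2 + 1 + (seg (t (r.2.1 ++ [(x r.2.2).toNat]))).1.length))
    ComputableIn.id (ComputableIn.const _) ?_
  have hl : ComputableIn O fun r : ℕ × (ℕ × (List ℕ × ℕ)) =>
      r.2.2.1 ++ [(x r.2.2.2).toNat] := by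
    refine (Primrec.list_concat.computableIn₂ (O := O)).comp ?_ ?_
    · exact (Primrec.fst.comp (Primrec.snd.comp Primrec.snd)).computableIn
    · exact (comp_nat hx).comp (Primrec.snd.comp (Primrec.snd.comp Primrec.snd)).computableIn
  refine hl.pair ?_
  refine (Primrec.nat_add.computableIn₂ (O := O)).comp ?_ ?_
  · exact (Primrec.succ.comp (Primrec.snd.comp (Primrec.snd.comp Primrec.snd))).computableIn
  · exact ((Primrec.list_length.comp (Primrec.fst.comp primrec_seg)).computableIn (O := O)).comp
      (ht.comp hl)

theorem d1_S_eq {t : List ℕ → ℕ} {y : X} (k : ℕ) :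
    d1_S t (xx (play2 t (fun n => (y n).toNat))) k =
      ((List.range k).map (fun n => (y n).toNat),
        (xL (play2 t (fun n => (y n).toNat)) k).length) := by
  set a := play2 t (fun n => (y n).toNat) with ha
  induction k with
  | zero => rfl
  | succ k ih =>
    have hx : xx a (xL a k).length = y k := by
      have h1 := xx_pre a (k + 1)
      rw [xL_succ, List.append_cons] at h1
      have h2 := (pre_append_iff.1 h1).1
      have h3 := (pre_append_singleton.1 h2).2
      rw [h3, ha, play2_even]
      cases y k <;> rfl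
    have hstep : d1_S t (xx a) (k + 1) = ((d1_S t (xx a) k).1 ++
        [(xx a (d1_S t (xx a) k).2).toNat], (d1_S t (xx a) k).2 + 1 +
        (seg (t ((d1_S t (xx a) k).1 ++ [(xx a (d1_S t (xx a) k).2).toNat]))).1.length) := rfl
    rw [hstep, ih]
    simp only [hx]
    have hr : (List.range k).map (fun n => (y n).toNat) ++ [(y k).toNat] =
        (List.range (k + 1)).map (fun n => (y n).toNat) := by
      simp [List.range_succ]
    rw [hr]
    refine Prod.ext rfl ?_
    simp only
    rw [xL_succ, ha, play2_odd]
    simp only [List.length_append, List.length_cons]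
    omega

theorem decodeD {O : Set (ℕ →. ℕ)} {t : List ℕ → ℕ} {y : X} (ht : ComputableIn O t)
    (hx : ComputableIn O (xx (play2 t (fun n => (y n).toNat)))) : ComputableIn O y := by
  set a := play2 t (fun n => (y n).toNat) with ha
  have h1 : ComputableIn O fun k => xx a (d1_S t (xx a) k).2 :=
    hx.comp (ComputableIn.snd.comp (d1_comp ht hx))
  refine h1.of_eq fun k => ?_
  rw [ha, d1_S_eq, ← ha]
  have h1 := xx_pre a (k + 1)
  rw [xL_succ, List.append_cons] at h1
  have h2 := (pre_append_iff.1 h1).1
  have h3 := (pre_append_singleton.1 h2).2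
  simp only
  rw [h3, ha, play2_even]
  cases y k <;> rfl

/-- the bits `cc` of a play are computable from the play. -/
theorem comp_cc {O : Set (ℕ →. ℕ)} {a : ℕ → ℕ} (ha : ComputableIn O a) :
    ComputableIn O (cc a) := by
  have h1 : ComputableIn O fun n : ℕ => a (2 * n + 1) :=
    ha.comp (Primrec.succ.comp (Primrec.nat_mul.comp (Primrec.const 2) Primrec.id)).computableIn
  exact ((Primrec.snd.comp primrec_seg).computableIn (O := O)).comp h1

end MC92
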