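import Pool.Agent.LibMC92.Defs

/-!
Prefixes of reals and the enumeration of the reals computable from a real.
-/

namespace MC92

/-- The first `n` bits of `x`. -/
def pre (x : X) (n : ℕ) : List Bool := (List.range n).map x

/-- The bit coded by the outcome of a computation: `0` means no answer. -/
def dec : ℕ → Option Bool
  | 0 => none
  | 1 => some false
  | (_ + 2) => some true

/-- Enumeration of the partial functions computable from `w`: the answer of the functional number
`c` at `k` that is found from `w` within the bound `s`, if any. -/
def W (w : X) (c k s : ℕ) : Option Bool :=
  (List.range s).findSome? fun m =>
    (Nat.Partrec.Code.evaln m.unpair.2 (Denumerable.ofNat Nat.Partrec.Code c)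
      (Nat.pair (Encodable.encode (pre w m.unpair.1)) k)).bind dec

end MC92
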