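import Pool.Agent.LibMC92.A3

/-!
E1: effective versions: perfect set game, splitting scheme, encoder; every real on a cone is generated
by four values of a nonconstant function and a parameter.
-/

open Encodable

namespace MC92

/-! ### the encoder -/

theorem e1_seq_local (P : List Bool → ℕ) (s0 : g2_St) (m : g2_St → Bool → Bool → Bool → ℕ)
    {z z' : X} {t : ℕ} (h : ∀ i < t, z i = z' i) :
    g2_seq P s0 m z t = g2_seq P s0 m z' t := by
  induction t with
  | zero => rfl
  | succ t ih =>
    simp only [g2_seq]
    rw [ih fun i hi => h i (by omega), h t (by omega)]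

/-- the limit of lists obtained from prefixes by a function computable in `O`. -/
theorem e1_lim {O : Set (ℕ →. ℕ)} {T : List Bool → List Bool} {z : X} (hT : ComputableIn O T)
    (hz : ComputableIn O z) (g : ℕ → ℕ) (hg : Primrec g) :
    ComputableIn O (lim fun k => T (pre z (g k))) := by
  have h1 : ComputableIn O fun n : ℕ => T (pre z (g (n + 1))) :=
    hT.comp ((comp_pre hz).comp (hg.comp Primrec.succ).computableIn)
  have h2 : ComputableIn O fun n : ℕ => (T (pre z (g (n + 1))))[n]? :=
    (Primrec.list_getElem?.computableIn₂ (O := O)).comp h1 ComputableIn.id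
  refine (h2.option_getD (ComputableIn.const false)).of_eq fun n => ?_
  simp only [lim, List.getD_eq_getElem?_getD]

variable {V : ℕ → ℕ → Option Bool} {E : X → X} {P : List Bool → ℕ}

theorem encoder_eff (hS : Split E P)
    (hV : ∀ ρ : List Bool, ∃ c, ∀ k, V c k = some (E (ext0 ρ) k)) :
    ∃ w : X, ∀ z : X, ∃ h : Bool → Bool → X, (∀ v i, Red (h v i) (join w z)) ∧
      Coded V (E (h false false)) (E (h false true)) (E (h true false)) (E (h true true)) z := by
  choose m hm1 hm2 hm3 using g2_step hS hV
  obtain ⟨N0, hN0⟩ := g2_first hV fun _ => []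
  obtain ⟨L0, hL0⟩ := g2_second V E (fun _ => []) N0
  let s0 : g2_St := ⟨N0, L0, fun _ _ => []⟩
  -- the nodes as a function of the prefix of `z`
  let T : Bool → Bool → List Bool → List Bool := fun v i l =>
    (g2_seq P s0 m (fun n => l.getD n false) l.length).ν v i
  obtain ⟨w, hw⟩ := exists_code (fun p : (Bool × Bool) × List Bool => T p.1.1 p.1.2 p.2)
  refine ⟨w, fun z => ?_⟩
  set st := g2_seq P s0 m z with hst
  have hTst : ∀ v i t, T v i (pre z t) = (st t).ν v i := by
    intro v i t
    simp only [T, pre_length]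
    rw [e1_seq_local P s0 m (z := fun n => (pre z t).getD n false) (z' := z)
      fun i hi => pre_getD z hi false]
  have hst1 : ∀ t, st (t + 1) = g2_nxt P (st t) t.bodd (m (st t) t.bodd (z t)) := fun t => rfl
  have hinv : ∀ t i, g2_Inv V E (st t).N (st t).L ((st t).ν t.bodd i) := by
    intro t i
    cases t with
    | zero => exact ⟨hN0 N0 le_rfl i, hL0 L0 le_rfl i⟩
    | succ t =>
      have h1 : (t + 1).bodd ≠ t.bodd := by
        rw [Nat.bodd_succ]
        cases t.bodd <;> simp
      rw [hst1, g2_nu_ne P _ h1, Nat.bodd_succ]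
      exact hm3 (st t) t.bodd (z t) i
  have hpre : ∀ v i t, (st t).ν v i <+: (st (t + 1)).ν v i := fun v i t =>
    g2_prefix P _ _ _ v i
  have hlen : ∀ v i t, t ≤ 2 * ((st t).ν v i).length + 1 := by
    intro v i t
    have := g2_length P s0 m z v i t
    rw [← hst] at this
    split_ifs at this <;> omega
  let h : Bool → Bool → X := fun v i => lim fun k => T v i (pre z (2 * k))
  have hh : ∀ v i t, pre (h v i) ((st t).ν v i).length = (st t).ν v i := by
    intro v i t
    have h0 : h v i = lim fun k => (st (2 * k)).ν v i := by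
      simp only [h, hTst]
    rw [h0]
    have h1 : ∀ k, (st (2 * k)).ν v i <+: (st (2 * (k + 1))).ν v i := fun k =>
      prefix_le (T := fun t => (st t).ν v i) (hpre v i) (by omega)
    have h2 : ∀ k, k ≤ ((st (2 * k)).ν v i).length := by
      intro k
      have := hlen v i (2 * k)
      omega
    exact g2_pre_of_prefix
      (prefix_le (T := fun t => (st t).ν v i) (hpre v i) (show t ≤ 2 * t by omega))
      (lim_spec (T := fun k => (st (2 * k)).ν v i) h1 h2 t)
  have hcomp : ∀ v i, Red (h v i) (join w z) := by
    intro v i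
    rw [red_iff]
    refine e1_lim (T := T v i) (z := z) ?_ (red_iff.1 (red_join_right w z)) (fun k => 2 * k)
      (Primrec.nat_mul.comp (Primrec.const 2) Primrec.id)
    exact ComputableIn.comp (g := fun l : List Bool => ((v, i), l))
      (comp_mono (red_join_left w z) hw)
      ((Primrec.const (v, i)).pair Primrec.id).computableIn
  have key : ∀ t i, Step V (st t).N (st t).L (E (h t.bodd i))
      (g2_pos P (st t) t.bodd (m (st t) t.bodd (z t)) i) := by
    intro t i
    obtain ⟨⟨c0, hc0, hc0'⟩, hr⟩ := hinv t i
    have h1 := hh t.bodd i (t + 1)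
    rw [hst1, g2_nu_eq] at h1
    obtain ⟨h2, h3⟩ := depart hS h1
    exact hit_unique hc0 hc0' hr (hm1 (st t) t.bodd (z t) i) h2 h3
  refine ⟨h, hcomp, fun t => (st t).N,
    fun t => (st t).L, fun t => g2_pos P (st t) t.bodd (m (st t) t.bodd (z t)) false,
    fun t => g2_pos P (st t) t.bodd (m (st t) t.bodd (z t)) true, fun t => ?_⟩
  have hb : ∀ i, (if t % 2 = 0 then E (h false i) else E (h true i)) = E (h t.bodd i) := by
    intro i
    rw [Nat.mod_two_of_bodd]
    cases t.bodd <;> simp
  refine ⟨?_, ?_, rfl, rfl, hm2 (st t) t.bodd (z t)⟩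
  · rw [hb]
    exact key t false
  · rw [hb]
    exact key t true

theorem gs_coding_eff (hS : Split E P) {w : X} (hw : ∀ ρ : List Bool, Red (E (ext0 ρ)) w) :
    ∃ c : X, ∀ z : X, ∃ h : Bool → Bool → X, (∀ v i, Red (h v i) (join c z)) ∧
      Red z (join w (join (join (E (h false false)) (E (h false true)))
        (join (E (h true false)) (E (h true true))))) := by
  obtain ⟨c, hc⟩ := encoder_eff (V := Vlim w) hS (fun ρ => by
    obtain ⟨c, hc⟩ := W_complete (hw ρ)
    exact ⟨c, fun k => Vlim_iff.2 (hc k)⟩)
  refine ⟨c, fun z => ?_⟩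
  obtain ⟨h, h1, h2⟩ := hc z
  exact ⟨h, h1, decoder h2⟩

/-! ### the splitting scheme -/

theorem exists_split_eff {e : X → X} (he : Continuous e) (hi : Function.Injective e) :
    ∃ E P, Split E P ∧ ∃ c : X, ∀ h, ∃ h', E h = e h' ∧ Red h' (join c h) := by
  choose nxt hn1 hn2 hn3 using p1_next he hi
  let T : List Bool → List Bool := fun ρ => ρ.foldl nxt []
  have hT : ∀ ρ b, T (ρ ++ [b]) = nxt (T ρ) b := fun ρ b => by
    simp [T, List.foldl_append]
  let L : X → ℕ → List Bool := fun h k => T (pre h k)
  have hL : ∀ h k, L h (k + 1) = nxt (L h k) (h k) := fun h k => by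
    simp only [L, pre_succ, hT]
  have hL1 : ∀ h k, L h k <+: L h (k + 1) := fun h k => by
    rw [hL]; exact hn1 _ _
  have hL2 : ∀ h k, k ≤ (L h k).length := by
    intro h k
    induction k with
    | zero => omega
    | succ k ih =>
      rw [hL]
      have := hn2 (L h k) (h k)
      omega
  have hcyl : ∀ h k, p1_cyl (L h k) (lim (L h)) := fun h k => lim_spec (hL1 h) (hL2 h) k
  obtain ⟨c, hc⟩ := exists_code T
  refine ⟨fun h => e (lim (L h)), fun ρ => p1_D hi (T ρ), ⟨?_, ?_⟩, c, fun h => ⟨_, rfl, ?_⟩⟩
  · have hval : ∀ h n, e (lim (L h)) (p1_D hi (T (pre h n))) = h n := by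
      intro h n
      have := hcyl h (n + 1)
      rw [hL] at this
      exact hn3 _ _ _ this
    intro h h' n hpre hne
    rw [hval h n, hpre, hval h' n]
    exact hne
  · intro h h' n hpre i hi'
    refine p1_D_min hi (T (pre h n)) hi' (hcyl h n) ?_
    rw [hpre]
    exact hcyl h' n
  · rw [red_iff]
    exact e1_lim (T := T) (z := h) (comp_mono (red_join_left c h) hc)
      (red_iff.1 (red_join_right c h)) (fun k => k) Primrec.id

/-! ### the perfect set game -/

theorem comp_zz {O : Set (ℕ →. ℕ)} {a : ℕ → ℕ} (ha : ComputableIn O a) :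
    ComputableIn O (zz a) := by
  have h1 : ComputableIn O fun n : ℕ => a (2 * n) :=
    ha.comp (Primrec.nat_mul.comp (Primrec.const 2) Primrec.id).computableIn
  exact ((Primrec.snd.comp primrec_seg).computableIn (O := O)).comp h1

theorem e1_ne_zero : Primrec fun n : ℕ => (n != 0) := by
  have : Primrec fun n : ℕ => decide (n ≠ 0) :=
    (PrimrecPred.not (Primrec.eq.comp Primrec.id (Primrec.const 0))).decide
  refine this.of_eq fun n => ?_
  by_cases h : n = 0 <;> simp [h]

theorem comp_oo {O : Set (ℕ →. ℕ)} {a : ℕ → ℕ} (ha : ComputableIn O a) :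
    ComputableIn O (oo a) := by
  have h1 : ComputableIn O fun n : ℕ => a (2 * n) :=
    ha.comp (Primrec.nat_mul.comp (Primrec.const 2) Primrec.id).computableIn
  have h2 : ComputableIn O fun n : ℕ => a (2 * n + 1) :=
    ha.comp (Primrec.succ.comp (Primrec.nat_mul.comp (Primrec.const 2) Primrec.id)).computableIn
  have hL : ComputableIn O (oL a) := by
    refine (ComputableIn.nat_rec (σ := List Bool) (f := fun k : ℕ => k) (g := fun _ => [])
      (h := fun (_ : ℕ) (r : ℕ × List Bool) =>
        r.2 ++ ((seg (a (2 * r.1))).1 ++ [a (2 * r.1 + 1) != 0]))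
      ComputableIn.id (ComputableIn.const _) ?_).of_eq fun k => ?_
    · refine (Primrec.list_append.computableIn₂ (O := O)).comp
        (Primrec.snd.comp Primrec.snd).computableIn ?_
      refine (Primrec.list_concat.computableIn₂ (O := O)).comp ?_ ?_
      · exact ((Primrec.fst.comp primrec_seg).computableIn (O := O)).comp
          (h1.comp (Primrec.fst.comp Primrec.snd).computableIn)
      · exact (e1_ne_zero.computableIn (O := O)).comp
          (h2.comp (Primrec.fst.comp Primrec.snd).computableIn)
    · induction k with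
      | zero => rfl
      | succ k ih => rw [oL_succ, ← ih]
  have h3 : ComputableIn O fun n : ℕ => (oL a (n + 1))[n]? :=
    (Primrec.list_getElem?.computableIn₂ (O := O)).comp
      (hL.comp Primrec.succ.computableIn) ComputableIn.id
  refine (h3.option_getD (ComputableIn.const false)).of_eq fun n => ?_
  simp only [oo, lim, List.getD_eq_getElem?_getD]

variable {m : MeasurableSpace (ℕ → ℕ)}

theorem psp_eff (hm : Determinacy m) {g : X → X} (hg : Meas m g) :
    (∃ R : ℕ → X, ∀ z, ∃ i, g z = R i) ∨
      ∃ e : X → X, Continuous e ∧ Function.Injective e ∧ ∃ c : X, ∀ x, Red (e x) (join c x) ∧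
        ∃ z, e x = g z ∧ Red z (join c x) := by
  have hA : @MeasurableSet _ m {a | g (zz a) = oo a} :=
    meas_eq (F := fun a => g (zz a)) (G := oo) (mmap_comp hm hg continuous_zz)
      (mmap_of_continuous hm continuous_oo)
  rcases hm.determined _ hA with ⟨s, hs⟩ | ⟨t, ht⟩
  · right
    obtain ⟨c, hc⟩ := exists_code s
    have hcomp : ∀ x, ComputableIn {chi (join c x)} (q1_a s x) := fun x =>
      comp_play1 (comp_mono (red_join_left c x) hc)
        (comp_nat (red_iff.1 (red_join_right c x)))
    obtain ⟨e, he, hi, hex⟩ := psp_I_explicit hs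
    refine ⟨e, he, hi, c, fun x => ⟨?_, zz (q1_a s x), ?_, ?_⟩⟩
    · rw [hex x]
      exact red_iff.2 (comp_oo (hcomp x))
    · rw [hex x]; exact (hs _).symm
    · exact red_iff.2 (comp_zz (hcomp x))
  · exact Or.inl (psp_II ht)

/-! ### the theorem -/

theorem e1_ext0_comp (O : Set (ℕ →. ℕ)) (ρ : List Bool) : ComputableIn O (ext0 ρ) := by
  have h : Primrec fun n : ℕ => (ρ[n]?).getD false :=
    Primrec.option_getD.comp (Primrec.list_getElem?.comp (Primrec.const ρ) Primrec.id)
      (Primrec.const false)
  exact h.computableIn.of_eq fun n => by simp [ext0]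

/-- Let `f` be invariant and not constant on a cone.  For every `b` there is `s` such that for every
upper bound `w` of the values of `f` on the interval from `b` to `s`, every real `y` on a cone is
computable from `w` and four values of `f` at points `u` between `b` and `y` with `f u` below `y`. -/
theorem four_values (hm : Determinacy m) {f : X → X} (hf : Invariant f) (hfm : Meas m f)
    (hnc : ¬ ∃ d, Cone (fun x => Red (f x) d ∧ Red d (f x))) (b : X) :
    ∃ s : X, Red b s ∧ ∀ w : X, (∀ u, Red b u → Red u s → Red (f u) w) →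
      Cone fun y => ∃ u : Bool → Bool → X,
        (∀ v i, Red b (u v i) ∧ Red (u v i) y ∧ Red (f (u v i)) y) ∧
        Red y (join w (join (join (f (u false false)) (f (u false true)))
          (join (f (u true false)) (f (u true true))))) := by
  rcases psp_eff hm (meas_join_const hm hfm b) with ⟨R, hR⟩ | ⟨e, he, hi, c, hc⟩
  · exfalso
    refine hnc (count_const hm hf hfm R (cone_mono (cone_above b) fun y hy => ?_))
    obtain ⟨i, hi⟩ := hR y
    have e1 : Red (join b y) y := join_red hy (red_refl y)
    have e2 : Red y (join b y) := red_join_right b y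
    refine ⟨i, ?_⟩
    rw [← hi]
    exact ⟨hf _ _ e2 e1, hf _ _ e1 e2⟩
  · obtain ⟨E, P, hS, c2, hc2⟩ := exists_split_eff he hi
    choose H hE hHr using hc2
    choose Z hZ hZr using fun x => (hc x).2
    have hfe : ∀ h, E h = f (join b (Z (H h))) := fun h => by rw [hE, hZ]
    refine ⟨join b (join c c2), red_join_left _ _, fun w hw => ?_⟩
    have hw' : ∀ ρ : List Bool, Red (E (ext0 ρ)) w := fun ρ => by
      rw [hfe]
      refine hw _ (red_join_left _ _) (join_mono (red_refl b) ?_)
      refine red_trans (hZr _) (join_mono (red_refl c) ?_)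
      refine red_trans (hHr _) (join_red (red_refl c2) ?_)
      rw [red_iff]
      exact e1_ext0_comp _ ρ
    obtain ⟨c3, hc3⟩ := gs_coding_eff hS hw'
    refine ⟨join b (join c (join c2 c3)), fun y hy => ?_⟩
    have k2 : Red b y := red_trans (red_join_left _ _) hy
    have k3 : Red c y := red_trans (red_join_left _ _) (red_trans (red_join_right _ _) hy)
    have k4 : Red (join c2 c3) y :=
      red_trans (red_join_right _ _) (red_trans (red_join_right _ _) hy)
    have k5 : Red c2 y := red_trans (red_join_left _ _) k4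
    have k6 : Red c3 y := red_trans (red_join_right _ _) k4
    obtain ⟨h, h1, h2⟩ := hc3 y
    have h1' : ∀ v i, Red (h v i) y := fun v i =>
      red_trans (h1 v i) (join_red k6 (red_refl y))
    have h'y : ∀ v i, Red (H (h v i)) y := fun v i =>
      red_trans (hHr _) (join_red k5 (h1' v i))
    have hzy : ∀ v i, Red (Z (H (h v i))) y := fun v i =>
      red_trans (hZr _) (join_red k3 (h'y v i))
    refine ⟨fun v i => join b (Z (H (h v i))),
      fun v i => ⟨red_join_left _ _, join_red k2 (hzy v i), ?_⟩, ?_⟩
    · rw [← hfe, hE]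
      exact red_trans (hc (H (h v i))).1 (join_red k3 (h'y v i))
    · rw [← hfe, ← hfe, ← hfe, ← hfe]
      exact h2

end MC92
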