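import Pool.Agent.LibMC92.P1

/-!
G1: one step of the coding (the decoder can find the departure).
-/

namespace MC92

variable {V : ℕ → ℕ → Option Bool} {E : X → X} {P : List Bool → ℕ}

theorem g1_hit_inj {V : ℕ → ℕ → Option Bool} {c : ℕ} {r : X} {k k' : ℕ} (h : Hit V c r k)
    (h' : Hit V c r k') : k = k' := by
  rcases lt_trichotomy k k' with hlt | heq | hlt
  · have h1 := h'.1 k hlt
    rw [h.2] at h1
    have := Option.some_injective _ h1
    cases hr : r k <;> simp [hr] at this
  · exact heq
  · have h1 := h.1 k' hlt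
    rw [h'.2] at h1
    have := Option.some_injective _ h1
    cases hr : r k' <;> simp [hr] at this

theorem hit_bound (V : ℕ → ℕ → Option Bool) (r : X) (N : ℕ) :
    ∃ B, ∀ c ≤ N, ∀ k, Hit V c r k → k < B := by
  have h : ∀ c, ∃ B, ∀ k, Hit V c r k → k < B := by
    intro c
    by_cases hc : ∃ k, Hit V c r k
    · obtain ⟨k, hk⟩ := hc
      exact ⟨k + 1, fun k' hk' => by rw [g1_hit_inj hk' hk]; omega⟩
    · exact ⟨0, fun k hk => absurd ⟨k, hk⟩ hc⟩
  choose B hB using h
  refine ⟨(Finset.range (N + 1)).sup B, fun c hc k hk => ?_⟩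
  exact lt_of_lt_of_le (hB c k hk) (Finset.le_sup (f := B) (Finset.mem_range.2 (by omega)))

theorem hit_unique {r y : X} {N L p c0 : ℕ} (hc0 : c0 ≤ N) (hV : ∀ k, V c0 k = some (r k))
    (hr : ∀ c ≤ N, ∀ k, Hit V c r k → k < L) (hL : L ≤ p) (hagree : ∀ j < p, y j = r j)
    (hne : y p ≠ r p) : Step V N L y p := by
  have hneg : r p = ! y p := by
    cases h1 : y p <;> cases h2 : r p <;> simp_all
  refine ⟨hL, ⟨c0, hc0, fun j hj => by rw [hV, hagree j hj], by rw [hV, hneg]⟩, ?_⟩
  intro c hc k hk hit
  rcases lt_trichotomy k p with hlt | heq | hlt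
  · have : Hit V c r k := by
      refine ⟨fun j hj => ?_, ?_⟩
      · rw [hit.1 j hj, hagree j (by omega)]
      · rw [hit.2, hagree k hlt]
    have := hr c hc k this
    omega
  · exact heq
  · have : Hit V c r p := by
      refine ⟨fun j hj => ?_, ?_⟩
      · rw [hit.1 j (by omega), hagree j hj]
      · rw [hit.1 p hlt, hneg]
        simp
    have := hr c hc p this
    omega

theorem g1_pre_ext0 (ρ : List Bool) (m : ℕ) :
    pre (ext0 ρ) (ρ ++ List.replicate m false).length = ρ ++ List.replicate m false := by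
  refine pre_eq_of_getD fun i hi => ?_
  unfold ext0
  rcases Nat.lt_or_ge i ρ.length with h | h
  · simp [List.getElem?_append_left h]
  · rw [List.getD_eq_getElem?_getD, List.getD_eq_getElem?_getD, List.getElem?_append_right h,
      List.getElem?_eq_none h]
    rcases Nat.lt_or_ge (i - ρ.length) m with h' | h'
    · simp [List.getElem?_replicate, h']
    · simp [List.getElem?_replicate, Nat.not_lt.2 h']

theorem depart (hS : Split E P) {ρ : List Bool} {m : ℕ} {h : X}
    (hpre : pre h (ρ ++ List.replicate m false ++ [true]).length =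
      ρ ++ List.replicate m false ++ [true]) :
    (∀ j < P (ρ ++ List.replicate m false), E h j = E (ext0 ρ) j) ∧
      E h (P (ρ ++ List.replicate m false)) ≠ E (ext0 ρ) (P (ρ ++ List.replicate m false)) := by
  obtain ⟨h1, h2⟩ := pre_append_singleton.1 hpre
  have h3 := g1_pre_ext0 ρ m
  have h4 := hS.agree h (ext0 ρ) (ρ ++ List.replicate m false).length (by rw [h1, h3])
  rw [h1] at h4
  refine ⟨h4, ?_⟩
  have h7 : ext0 ρ (ρ ++ List.replicate m false).length = false := by
    unfold ext0
    rw [List.getD_eq_getElem?_getD, List.getElem?_eq_none (by simp)]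
    rfl
  have h5 := hS.ne h (ext0 ρ) (ρ ++ List.replicate m false).length (by rw [h1, h3])
    (by rw [h2, h7]; simp)
  rwa [h1] at h5

theorem exists_departure (hS : Split E P) (ρ : List Bool) (B : ℕ) :
    ∃ m, B ≤ P (ρ ++ List.replicate m false) := by
  refine ⟨B, ?_⟩
  have := hS.le (ext0 ρ) (ρ ++ List.replicate B false).length
  rw [g1_pre_ext0] at this
  refine le_trans ?_ this
  simp

end MC92
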