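import Pool.Agent.LibMC92.G1

/-!
G2: the encoder.
-/

namespace MC92

variable {V : ℕ → ℕ → Option Bool} {E : X → X} {P : List Bool → ℕ}

/-- the invariant of the coding for the node `ρ` -/
def g2_Inv (V : ℕ → ℕ → Option Bool) (E : X → X) (N L : ℕ) (ρ : List Bool) : Prop :=
  (∃ c ≤ N, ∀ k, V c k = some (E (ext0 ρ) k)) ∧ ∀ c ≤ N, ∀ k, Hit V c (E (ext0 ρ)) k → k < L

/-- the states of the coding: the bounds and the nodes of the four branches (the first bit is the
number of the pair). -/
structure g2_St where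
  N : ℕ
  L : ℕ
  ν : Bool → Bool → List Bool

/-- the position of the departure. -/
def g2_pos (P : List Bool → ℕ) (s : g2_St) (u : Bool) (m : Bool → ℕ) (i : Bool) : ℕ :=
  P (s.ν u i ++ List.replicate (m i) false)

/-- the next state, the pair `u` departs. -/
def g2_nxt (P : List Bool → ℕ) (s : g2_St) (u : Bool) (m : Bool → ℕ) : g2_St where
  N := min (g2_pos P s u m false) (g2_pos P s u m true)
  L := max (g2_pos P s u m false) (g2_pos P s u m true)
  ν := Function.update s.ν u fun i => s.ν u i ++ List.replicate (m i) false ++ [true]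

theorem g2_first (hV : ∀ ρ : List Bool, ∃ c, ∀ k, V c k = some (E (ext0 ρ) k))
    (ρ : Bool → List Bool) :
    ∃ N0, ∀ N, N0 ≤ N → ∀ i, ∃ c ≤ N, ∀ k, V c k = some (E (ext0 (ρ i)) k) := by
  choose c hc using hV
  refine ⟨max (c (ρ false)) (c (ρ true)), fun N hN i => ⟨c (ρ i), ?_, hc (ρ i)⟩⟩
  cases i
  · exact (le_max_left _ _).trans hN
  · exact (le_max_right _ _).trans hN

theorem g2_second (V : ℕ → ℕ → Option Bool) (E : X → X) (ρ : Bool → List Bool) (N : ℕ) :
    ∃ L0, ∀ L, L0 ≤ L → ∀ i, ∀ c ≤ N, ∀ k, Hit V c (E (ext0 (ρ i))) k → k < L := by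
  obtain ⟨B0, hB0⟩ := hit_bound V (E (ext0 (ρ false))) N
  obtain ⟨B1, hB1⟩ := hit_bound V (E (ext0 (ρ true))) N
  refine ⟨max B0 B1, fun L hL i c hc k hk => ?_⟩
  cases i
  · exact (hB0 c hc k hk).trans_le ((le_max_left _ _).trans hL)
  · exact (hB1 c hc k hk).trans_le ((le_max_right _ _).trans hL)

theorem g2_step (hS : Split E P) (hV : ∀ ρ : List Bool, ∃ c, ∀ k, V c k = some (E (ext0 ρ) k))
    (s : g2_St) (u b : Bool) :
    ∃ m : Bool → ℕ, (∀ i, s.L ≤ g2_pos P s u m i) ∧
      b = decide (g2_pos P s u m false < g2_pos P s u m true) ∧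
      ∀ i, g2_Inv V E (g2_nxt P s u m).N (g2_nxt P s u m).L (s.ν (!u) i) := by
  obtain ⟨N0, hN0⟩ := g2_first hV fun i => s.ν (!u) i
  choose L0 hL0 using g2_second V E fun i => s.ν (!u) i
  cases b
  · obtain ⟨m1, hm1⟩ := exists_departure hS (s.ν u true) (max s.L N0)
    obtain ⟨m0, hm0⟩ := exists_departure hS (s.ν u false)
      (max (P (s.ν u true ++ List.replicate m1 false))
        (L0 (P (s.ν u true ++ List.replicate m1 false))))
    set q := P (s.ν u true ++ List.replicate m1 false) with hq
    set p := P (s.ν u false ++ List.replicate m0 false) with hp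
    have hqp : q ≤ p := (le_max_left _ _).trans hm0
    refine ⟨fun i => cond i m1 m0, ?_, ?_, ?_⟩
    · intro i
      cases i
      · exact ((le_max_left _ _).trans hm1).trans hqp
      · exact (le_max_left _ _).trans hm1
    · show false = decide (p < q)
      simp [hqp]
    · intro i
      have h1 : (g2_nxt P s u fun i => cond i m1 m0).N = q := min_eq_right hqp
      have h2 : (g2_nxt P s u fun i => cond i m1 m0).L = p := max_eq_left hqp
      rw [h1, h2]
      exact ⟨hN0 q ((le_max_right _ _).trans hm1) i, hL0 q p ((le_max_right _ _).trans hm0) i⟩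
  · obtain ⟨m0, hm0⟩ := exists_departure hS (s.ν u false) (max s.L N0)
    obtain ⟨m1, hm1⟩ := exists_departure hS (s.ν u true)
      (max (P (s.ν u false ++ List.replicate m0 false) + 1)
        (L0 (P (s.ν u false ++ List.replicate m0 false))))
    set q := P (s.ν u true ++ List.replicate m1 false) with hq
    set p := P (s.ν u false ++ List.replicate m0 false) with hp
    have hpq : p + 1 ≤ q := (le_max_left _ _).trans hm1
    have hpq' : p ≤ q := by omega
    refine ⟨fun i => cond i m1 m0, ?_, ?_, ?_⟩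
    · intro i
      cases i
      · exact (le_max_left _ _).trans hm0
      · exact ((le_max_left _ _).trans hm0).trans hpq'
    · show true = decide (p < q)
      have : p < q := by omega
      simp [this]
    · intro i
      have h1 : (g2_nxt P s u fun i => cond i m1 m0).N = p := min_eq_left hpq'
      have h2 : (g2_nxt P s u fun i => cond i m1 m0).L = q := max_eq_right hpq'
      rw [h1, h2]
      exact ⟨hN0 p ((le_max_right _ _).trans hm0) i, hL0 p q ((le_max_right _ _).trans hm1) i⟩

/-- the sequence of states. -/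
def g2_seq (P : List Bool → ℕ) (s0 : g2_St) (m : g2_St → Bool → Bool → Bool → ℕ) (z : X) :
    ℕ → g2_St
  | 0 => s0
  | t + 1 => g2_nxt P (g2_seq P s0 m z t) t.bodd (m (g2_seq P s0 m z t) t.bodd (z t))

theorem g2_nu_eq (P : List Bool → ℕ) (s : g2_St) (u : Bool) (m : Bool → ℕ) (i : Bool) :
    (g2_nxt P s u m).ν u i = s.ν u i ++ List.replicate (m i) false ++ [true] := by
  simp only [g2_nxt, Function.update_self]

theorem g2_nu_ne (P : List Bool → ℕ) (s : g2_St) {u v : Bool} (h : v ≠ u) (m : Bool → ℕ)
    (i : Bool) : (g2_nxt P s u m).ν v i = s.ν v i := by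
  simp only [g2_nxt, Function.update_of_ne h]

theorem g2_prefix (P : List Bool → ℕ) (s : g2_St) (u : Bool) (m : Bool → ℕ) (v i : Bool) :
    s.ν v i <+: (g2_nxt P s u m).ν v i := by
  by_cases h : v = u
  · subst h
    rw [g2_nu_eq, List.append_assoc]
    exact List.prefix_append _ _
  · rw [g2_nu_ne P s h]

theorem g2_length (P : List Bool → ℕ) (s0 : g2_St) (m : g2_St → Bool → Bool → Bool → ℕ) (z : X)
    (v i : Bool) (t : ℕ) :
    t ≤ 2 * ((g2_seq P s0 m z t).ν v i).length + (if v = t.bodd then 1 else 0) := by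
  induction t with
  | zero => exact Nat.zero_le _
  | succ t ih =>
    by_cases h : v = t.bodd
    · rw [if_pos h] at ih
      have h1 : ((g2_seq P s0 m z t).ν v i).length + 1 ≤
          ((g2_seq P s0 m z (t + 1)).ν v i).length := by
        show _ ≤ ((g2_nxt P _ _ _).ν v i).length
        rw [h, g2_nu_eq]
        simp only [List.length_append, List.length_replicate, List.length_singleton]
        omega
      omega
    · rw [if_neg h] at ih
      have h1 : ((g2_seq P s0 m z (t + 1)).ν v i).length =
          ((g2_seq P s0 m z t).ν v i).length := by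
        show ((g2_nxt P _ _ _).ν v i).length = _
        rw [g2_nu_ne P _ h]
      have h2 : v = (t + 1).bodd := by
        rw [Nat.bodd_succ]
        revert h
        cases v <;> cases t.bodd <;> simp
      rw [if_pos h2]
      omega

theorem g2_pre_of_prefix {h : X} {l l' : List Bool} (hl : l <+: l') (h' : pre h l'.length = l') :
    pre h l.length = l := by
  have h1 := List.prefix_iff_eq_take.1 hl
  rw [← pre_take h hl.length_le, h']
  exact h1.symm

theorem encoder {V : ℕ → ℕ → Option Bool} {E : X → X} {P : List Bool → ℕ} (hS : Split E P)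
    (hV : ∀ ρ : List Bool, ∃ c, ∀ k, V c k = some (E (ext0 ρ) k)) (z : X) :
    ∃ h0 h1 h2 h3 : X, Coded V (E h0) (E h1) (E h2) (E h3) z := by
  choose m hm1 hm2 hm3 using g2_step hS hV
  obtain ⟨N0, hN0⟩ := g2_first hV fun _ => []
  obtain ⟨L0, hL0⟩ := g2_second V E (fun _ => []) N0
  set st := g2_seq P ⟨N0, L0, fun _ _ => []⟩ m z with hst
  have hst1 : ∀ t, st (t + 1) = g2_nxt P (st t) t.bodd (m (st t) t.bodd (z t)) := fun t => rfl
  have hinv : ∀ t i, g2_Inv V E (st t).N (st t).L ((st t).ν t.bodd i) := by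
    intro t i
    cases t with
    | zero => exact ⟨hN0 N0 le_rfl i, hL0 L0 le_rfl i⟩
    | succ t =>
      have h1 : (t + 1).bodd ≠ t.bodd := by
        rw [Nat.bodd_succ]
        cases t.bodd <;> simp
      rw [hst1, g2_nu_ne P _ h1, Nat.bodd_succ]
      exact hm3 (st t) t.bodd (z t) i
  have hpre : ∀ v i t, (st t).ν v i <+: (st (t + 1)).ν v i := fun v i t =>
    g2_prefix P _ _ _ v i
  have hlen : ∀ v i t, t ≤ 2 * ((st t).ν v i).length + 1 := by
    intro v i t
    have := g2_length P ⟨N0, L0, fun _ _ => []⟩ m z v i t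
    rw [← hst] at this
    split_ifs at this <;> omega
  have hlim : ∀ v i, ∃ h : X, ∀ t, pre h ((st t).ν v i).length = (st t).ν v i := by
    intro v i
    have h1 : ∀ k, (st (2 * k)).ν v i <+: (st (2 * (k + 1))).ν v i := fun k =>
      prefix_le (T := fun t => (st t).ν v i) (hpre v i) (by omega)
    have h2 : ∀ k, k ≤ ((st (2 * k)).ν v i).length := by
      intro k
      have := hlen v i (2 * k)
      omega
    refine ⟨lim fun k => (st (2 * k)).ν v i, fun t => ?_⟩
    exact g2_pre_of_prefix
      (prefix_le (T := fun t => (st t).ν v i) (hpre v i) (show t ≤ 2 * t by omega))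
      (lim_spec (T := fun k => (st (2 * k)).ν v i) h1 h2 t)
  choose h hh using hlim
  have key : ∀ t i, Step V (st t).N (st t).L (E (h t.bodd i))
      (g2_pos P (st t) t.bodd (m (st t) t.bodd (z t)) i) := by
    intro t i
    obtain ⟨⟨c0, hc0, hc0'⟩, hr⟩ := hinv t i
    have h1 := hh t.bodd i (t + 1)
    rw [hst1, g2_nu_eq] at h1
    obtain ⟨h2, h3⟩ := depart hS h1
    exact hit_unique hc0 hc0' hr (hm1 (st t) t.bodd (z t) i) h2 h3
  refine ⟨h false false, h false true, h true false, h true true, fun t => (st t).N,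
    fun t => (st t).L, fun t => g2_pos P (st t) t.bodd (m (st t) t.bodd (z t)) false,
    fun t => g2_pos P (st t) t.bodd (m (st t) t.bodd (z t)) true, fun t => ?_⟩
  have hb : ∀ i, (if t % 2 = 0 then E (h false i) else E (h true i)) = E (h t.bodd i) := by
    intro i
    rw [Nat.mod_two_of_bodd]
    cases t.bodd <;> simp
  refine ⟨?_, ?_, rfl, rfl, hm2 (st t) t.bodd (z t)⟩
  · rw [hb]
    exact key t false
  · rw [hb]
    exact key t true

end MC92
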