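import Pool.Agent.LibMC92.SplitDefs

/-!
P1: existence of a splitting scheme inside the range of an injective continuous map.
-/

namespace MC92

/-- the cylinder of a list. -/
def p1_cyl (τ : List Bool) (x : X) : Prop := pre x τ.length = τ

theorem p1_cyl_ext (τ : List Bool) (b : Bool) : p1_cyl τ (fun n => τ.getD n b) := by
  refine pre_eq_of_getD fun i hi => ?_
  simp [hi]

theorem p1_two {e : X → X} (hi : Function.Injective e) (τ : List Bool) :
    ∃ p, ∃ x x', p1_cyl τ x ∧ p1_cyl τ x' ∧ e x p = true ∧ e x' p = false := by
  have hne : e (fun n => τ.getD n true) ≠ e (fun n => τ.getD n false) := by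
    intro h
    have := congrFun (hi h) τ.length
    simp at this
  obtain ⟨p, hp⟩ := Function.ne_iff.1 hne
  rcases h1 : e (fun n => τ.getD n true) p with _ | _
  · rcases h2 : e (fun n => τ.getD n false) p with _ | _
    · rw [h1, h2] at hp; exact absurd rfl hp
    · exact ⟨p, _, _, p1_cyl_ext τ false, p1_cyl_ext τ true, h2, h1⟩
  · rcases h2 : e (fun n => τ.getD n false) p with _ | _
    · exact ⟨p, _, _, p1_cyl_ext τ true, p1_cyl_ext τ false, h1, h2⟩
    · rw [h1, h2] at hp; exact absurd rfl hp

open Classical in
/-- the first position where `e` is not constant on the cylinder. -/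
noncomputable def p1_D {e : X → X} (hi : Function.Injective e) (τ : List Bool) : ℕ :=
  Nat.find (p1_two hi τ)

theorem p1_D_spec {e : X → X} (hi : Function.Injective e) (τ : List Bool) (b : Bool) :
    ∃ x, p1_cyl τ x ∧ e x (p1_D hi τ) = b := by
  classical
  obtain ⟨x, x', h1, h2, h3, h4⟩ := Nat.find_spec (p1_two hi τ)
  cases b with
  | true => exact ⟨x, h1, by unfold p1_D; convert h3⟩
  | false => exact ⟨x', h2, by unfold p1_D; convert h4⟩

theorem p1_D_min {e : X → X} (hi : Function.Injective e) (τ : List Bool) {i : ℕ}
    (h : i < p1_D hi τ) {x x' : X} (hx : p1_cyl τ x) (hx' : p1_cyl τ x') : e x i = e x' i := by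
  classical
  have hm := Nat.find_min (p1_two hi τ) (m := i) (by unfold p1_D at h; convert h)
  by_contra hne
  rcases h1 : e x i with _ | _
  · rcases h2 : e x' i with _ | _
    · rw [h1, h2] at hne; exact hne rfl
    · exact hm ⟨x', x, hx', hx, h2, h1⟩
  · rcases h2 : e x' i with _ | _
    · exact hm ⟨x, x', hx, hx', h1, h2⟩
    · rw [h1, h2] at hne; exact hne rfl

theorem p1_next {e : X → X} (he : Continuous e) (hi : Function.Injective e) (τ : List Bool)
    (b : Bool) : ∃ τ', τ <+: τ' ∧ τ.length < τ'.length ∧
      ∀ x, p1_cyl τ' x → e x (p1_D hi τ) = b := by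
  obtain ⟨x0, h0, h1⟩ := p1_D_spec hi τ b
  obtain ⟨N, hN⟩ := local_of_continuous he x0 (p1_D hi τ)
  let M := max N (τ.length + 1)
  refine ⟨pre x0 M, ?_, ?_, fun x hx => ?_⟩
  · have h2 : (pre x0 M).take τ.length = τ := by
      rw [pre_take x0 (by omega)]; exact h0
    rw [List.prefix_iff_eq_take, h2]
  · rw [pre_length]; omega
  · unfold p1_cyl at hx
    rw [pre_length] at hx
    rw [hN x, h1]
    have := congrArg (List.take N) hx
    rwa [pre_take x (le_max_left _ _), pre_take x0 (le_max_left _ _)] at this

theorem p1_cyl_mono {τ τ' : List Bool} (h : τ <+: τ') {x : X} (hx : p1_cyl τ' x) :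
    p1_cyl τ x := by
  unfold p1_cyl at *
  have h1 := List.prefix_iff_eq_take.1 h
  have h2 := congrArg (List.take τ.length) hx
  rw [pre_take x h.length_le] at h2
  rw [h2, ← h1]

theorem exists_split {e : X → X} (he : Continuous e) (hi : Function.Injective e) :
    ∃ E P, Split E P ∧ ∀ h, ∃ h', E h = e h' := by
  choose nxt hn1 hn2 hn3 using p1_next he hi
  let T : List Bool → List Bool := fun ρ => ρ.foldl nxt []
  have hT : ∀ ρ b, T (ρ ++ [b]) = nxt (T ρ) b := fun ρ b => by
    simp [T, List.foldl_append]
  let L : X → ℕ → List Bool := fun h k => T (pre h k)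
  have hL : ∀ h k, L h (k + 1) = nxt (L h k) (h k) := fun h k => by
    simp only [L, pre_succ, hT]
  have hL1 : ∀ h k, L h k <+: L h (k + 1) := fun h k => by
    rw [hL]; exact hn1 _ _
  have hL2 : ∀ h k, k ≤ (L h k).length := by
    intro h k
    induction k with
    | zero => omega
    | succ k ih =>
      rw [hL]
      have := hn2 (L h k) (h k)
      omega
  have hcyl : ∀ h k, p1_cyl (L h k) (lim (L h)) := fun h k => lim_spec (hL1 h) (hL2 h) k
  refine ⟨fun h => e (lim (L h)), fun ρ => p1_D hi (T ρ), ⟨?_, ?_⟩, fun h => ⟨_, rfl⟩⟩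
  · have hval : ∀ h n, e (lim (L h)) (p1_D hi (T (pre h n))) = h n := by
      intro h n
      have := hcyl h (n + 1)
      rw [hL] at this
      exact hn3 _ _ _ this
    intro h h' n hpre hne
    rw [hval h n, hpre, hval h' n]
    exact hne
  · intro h h' n hpre i hi'
    refine p1_D_min hi (T (pre h n)) hi' (hcyl h n) ?_
    rw [hpre]
    exact hcyl h' n

theorem Split.lt {E : X → X} {P : List Bool → ℕ} (hS : Split E P) (h : X) (n : ℕ) :
    P (pre h n) < P (pre h (n + 1)) := by
  by_contra hcon
  have hpre : ∀ b, pre (Function.update h (n + 1) b) (n + 1) = pre h (n + 1) := fun b =>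
    pre_eq_iff.2 fun i hi => by rw [Function.update_of_ne (by omega)]
  have hpre' : ∀ b, pre (Function.update h (n + 1) b) n = pre h n := fun b =>
    pre_eq_iff.2 fun i hi => by rw [Function.update_of_ne (by omega)]
  have hne := hS.ne (Function.update h (n + 1) true) (Function.update h (n + 1) false) (n + 1)
    (by rw [hpre, hpre]) (by simp)
  rw [hpre] at hne
  rcases Nat.lt_or_ge (P (pre h (n + 1))) (P (pre h n)) with hlt | hge
  · have h1 := hS.agree (Function.update h (n + 1) true) (Function.update h (n + 1) false) n
      (by rw [hpre', hpre']) (P (pre h (n + 1))) (by rw [hpre']; exact hlt)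
    exact hne h1
  · have heq : P (pre h (n + 1)) = P (pre h n) := by omega
    have hpre3 : pre (Function.update h n (! h n)) n = pre h n :=
      pre_eq_iff.2 fun i hi => by rw [Function.update_of_ne (by omega)]
    have h3 : ∀ b, E (Function.update h n (! h n)) (P (pre h n)) ≠
        E (Function.update h (n + 1) b) (P (pre h n)) := by
      intro b
      have := hS.ne (Function.update h n (! h n)) (Function.update h (n + 1) b) n
        (by rw [hpre3, hpre']) (by
          rw [Function.update_self, Function.update_of_ne (show n ≠ n + 1 by omega)]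
          cases h n <;> simp)
      rwa [hpre3] at this
    rw [heq] at hne
    have h4 := h3 true
    have h5 := h3 false
    revert hne h4 h5
    generalize E (Function.update h n (! h n)) (P (pre h n)) = u
    generalize E (Function.update h (n + 1) true) (P (pre h n)) = v
    generalize E (Function.update h (n + 1) false) (P (pre h n)) = w
    cases u <;> cases v <;> cases w <;> simp

theorem Split.le {E : X → X} {P : List Bool → ℕ} (hS : Split E P) (h : X) (n : ℕ) :
    n ≤ P (pre h n) := by
  induction n with
  | zero => omega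
  | succ n ih => have := hS.lt h n; omega

end MC92
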