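import Pool.Agent.LibMC92.SplitDefs

/-!
Q1: perfect set game, the first player wins.
-/

namespace MC92

/-- the play against the bits of `h`. -/
def q1_a (s : List ℕ → ℕ) (h : X) : ℕ → ℕ := play1 s (fun n => (h n).toNat)

theorem q1_local (s : List ℕ → ℕ) {h h' : X} {k : ℕ} (hh : ∀ i < k, h i = h' i) :
    ∀ i < 2 * k + 1, q1_a s h i = q1_a s h' i := by
  intro i hi
  rcases Nat.even_or_odd' i with ⟨j, rfl | rfl⟩
  · simp only [q1_a, play1_even]
    congr 1
    refine List.map_congr_left fun l hl => ?_
    rw [hh l (by have := List.mem_range.1 hl; omega)]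
  · simp only [q1_a, play1_odd]
    rw [hh j (by omega)]

theorem psp_I_explicit {g : X → X} {s : List ℕ → ℕ}
    (_h : ∀ b, g (zz (play1 s b)) = oo (play1 s b)) :
    ∃ e : X → X, Continuous e ∧ Function.Injective e ∧ ∀ x, e x = oo (q1_a s x) := by
  refine ⟨fun x => oo (q1_a s x), ?_, ?_, fun x => rfl⟩
  · refine continuous_of_local fun n => ⟨n + 1, fun a b hab => ?_⟩
    simp only [oo, lim]
    rw [oL_local fun i hi => q1_local s hab i (by omega)]
  · intro x x' hxx
    by_contra hne
    classical
    have hex : ∃ i, x i ≠ x' i := Function.ne_iff.1 hne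
    let i := Nat.find hex
    have hi : x i ≠ x' i := Nat.find_spec hex
    have hlt : ∀ j < i, x j = x' j := fun j hj => by
      by_contra hcon
      exact Nat.find_min hex hj hcon
    have hloc := q1_local s hlt
    have h1 : oL (q1_a s x) i = oL (q1_a s x') i := oL_local fun j hj => hloc j (by omega)
    have h2 : q1_a s x (2 * i) = q1_a s x' (2 * i) := hloc _ (by omega)
    have h3 := oo_pre (q1_a s x) (i + 1)
    have h4 := oo_pre (q1_a s x') (i + 1)
    rw [oL_succ] at h3 h4
    rw [← h1, ← h2, ← show oo (q1_a s x) = oo (q1_a s x') from hxx] at h4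
    have hlen : (oL (q1_a s x) i ++ ((seg (q1_a s x (2 * i))).1 ++
        [q1_a s x (2 * i + 1) != 0])).length =
      (oL (q1_a s x) i ++ ((seg (q1_a s x (2 * i))).1 ++
        [q1_a s x' (2 * i + 1) != 0])).length := by simp
    rw [hlen] at h3
    rw [h3] at h4
    have h5 := List.append_cancel_left (List.append_cancel_left h4)
    simp only [q1_a, play1_odd, List.cons.injEq, and_true] at h5
    apply hi
    cases hx : x i <;> cases hx' : x' i <;> simp [hx, hx'] at h5 ⊢

theorem psp_I {g : X → X} {s : List ℕ → ℕ}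
    (h : ∀ b, g (zz (play1 s b)) = oo (play1 s b)) :
    ∃ e : X → X, Continuous e ∧ Function.Injective e ∧ ∀ x, ∃ z, e x = g z := by
  obtain ⟨e, he, hi, hx⟩ := psp_I_explicit h
  exact ⟨e, he, hi, fun x => ⟨_, (hx x).trans (h _).symm⟩⟩

end MC92
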