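import Pool.Agent.LibMC92.Basic
import Pool.Agent.LibMC92.Util

/-!
T2: the use principle.
-/

open Encodable

namespace MC92

/-- `F` is a finite simulation of `f` with the oracle `y`. -/
def t2_Sim (y : X) (f : ℕ →. ℕ) (F : List Bool × ℕ → Option ℕ) : Prop :=
  Computable F ∧
    (∀ s t n v, s ≤ t → F (pre y s, n) = some v → F (pre y t, n) = some v) ∧
    (∀ n v, v ∈ f n ↔ ∃ s, F (pre y s, n) = some v)

theorem t2_total {y : X} {f : ℕ →. ℕ} {g : ℕ → ℕ} (hg : Computable g)
    (h : ∀ n v, v ∈ f n ↔ v = g n) : t2_Sim y f (fun p => some (g p.2)) := by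
  refine ⟨Computable.option_some.comp (hg.comp Computable.snd), fun _ _ _ _ _ h => h,
    fun n v => ?_⟩
  rw [h n v]
  constructor
  · rintro rfl
    exact ⟨0, rfl⟩
  · rintro ⟨_, hs⟩
    exact (Option.some_injective _ hs).symm

theorem t2_oracle (y : X) : t2_Sim y (chi y) (fun p => p.1[p.2]?.map Bool.toNat) := by
  refine ⟨?_, ?_, ?_⟩
  · refine Computable.option_map (Computable.list_getElem?.comp Computable.fst Computable.snd) ?_
    exact ((Primrec.dom_bool Bool.toNat).comp Primrec.snd).to_comp
  · intro s t n v hst h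
    simp only at h ⊢
    rcases Nat.lt_or_ge n s with hn | hn
    · rw [pre_getElem? y hn] at h
      rw [pre_getElem? y (lt_of_lt_of_le hn hst)]
      exact h
    · rw [List.getElem?_eq_none (by simpa using hn)] at h
      cases h
  · intro n v
    simp only [chi, Part.mem_some_iff]
    constructor
    · rintro rfl
      exact ⟨n + 1, by rw [pre_getElem? y (Nat.lt_succ_self n)]; rfl⟩
    · rintro ⟨s, hs⟩
      rcases Nat.lt_or_ge n s with hn | hn
      · rw [pre_getElem? y hn] at hs
        exact (Option.some_injective _ hs).symm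
      · rw [List.getElem?_eq_none (by simpa using hn)] at hs
        cases hs

theorem t2_pair {y : X} {f h : ℕ →. ℕ} {F H : List Bool × ℕ → Option ℕ} (hF : t2_Sim y f F)
    (hH : t2_Sim y h H) :
    t2_Sim y (fun n => (Nat.pair <$> f n <*> h n))
      (fun p => (F p).bind fun a => (H p).map fun b => Nat.pair a b) := by
  obtain ⟨F1, F2, F3⟩ := hF
  obtain ⟨H1, H2, H3⟩ := hH
  refine ⟨?_, ?_, ?_⟩
  · refine Computable.option_bind F1 ?_
    refine Computable.option_map (H1.comp Computable.fst) ?_
    exact (Primrec₂.natPair.comp (Primrec.snd.comp Primrec.fst) Primrec.snd).to_comp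
  · intro s t n v hst h
    simp only [Option.bind_eq_some_iff, Option.map_eq_some_iff] at h ⊢
    obtain ⟨a, ha, b, hb, hv⟩ := h
    exact ⟨a, F2 s t n a hst ha, b, H2 s t n b hst hb, hv⟩
  · intro n v
    simp only [Seq.seq, Part.map_eq_map, Part.bind_eq_bind, Part.mem_bind_iff, Part.mem_map_iff,
      Option.bind_eq_some_iff, Option.map_eq_some_iff]
    constructor
    · rintro ⟨g, ⟨a, ha, rfl⟩, b, hb, rfl⟩
      obtain ⟨s, hs⟩ := (F3 n a).1 ha
      obtain ⟨t, ht⟩ := (H3 n b).1 hb
      exact ⟨max s t, a, F2 _ _ _ _ (le_max_left _ _) hs, b, H2 _ _ _ _ (le_max_right _ _) ht,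
        rfl⟩
    · rintro ⟨s, a, ha, b, hb, rfl⟩
      exact ⟨_, ⟨a, (F3 n a).2 ⟨s, ha⟩, rfl⟩, b, (H3 n b).2 ⟨s, hb⟩, rfl⟩

theorem t2_comp {y : X} {f h : ℕ →. ℕ} {F H : List Bool × ℕ → Option ℕ} (hF : t2_Sim y f F)
    (hH : t2_Sim y h H) :
    t2_Sim y (fun n => h n >>= f) (fun p => (H p).bind fun a => F (p.1, a)) := by
  obtain ⟨F1, F2, F3⟩ := hF
  obtain ⟨H1, H2, H3⟩ := hH
  refine ⟨?_, ?_, ?_⟩
  · refine Computable.option_bind H1 ?_
    exact F1.comp ((Computable.fst.comp Computable.fst).pair Computable.snd)
  · intro s t n v hst h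
    simp only [Option.bind_eq_some_iff] at h ⊢
    obtain ⟨a, ha, hb⟩ := h
    exact ⟨a, H2 s t n a hst ha, F2 s t a v hst hb⟩
  · intro n v
    simp only [Part.bind_eq_bind, Part.mem_bind_iff, Option.bind_eq_some_iff]
    constructor
    · rintro ⟨a, ha, hv⟩
      obtain ⟨s, hs⟩ := (H3 n a).1 ha
      obtain ⟨t, ht⟩ := (F3 a v).1 hv
      exact ⟨max s t, a, H2 _ _ _ _ (le_max_left _ _) hs, F2 _ _ _ _ (le_max_right _ _) ht⟩
    · rintro ⟨s, a, ha, hb⟩
      exact ⟨a, (H3 n a).2 ⟨s, ha⟩, (F3 a v).2 ⟨s, hb⟩⟩

theorem t2_prec {y : X} {f h : ℕ →. ℕ} {F H : List Bool × ℕ → Option ℕ} (hF : t2_Sim y f F)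
    (hH : t2_Sim y h H) :
    t2_Sim y (fun p =>
        let (a, n) := Nat.unpair p
        n.rec (f a) fun y IH => do
          let i ← IH
          h (Nat.pair a (Nat.pair y i)))
      (fun p => Nat.rec (motive := fun _ => Option ℕ) (F (p.1, p.2.unpair.1))
        (fun k IH => IH.bind fun i => H (p.1, Nat.pair p.2.unpair.1 (Nat.pair k i)))
        p.2.unpair.2) := by
  obtain ⟨F1, F2, F3⟩ := hF
  obtain ⟨H1, H2, H3⟩ := hH
  refine ⟨?_, ?_, ?_⟩
  · refine Computable.nat_rec (σ := Option ℕ)
      (h := fun (p : List Bool × ℕ) (q : ℕ × Option ℕ) =>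
        q.2.bind fun i => H (p.1, Nat.pair p.2.unpair.1 (Nat.pair q.1 i))) ?_ ?_ ?_
    · exact (Primrec.snd.comp (Primrec.unpair.comp Primrec.snd)).to_comp
    · exact F1.comp (Computable.fst.pair
        (Primrec.fst.comp (Primrec.unpair.comp Primrec.snd)).to_comp)
    · refine Computable.option_bind (Computable.snd.comp Computable.snd) ?_
      refine H1.comp ?_
      refine (Computable.fst.comp (Computable.fst.comp Computable.fst)).pair ?_
      refine (Primrec₂.natPair.comp (Primrec.fst.comp (Primrec.unpair.comp
        (Primrec.snd.comp (Primrec.fst.comp Primrec.fst)))) ?_).to_comp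
      exact Primrec₂.natPair.comp
        (Primrec.fst.comp (Primrec.snd.comp Primrec.fst)) Primrec.snd
  · intro s t n v hst h
    simp only at h ⊢
    generalize n.unpair.1 = a at h ⊢
    generalize n.unpair.2 = m at h ⊢
    induction m generalizing v with
    | zero => exact F2 s t a v hst h
    | succ m ih =>
      simp only [Option.bind_eq_some_iff] at h ⊢
      obtain ⟨i, hi, hv⟩ := h
      exact ⟨i, ih i hi, H2 _ _ _ _ hst hv⟩
  · intro n v
    simp only
    generalize n.unpair.1 = a
    generalize n.unpair.2 = m
    induction m generalizing v with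
    | zero => exact F3 a v
    | succ m ih =>
      simp only [Part.bind_eq_bind, Part.mem_bind_iff, Option.bind_eq_some_iff]
      constructor
      · rintro ⟨i, hi, hv⟩
        obtain ⟨s, hs⟩ := (ih i).1 hi
        obtain ⟨t, ht⟩ := (H3 _ v).1 hv
        refine ⟨max s t, i, ?_, H2 _ _ _ _ (le_max_right _ _) ht⟩
        clear ht hv hi ih
        have hst := le_max_left s t
        generalize max s t = u at hst
        induction m generalizing i with
        | zero => exact F2 s u a i hst hs
        | succ m ih =>
          simp only [Option.bind_eq_some_iff] at hs ⊢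
          obtain ⟨j, hj, hv⟩ := hs
          exact ⟨j, ih j hj, H2 _ _ _ _ hst hv⟩
      · rintro ⟨s, i, hi, hv⟩
        exact ⟨i, (ih i).2 ⟨s, hi⟩, (H3 _ v).2 ⟨s, hv⟩⟩

/-- the search, with states `none` (searching), `some (some m)` (found), `some none` (stuck). -/
def t2_S (F : List Bool × ℕ → Option ℕ) (p : List Bool) (a : ℕ) (k : ℕ) : Option (Option ℕ) :=
  Nat.rec (motive := fun _ => Option (Option ℕ)) none
    (fun k IH => Option.casesOn IH
      (Option.casesOn (F (p, Nat.pair a k)) (some none)
        (fun v => Nat.casesOn v (some (some k)) (fun _ => none)))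
      (fun r => some r)) k

theorem t2_S_some {F : List Bool × ℕ → Option ℕ} {p : List Bool} {a k v : ℕ} :
    t2_S F p a k = some (some v) ↔
      v < k ∧ F (p, Nat.pair a v) = some 0 ∧ ∀ m < v, ∃ i, F (p, Nat.pair a m) = some (i + 1) := by
  have key : ∀ k, (t2_S F p a k = none ↔ ∀ m < k, ∃ i, F (p, Nat.pair a m) = some (i + 1)) ∧
      ∀ v, (t2_S F p a k = some (some v) ↔
        v < k ∧ F (p, Nat.pair a v) = some 0 ∧
          ∀ m < v, ∃ i, F (p, Nat.pair a m) = some (i + 1)) := by
    intro k
    induction k with
    | zero => simp [t2_S]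
    | succ k ih =>
      obtain ⟨ih1, ih2⟩ := ih
      have hs : t2_S F p a (k + 1) = Option.casesOn (t2_S F p a k)
        (Option.casesOn (F (p, Nat.pair a k)) (some none)
          (fun v => Nat.casesOn v (some (some k)) (fun _ => none)))
        (fun r => some r) := rfl
      rcases hk : t2_S F p a k with _ | r
      · have hall := ih1.1 hk
        rw [hs, hk]
        rcases hF : F (p, Nat.pair a k) with _ | v
        · simp only
          constructor
          · constructor
            · intro h; cases h
            · intro h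
              obtain ⟨i, hi⟩ := h k (Nat.lt_succ_self k)
              rw [hF] at hi; cases hi
          · intro v
            constructor
            · intro h
              simp at h
            · rintro ⟨h1, h2, h3⟩
              rcases Nat.lt_succ_iff_lt_or_eq.1 h1 with h | rfl
              · obtain ⟨i, hi⟩ := hall v h
                rw [hi] at h2; cases h2
              · rw [hF] at h2; cases h2
        · rcases v with _ | v
          · simp only
            constructor
            · constructor
              · intro h; cases h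
              · intro h
                obtain ⟨i, hi⟩ := h k (Nat.lt_succ_self k)
                rw [hF] at hi; cases hi
            · intro v
              constructor
              · intro h
                obtain rfl : k = v := by simpa using h
                exact ⟨Nat.lt_succ_self k, hF, hall⟩
              · rintro ⟨h1, h2, h3⟩
                rcases Nat.lt_succ_iff_lt_or_eq.1 h1 with h | rfl
                · obtain ⟨i, hi⟩ := hall v h
                  rw [hi] at h2; cases h2
                · rfl
          · simp only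
            constructor
            · constructor
              · intro _ m hm
                rcases Nat.lt_succ_iff_lt_or_eq.1 hm with h | rfl
                · exact hall m h
                · exact ⟨v, hF⟩
              · intro _; trivial
            · intro u
              constructor
              · intro h; cases h
              · rintro ⟨h1, h2, h3⟩
                rcases Nat.lt_succ_iff_lt_or_eq.1 h1 with h | rfl
                · obtain ⟨i, hi⟩ := hall u h
                  rw [hi] at h2; cases h2
                · rw [hF] at h2; cases h2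
      · rw [hs, hk]
        simp only
        have hn : ¬ ∀ m < k, ∃ i, F (p, Nat.pair a m) = some (i + 1) := by
          intro h
          rw [ih1.2 h] at hk; cases hk
        constructor
        · constructor
          · intro h; cases h
          · intro h
            exact absurd (fun m hm => h m (Nat.lt_succ_of_lt hm)) hn
        · intro v
          rw [← hk, ih2 v]
          constructor
          · rintro ⟨h1, h2, h3⟩
            exact ⟨Nat.lt_succ_of_lt h1, h2, h3⟩
          · rintro ⟨h1, h2, h3⟩
            rcases Nat.lt_succ_iff_lt_or_eq.1 h1 with h | rfl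
            · exact ⟨h, h2, h3⟩
            · exact absurd h3 hn
  exact (key k).2 v

theorem t2_rfind {y : X} {f : ℕ →. ℕ} {F : List Bool × ℕ → Option ℕ} (hF : t2_Sim y f F) :
    t2_Sim y (fun a => Nat.rfind fun n => (fun m => m = 0) <$> f (Nat.pair a n))
      (fun p => (t2_S F p.1 p.2 p.1.length).bind id) := by
  obtain ⟨F1, F2, F3⟩ := hF
  have hiff : ∀ s a v, (t2_S F (pre y s) a (pre y s).length).bind id = some v ↔
      v < s ∧ F (pre y s, Nat.pair a v) = some 0 ∧
        ∀ m < v, ∃ i, F (pre y s, Nat.pair a m) = some (i + 1) := by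
    intro s a v
    rw [pre_length, Option.bind_eq_some_iff]
    constructor
    · rintro ⟨r, hr, h⟩
      rw [id] at h
      rw [h] at hr
      exact t2_S_some.1 hr
    · intro h
      exact ⟨some v, t2_S_some.2 h, rfl⟩
  refine ⟨?_, ?_, ?_⟩
  · refine Computable.option_bind ?_ Computable.snd
    unfold t2_S
    refine Computable.nat_rec (σ := Option (Option ℕ))
      (h := fun (p : List Bool × ℕ) (q : ℕ × Option (Option ℕ)) =>
        (Option.casesOn q.2
      (Option.casesOn (F (p.1, Nat.pair p.2 q.1)) (some none)
        (fun v => Nat.casesOn v (some (some q.1)) (fun _ => none)))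
      (fun r => some r) : Option (Option ℕ))) (Computable.list_length.comp Computable.fst)
      (Computable.const none) ?_
    refine Computable.option_casesOn (Computable.snd.comp Computable.snd) ?_
      (Computable.option_some.comp Computable.snd)
    refine Computable.option_casesOn ?_ (Computable.const _) ?_
    · refine F1.comp ?_
      refine (Computable.fst.comp Computable.fst).pair ?_
      exact (Primrec₂.natPair.comp (Primrec.snd.comp Primrec.fst)
        (Primrec.fst.comp Primrec.snd)).to_comp
    · refine Computable.nat_casesOn Computable.snd ?_ (Computable.const none)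
      exact (Primrec.option_some.comp (Primrec.option_some.comp
        (Primrec.fst.comp (Primrec.snd.comp Primrec.fst)))).to_comp
  · intro s t n v hst h
    simp only at h ⊢
    rw [hiff] at h ⊢
    obtain ⟨h1, h2, h3⟩ := h
    exact ⟨by omega, F2 _ _ _ _ hst h2, fun m hm => (h3 m hm).imp fun i hi => F2 _ _ _ _ hst hi⟩
  · intro a v
    rw [Nat.mem_rfind]
    simp only [Part.map_eq_map, Part.mem_map_iff]
    constructor
    · rintro ⟨⟨x, hx, hx0⟩, h2⟩
      obtain rfl : x = 0 := by simpa using hx0
      obtain ⟨s0, hs0⟩ := (F3 _ _).1 hx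
      have h3 : ∀ m, ∃ s, m < v → ∃ i, F (pre y s, Nat.pair a m) = some (i + 1) := by
        intro m
        by_cases hm : m < v
        · obtain ⟨x, hx, hx0⟩ := h2 hm
          obtain ⟨s, hs⟩ := (F3 _ _).1 hx
          refine ⟨s, fun _ => ?_⟩
          rcases x with _ | i
          · simp at hx0
          · exact ⟨i, hs⟩
        · exact ⟨0, fun h => absurd h hm⟩
      choose S hS using h3
      let s := max (max s0 (v + 1)) ((Finset.range v).sup S)
      refine ⟨s, ?_⟩
      rw [hiff]
      refine ⟨?_, F2 _ _ _ _ ?_ hs0, fun m hm => ?_⟩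
      · exact lt_of_lt_of_le (Nat.lt_succ_self v) ((le_max_right _ _).trans (le_max_left _ _))
      · exact (le_max_left _ _).trans (le_max_left _ _)
      · obtain ⟨i, hi⟩ := hS m hm
        exact ⟨i, F2 _ _ _ _ ((Finset.le_sup (f := S) (Finset.mem_range.2 hm)).trans
          (le_max_right _ _)) hi⟩
    · rintro ⟨s, hs⟩
      rw [hiff] at hs
      obtain ⟨h1, h2, h3⟩ := hs
      refine ⟨⟨0, (F3 _ _).2 ⟨s, h2⟩, by simp⟩, fun {m} hm => ?_⟩
      obtain ⟨i, hi⟩ := h3 m hm
      exact ⟨i + 1, (F3 _ _).2 ⟨s, hi⟩, by simp⟩

theorem use_principle {y : X} {f : ℕ →. ℕ} (hf : Nat.RecursiveIn {chi y} f) :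
    ∃ F : List Bool × ℕ → Option ℕ, Computable F ∧
      (∀ s t n v, s ≤ t → F (pre y s, n) = some v → F (pre y t, n) = some v) ∧
      (∀ n v, v ∈ f n ↔ ∃ s, F (pre y s, n) = some v) := by
  suffices h : ∃ F, t2_Sim y f F from h
  induction hf with
  | zero => exact ⟨_, t2_total (g := fun _ => 0) (Computable.const 0) fun n v => by
      exact Part.mem_some_iff⟩
  | succ => exact ⟨_, t2_total (g := Nat.succ) Computable.succ fun n v => by simp⟩
  | left => exact ⟨_, t2_total (g := fun n => n.unpair.1)
      (Primrec.fst.comp Primrec.unpair).to_comp fun n v => by simp⟩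
  | right => exact ⟨_, t2_total (g := fun n => n.unpair.2)
      (Primrec.snd.comp Primrec.unpair).to_comp fun n v => by simp⟩
  | oracle g hg =>
    rw [Set.mem_singleton_iff.1 hg]
    exact ⟨_, t2_oracle y⟩
  | pair _ _ ihf ihg =>
    obtain ⟨F, hF⟩ := ihf
    obtain ⟨H, hH⟩ := ihg
    exact ⟨_, t2_pair hF hH⟩
  | comp _ _ ihf ihg =>
    obtain ⟨F, hF⟩ := ihf
    obtain ⟨H, hH⟩ := ihg
    exact ⟨_, t2_comp hF hH⟩
  | prec _ _ ihf ihg =>
    obtain ⟨F, hF⟩ := ihf
    obtain ⟨H, hH⟩ := ihg
    exact ⟨_, t2_prec hF hH⟩
  | rfind _ ihf =>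
    obtain ⟨F, hF⟩ := ihf
    exact ⟨_, t2_rfind hF⟩

end MC92
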